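import Pool.Agent.PLZ.St

/-!
# PLZ, module AVO: avoidance of finitely many ideals by a linear combination
-/

set_option autoImplicit false

namespace Pool.Agent.PLZ

open MvPolynomial

/-- the subspace of the coefficient vectors with linear combination in `P` -/
private noncomputable def AVO_sub {σ : Type} {n : ℕ} (x : Fin n → MvPolynomial σ ℂ)
    (P : Ideal (MvPolynomial σ ℂ)) : Submodule ℂ (Fin n → ℂ) where
  carrier := {c | ∑ j, C (c j) * x j ∈ P}
  zero_mem' := by simp
  add_mem' := by
    intro a b ha hb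
    have e : ∑ j, C ((a + b) j) * x j = ∑ j, C (a j) * x j + ∑ j, C (b j) * x j := by
      rw [← Finset.sum_add_distrib]
      exact Finset.sum_congr rfl fun j _ => by rw [Pi.add_apply, C_add, add_mul]
    simp only [Set.mem_ofPred_eq] at ha hb ⊢
    rw [e]
    exact P.add_mem ha hb
  smul_mem' := by
    intro r a ha
    have e : ∑ j, C ((r • a) j) * x j = C r * ∑ j, C (a j) * x j := by
      rw [Finset.mul_sum]
      exact Finset.sum_congr rfl fun j _ => by rw [Pi.smul_apply, smul_eq_mul, C_mul, mul_assoc]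
    simp only [Set.mem_ofPred_eq] at ha ⊢
    rw [e]
    exact P.mul_mem_left _ ha

theorem thm_AVO : St_AVO := by
  intro σ n x S hS hx
  classical
  set T : Finset (Submodule ℂ (Fin n → ℂ)) := hS.toFinset.image (AVO_sub x) with hT
  have htop : ⊤ ∉ T := by
    intro h
    rw [hT, Finset.mem_image] at h
    obtain ⟨P, hP, hPt⟩ := h
    obtain ⟨j, hj⟩ := hx P (hS.mem_toFinset.1 hP)
    apply hj
    have h1 : (Pi.single j 1 : Fin n → ℂ) ∈ AVO_sub x P := by rw [hPt]; trivial
    have h2 : ∑ i, C ((Pi.single j 1 : Fin n → ℂ) i) * x i ∈ P := h1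
    have e : ∑ i, C ((Pi.single j 1 : Fin n → ℂ) i) * x i = x j := by
      rw [Finset.sum_eq_single j]
      · rw [Pi.single_eq_same, C_1, one_mul]
      · intro i _ hi
        rw [Pi.single_eq_of_ne hi, C_0, zero_mul]
      · intro h; exact absurd (Finset.mem_univ j) h
    rwa [e] at h2
  have hne := Subspace.biUnion_ne_univ_of_top_notMem htop
  obtain ⟨c, hc⟩ := (Set.ne_univ_iff_exists_notMem _).1 hne
  refine ⟨c, fun P hP hin => hc ?_⟩
  simp only [Set.mem_iUnion]
  exact ⟨AVO_sub x P, Finset.mem_image_of_mem _ (hS.mem_toFinset.2 hP), hin⟩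

end Pool.Agent.PLZ
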