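import Pool.Agent.PLZ.St

/-!
# PLZ: the chain lemma `St_CHN`
-/

set_option autoImplicit false

namespace Pool.Agent.PLZ

open MvPolynomial

private theorem CHN_rs_append {R : Type} [CommRing R] (a : R) :
    ∀ (l : List R) (J : Ideal R), RS J (l ++ [a]) ↔ RS J l ∧ NZ (J ⊔ Ideal.ofList l) a := by
  intro l
  induction l with
  | nil =>
    intro J
    simp [RS]
  | cons b l ih =>
    intro J
    simp only [List.cons_append, RS, ih, Ideal.ofList_cons, sup_assoc, and_assoc]

private theorem CHN_comp_mul {σ : Type} (F g : MvPolynomial σ ℂ) (k e : ℕ)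
    (hF : F.IsHomogeneous k) :
    homogeneousComponent (k + e) (F * g) = F * homogeneousComponent e g := by
  classical
  have h1 : F * g = ∑ i ∈ Finset.range (g.totalDegree + 1), F * homogeneousComponent i g := by
    rw [← Finset.mul_sum, sum_homogeneousComponent]
  have h2 : ∀ i, homogeneousComponent (k + e) (F * homogeneousComponent i g)
      = if e = i then F * homogeneousComponent i g else 0 := by
    intro i
    have h3 : (F * homogeneousComponent i g) ∈ homogeneousSubmodule σ ℂ (k + i) :=
      hF.mul (homogeneousComponent_isHomogeneous i g)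
    rw [homogeneousComponent_of_mem h3]
    by_cases h : e = i
    · subst h; simp
    · rw [if_neg (by omega), if_neg h]
  rw [h1, map_sum]
  simp only [h2]
  rw [Finset.sum_ite_eq]
  by_cases h : e ∈ Finset.range (g.totalDegree + 1)
  · rw [if_pos h]
  · rw [if_neg h]
    rw [homogeneousComponent_eq_zero e g (by rw [Finset.mem_range] at h; omega)]
    simp

private theorem CHN_comp_mul_lt {σ : Type} (F g : MvPolynomial σ ℂ) (k e : ℕ)
    (hF : F.IsHomogeneous k) (he : e < k) :
    homogeneousComponent e (F * g) = 0 := by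
  classical
  have h1 : F * g = ∑ i ∈ Finset.range (g.totalDegree + 1), F * homogeneousComponent i g := by
    rw [← Finset.mul_sum, sum_homogeneousComponent]
  rw [h1, map_sum]
  refine Finset.sum_eq_zero fun i _ => ?_
  have h3 : (F * homogeneousComponent i g) ∈ homogeneousSubmodule σ ℂ (k + i) :=
    hF.mul (homogeneousComponent_isHomogeneous i g)
  rw [homogeneousComponent_of_mem h3, if_neg (by omega)]

/-- a form `w` of the span of the `x j` which is regular modulo `J'` -/
private theorem CHN_exists_w (h1 : St_AVO) {σ : Type} [Finite σ] (n : ℕ)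
    (x : Fin n → MvPolynomial σ ℂ) (J' : Ideal (MvPolynomial σ ℂ)) (F : MvPolynomial σ ℂ)
    (hF : F ∈ Ideal.span (Set.range x)) (hnz : NZ J' F) :
    ∃ c : Fin n → ℂ, NZ J' (∑ j, C (c j) * x j) := by
  classical
  have hfin : (associatedPrimes (MvPolynomial σ ℂ) (MvPolynomial σ ℂ ⧸ J')).Finite :=
    associatedPrimes.finite _ _
  obtain ⟨c, hc⟩ := h1 σ n x _ hfin (by
    intro P hP
    by_contra hcon
    push Not at hcon
    have hFP : F ∈ P := by
      have : Ideal.span (Set.range x) ≤ P := by
        rw [Ideal.span_le]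
        rintro _ ⟨j, rfl⟩
        exact hcon j
      exact this hF
    have hP' : IsAssociatedPrime P (MvPolynomial σ ℂ ⧸ J') := hP
    rw [isAssociatedPrime_iff] at hP'
    obtain ⟨hprime, y, hy⟩ := hP'
    obtain ⟨h, rfl⟩ := Ideal.Quotient.mk_surjective y
    have h5 : F • (Ideal.Quotient.mk J' h) = 0 := by
      rw [hy] at hFP
      simpa [Submodule.mem_colon_singleton] using hFP
    have h6 : F * h ∈ J' := by
      have : Ideal.Quotient.mk J' (F * h) = F • Ideal.Quotient.mk J' h := rfl
      exact Ideal.Quotient.eq_zero_iff_mem.mp (this.trans h5)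
    have h7 : h ∈ J' := hnz h h6
    have h8 : Ideal.Quotient.mk J' h = 0 := Ideal.Quotient.eq_zero_iff_mem.mpr h7
    apply hprime.ne_top
    rw [hy, h8]
    ext z
    simp [Submodule.mem_colon_singleton])
  refine ⟨c, ?_⟩
  intro h hh
  by_contra hne
  have h9 : (Ideal.Quotient.mk J' h) ≠ 0 := fun h0 => hne (Ideal.Quotient.eq_zero_iff_mem.mp h0)
  obtain ⟨P, hP, hle⟩ := exists_le_isAssociatedPrime_of_isNoetherianRing (MvPolynomial σ ℂ)
    (Ideal.Quotient.mk J' h) h9
  apply hc P hP
  apply hle
  rw [Submodule.mem_colon_singleton]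
  have h10 : Ideal.Quotient.mk J' ((∑ j, C (c j) * x j) * h) = 0 :=
    Ideal.Quotient.eq_zero_iff_mem.mpr hh
  have h11 : Ideal.Quotient.mk J' ((∑ j, C (c j) * x j) * h)
      = (∑ j, C (c j) * x j) • Ideal.Quotient.mk J' h := rfl
  rw [h11] at h10
  simpa using h10

theorem thm_CHN (h1 : St_AVO) (h2 : St_HOM) (h3 : St_PRM) : St_CHN := by
  intro σ _ n k x J l
  induction l generalizing J with
  | nil =>
    intro f d _ _ _ _ _ _ hd
    simp at hd
  | cons F l ih =>
    intro f d hk hx hl hJ hRS hf hd hxf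
    obtain ⟨hbot, hsup, hspan, hlist⟩ := h2 σ
    have hF1 : F.IsHomogeneous k := (hl F (by simp)).1
    have hF2 : F ∈ Ideal.span (Set.range x) := (hl F (by simp)).2
    have hPH : ∀ f ∈ F :: l, PH f := fun f hf => ⟨k, by omega, (hl f hf).1⟩
    -- `F` is regular modulo `J' = J + (l)`
    have hRS2 : RS J (l ++ [F]) :=
      h3 σ J (F :: l) (l ++ [F]) hJ hPH hRS (List.perm_append_singleton F l).symm
    rw [CHN_rs_append] at hRS2
    obtain ⟨hRSl, hFnz⟩ := hRS2
    have hsupeq : J ⊔ Ideal.ofList (F :: l) = (J ⊔ Ideal.ofList l) ⊔ Ideal.span {F} := by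
      rw [Ideal.ofList_cons, sup_assoc, sup_comm (Ideal.span {F})]
    have hJ' : HI (J ⊔ Ideal.ofList l) :=
      hsup _ _ hJ (hlist l fun f hf => hPH f (by simp [hf]))
    rw [hsupeq] at hxf ⊢
    obtain ⟨c, hw⟩ := CHN_exists_w h1 n x (J ⊔ Ideal.ofList l) F hF2 hFnz
    obtain ⟨w, hwdef⟩ : ∃ w, w = ∑ j, C (c j) * x j := ⟨_, rfl⟩
    rw [← hwdef] at hw
    have hwhom : w.IsHomogeneous 1 := by
      rw [hwdef]
      refine IsHomogeneous.sum _ _ _ fun j _ => ?_
      have := (isHomogeneous_C σ (c j)).mul (hx j)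
      simpa using this
    obtain ⟨J', hJ'def⟩ : ∃ J', J' = J ⊔ Ideal.ofList l := ⟨_, rfl⟩
    rw [← hJ'def] at hw hxf hJ' hFnz ⊢
    -- `w f = j' + F g₀`
    have hwf : w * f ∈ J' ⊔ Ideal.span {F} := by
      rw [hwdef, Finset.sum_mul]
      refine Ideal.sum_mem _ fun j _ => ?_
      rw [mul_assoc]
      exact Ideal.mul_mem_left _ _ (hxf j)
    obtain ⟨j', hj', y, hy, hsum⟩ := Submodule.mem_sup.mp hwf
    obtain ⟨g₀, rfl⟩ := Ideal.mem_span_singleton'.mp hy
    have hwfhom : (w * f).IsHomogeneous (1 + d) := hwhom.mul hf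
    have hcomp : homogeneousComponent (1 + d) j' + homogeneousComponent (1 + d) (F * g₀)
        = w * f := by
      rw [← map_add, mul_comm F g₀, hsum, homogeneousComponent_eq_self hwfhom]
    have hj'c : homogeneousComponent (1 + d) j' ∈ J' := hJ' j' hj' _
    by_cases hdk : 1 + d < k
    · rw [CHN_comp_mul_lt F g₀ k (1 + d) hF1 hdk, add_zero] at hcomp
      rw [hcomp] at hj'c
      exact Ideal.mem_sup_left (hw f hj'c)
    · obtain ⟨e, he⟩ : ∃ e, 1 + d = k + e := ⟨1 + d - k, by omega⟩
      rw [he] at hcomp hj'c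
      rw [CHN_comp_mul F g₀ k e hF1] at hcomp
      obtain ⟨g, hgdef⟩ : ∃ g, g = homogeneousComponent e g₀ := ⟨_, rfl⟩
      obtain ⟨j₁, hj₁def⟩ : ∃ j₁, j₁ = homogeneousComponent (k + e) j' := ⟨_, rfl⟩
      rw [← hgdef, ← hj₁def] at hcomp
      rw [← hj₁def] at hj'c
      have hghom : g.IsHomogeneous e := by
        rw [hgdef]; exact homogeneousComponent_isHomogeneous e g₀
      -- the sequence `w :: l`
      have hRSw : RS J (w :: l) := by
        refine h3 σ J (l ++ [w]) (w :: l) hJ ?_ ?_ (List.perm_append_singleton w l)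
        · intro f hf
          rw [List.mem_append, List.mem_singleton] at hf
          rcases hf with hf | rfl
          · exact hPH f (by simp [hf])
          · exact ⟨1, le_refl _, hwhom⟩
        · rw [CHN_rs_append, ← hJ'def]
          exact ⟨hRSl, hw⟩
      have hsupw : (J ⊔ Ideal.span {w}) ⊔ Ideal.ofList l = J' ⊔ Ideal.span {w} := by
        rw [hJ'def, sup_assoc, sup_assoc, sup_comm (Ideal.span {w})]
      have hde : e < l.length * (k - 1) := by
        obtain ⟨k', rfl⟩ : ∃ k', k = k' + 1 := ⟨k - 1, by omega⟩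
        simp only [List.length_cons, Nat.add_sub_cancel] at hd ⊢
        rw [Nat.succ_mul] at hd
        omega
      have hg : g ∈ (J ⊔ Ideal.span {w}) ⊔ Ideal.ofList l := by
        refine ih (J ⊔ Ideal.span {w}) g e hk hx (fun F' hF' => hl F' (by simp [hF']))
          (hsup _ _ hJ (hspan w 1 hwhom)) hRSw.2 hghom hde ?_
        intro j
        rw [hsupw]
        obtain ⟨j₂, hj₂, y, hy, hsum2⟩ := Submodule.mem_sup.mp (hxf j)
        obtain ⟨h, rfl⟩ := Ideal.mem_span_singleton'.mp hy
        have hkey : F * (x j * g - w * h) ∈ J' := by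
          have h4 : F * (x j * g - w * h) = w * j₂ - x j * j₁ := by
            have e1 : x j * (w * f) = x j * (j₁ + F * g) := by rw [hcomp]
            have e2 : w * (x j * f) = w * (j₂ + h * F) := by rw [hsum2]
            linear_combination e2 - e1
          rw [h4]
          exact Ideal.sub_mem _ (Ideal.mul_mem_left _ _ hj₂) (Ideal.mul_mem_left _ _ hj'c)
        have h5 := hFnz _ hkey
        have h6 : x j * g = (x j * g - w * h) + h * w := by ring
        rw [h6]
        exact Ideal.add_mem _ (Ideal.mem_sup_left h5)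
          (Ideal.mem_sup_right (Ideal.mem_span_singleton'.mpr ⟨h, rfl⟩))
      rw [hsupw] at hg
      obtain ⟨j₃, hj₃, y, hy, hsum3⟩ := Submodule.mem_sup.mp hg
      obtain ⟨h', rfl⟩ := Ideal.mem_span_singleton'.mp hy
      have hkey : w * (f - F * h') ∈ J' := by
        have h4 : w * (f - F * h') = j₁ + F * j₃ := by
          linear_combination - F * hsum3 - hcomp
        rw [h4]
        exact Ideal.add_mem _ hj'c (Ideal.mul_mem_left _ _ hj₃)
      have h5 := hw _ hkey
      have h6 : f = (f - F * h') + h' * F := by ring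
      rw [h6]
      exact Ideal.add_mem _ (Ideal.mem_sup_left h5)
        (Ideal.mem_sup_right (Ideal.mem_span_singleton'.mpr ⟨h', rfl⟩))

end Pool.Agent.PLZ
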