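import Pool.Agent.PLZ.StB

/-!
# PLZ, module DET: the determinant trick
-/

set_option autoImplicit false

namespace Pool.Agent.PLZ

open Matrix

private lemma DET_mem {A : Type} [CommRing A] {ι : Type} [Fintype ι] [DecidableEq ι]
    (I : Ideal A) (M : Matrix ι ι A) (v : ι → A) (h : ∀ i, (M *ᵥ v) i ∈ I) (j : ι) :
    M.det * v j ∈ I := by
  have h1 : (M.adjugate *ᵥ (M *ᵥ v)) j = M.det * v j := by
    rw [Matrix.mulVec_mulVec, Matrix.adjugate_mul, Matrix.smul_mulVec, Matrix.one_mulVec,
      Pi.smul_apply, smul_eq_mul]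
  rw [← h1]
  simp only [Matrix.mulVec, dotProduct] at h ⊢
  exact Ideal.sum_mem _ fun i _ => I.mul_mem_left _ (h i)

theorem thm_DET : St_DET := by
  intro A B _ _ ev I n r F x κ G π a Y α β hF hG hY hx
  choose b hb0 hb using hG
  obtain ⟨c, hc0, hc⟩ := hY
  let M : Matrix (Fin r ⊕ Unit) (Fin r ⊕ Unit) A :=
    Matrix.fromBlocks
      (Matrix.of fun l m => (if l = m then α else 0) + ∑ i, b l i * a i m)
      (Matrix.of fun l _ => - π l)
      (Matrix.of fun _ m => ∑ i, c i * a i m)
      (Matrix.of fun _ _ => β)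
  let v : Fin r ⊕ Unit → A := Sum.elim G (fun _ => Y)
  have hS : ∀ d : Fin n → A, ∑ i, d i * F i + ∑ m, (∑ i, d i * a i m) * G m ∈ I := by
    intro d
    have : ∑ i, d i * F i + ∑ m, (∑ i, d i * a i m) * G m
        = ∑ i, d i * (F i + ∑ l, a i l * G l) := by
      simp only [mul_add, Finset.sum_add_distrib, Finset.mul_sum, Finset.sum_mul]
      rw [Finset.sum_comm]
      simp only [mul_assoc]
    rw [this]
    exact Ideal.sum_mem _ fun i _ => I.mul_mem_left _ (hF i)
  have hv : ∀ i, (M *ᵥ v) i ∈ I := by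
    rintro (l | u)
    · have h1 : (M *ᵥ v) (Sum.inl l)
          = ∑ i, b l i * F i + ∑ m, (∑ i, b l i * a i m) * G m := by
        rw [← hb l]
        simp only [M, v, Matrix.mulVec, dotProduct, Fintype.sum_sum_type, Matrix.fromBlocks_apply₁₁,
          Matrix.fromBlocks_apply₁₂, Matrix.of_apply, Sum.elim_inl, Sum.elim_inr, add_mul,
          Finset.sum_add_distrib, ite_mul, zero_mul, Finset.sum_ite_eq, Finset.mem_univ, if_true,
          Finset.univ_unique, Finset.sum_singleton]
        ring
      rw [h1]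
      exact hS _
    · have h1 : (M *ᵥ v) (Sum.inr u)
          = ∑ i, c i * F i + ∑ m, (∑ i, c i * a i m) * G m := by
        rw [← hc]
        simp only [M, v, Matrix.mulVec, dotProduct, Fintype.sum_sum_type, Matrix.fromBlocks_apply₂₁,
          Matrix.fromBlocks_apply₂₂, Matrix.of_apply, Sum.elim_inl, Sum.elim_inr,
          Finset.univ_unique, Finset.sum_singleton]
        ring
      rw [h1]
      exact hS _
  have hD : ∀ j, M.det * v j ∈ I := DET_mem I M v hv
  have hDG : ∀ l, M.det * G l ∈ I := fun l => hD (Sum.inl l)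
  have hDY : M.det * Y ∈ I := hD (Sum.inr ())
  have hDF : ∀ i, M.det * F i ∈ I := by
    intro i
    have : M.det * F i = M.det * (F i + ∑ l, a i l * G l) - ∑ l, a i l * (M.det * G l) := by
      rw [mul_add, Finset.mul_sum]
      have : ∀ l, M.det * (a i l * G l) = a i l * (M.det * G l) := fun l => by ring
      simp only [this]
      ring
    rw [this]
    exact I.sub_mem (I.mul_mem_left _ (hF i)) (Ideal.sum_mem _ fun l _ => I.mul_mem_left _ (hDG l))
  refine ⟨M.det, ?_, ?_⟩
  · have h2 : ev.mapMatrix M = Matrix.fromBlocks (ev α • (1 : Matrix (Fin r) (Fin r) B))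
        (Matrix.of fun l _ => - ev (π l)) 0 (Matrix.of fun _ _ => ev β) := by
      ext i j
      rcases i with l | u <;> rcases j with m | w
      · by_cases hlm : l = m
        · subst hlm
          simp [M, map_sum, hb0]
        · simp [M, map_sum, hb0, hlm]
      · simp [M]
      · simp [M, map_sum, hc0]
      · simp [M]
    rw [RingHom.map_det, h2, Matrix.det_fromBlocks_zero₂₁, Matrix.det_smul, Matrix.det_one]
    simp
  · intro i
    obtain ⟨d, hd⟩ := hx i
    have : M.det * (α * x i) = κ i * (M.det * Y) + ∑ j, d j * (M.det * F j) := by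
      have h3 : α * x i = κ i * Y + ∑ j, d j * F j := by rw [← hd]; ring
      rw [h3, mul_add, Finset.mul_sum]
      have : ∀ j, M.det * (d j * F j) = d j * (M.det * F j) := fun j => by ring
      simp only [this]
      ring
    rw [this]
    exact I.add_mem (I.mul_mem_left _ hDY) (Ideal.sum_mem _ fun j _ => I.mul_mem_left _ (hDF j))

end Pool.Agent.PLZ
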