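import Pool.Agent.PLZ.St

/-!
# PLZ (MP_d74254_an): exchange by the Nullstellensatz
-/

set_option autoImplicit false

namespace Pool.Agent.PLZ

open MvPolynomial

/-- a power of a nonzerodivisor modulo `J` is a nonzerodivisor modulo `J` -/
private lemma EXG_pow {R : Type} [CommRing R] {J : Ideal R} {z : R} (hz : NZ J z) (s : ℕ) :
    NZ J (z ^ s) := by
  induction s with
  | zero => intro h hh; simpa using hh
  | succ s ih =>
    intro h hh
    refine hz h (ih _ ?_)
    have : z ^ s * (z * h) = z ^ (s + 1) * h := by ring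
    rw [this]; exact hh

private lemma EXG_ev {σ : Type} (a : σ → ℂ) (f : MvPolynomial σ ℂ) :
    aeval a f = eval a f := rfl

/-- [EXG] Exchange by the Nullstellensatz. -/
theorem thm_EXG : St_EXG := by
  intro σ _ J z w hz hJ hV h hh
  have h1 : z ∈ (J ⊔ Ideal.span {w}).radical := by
    rw [← MvPolynomial.vanishingIdeal_zeroLocus_eq_radical (K := ℂ), mem_vanishingIdeal_iff]
    intro a ha
    rw [mem_zeroLocus_iff] at ha
    have ha0 : a = 0 := by
      refine hV a (fun f hf => ?_) (fun f hf => ?_)
      · rw [← EXG_ev]; exact ha f (Ideal.mem_sup_left hf)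
      · have hf' : f = w := by simpa using hf
        subst hf'
        rw [← EXG_ev]; exact ha f (Ideal.mem_sup_right (Ideal.mem_span_singleton_self f))
    subst ha0
    rw [EXG_ev]; exact hz
  obtain ⟨s, hs⟩ := h1
  obtain ⟨j, hj, g, hg, hjg⟩ := Submodule.mem_sup.1 hs
  obtain ⟨c, rfl⟩ := Ideal.mem_span_singleton'.1 hg
  refine EXG_pow hJ s h ?_
  rw [← hjg]
  have : (j + c * w) * h = h * j + c * (w * h) := by ring
  rw [this]
  exact J.add_mem (J.mul_mem_left _ hj) (J.mul_mem_left _ hh)

end Pool.Agent.PLZ
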