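import Pool.Agent.PLZ.St

/-!
# PLZ, module FIA: Theorem A (helper55)
-/

set_option autoImplicit false

namespace Pool.Agent.PLZ

open MvPolynomial

private lemma RS_left {R : Type} [CommRing R] : ∀ (l l' : List R) (J : Ideal R),
    RS J (l ++ l') → RS J l
  | [], _, _, _ => trivial
  | a :: l, l', J, h => ⟨h.1, RS_left l l' (J ⊔ Ideal.span {a}) h.2⟩

private lemma eval_smul_hom {σ : Type} {p : MvPolynomial σ ℂ} {d : ℕ} (hp : p.IsHomogeneous d)
    (c : ℂ) (a : σ → ℂ) : eval (fun i => c * a i) p = c ^ d * eval a p := by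
  rw [eval_eq, eval_eq, Finset.mul_sum]
  refine Finset.sum_congr rfl fun s hs => ?_
  have hs' : s.degree = d := by
    have := hp (mem_support_iff.1 hs)
    rw [← this, Finsupp.degree_eq_weight_one]
    rfl
  simp only [mul_pow]
  rw [Finset.prod_mul_distrib, Finset.prod_pow_eq_pow_sum]
  have : ∑ i ∈ s.support, s i = d := by
    rw [← hs']
    rfl
  rw [this]
  ring

private lemma eval_zero_hom {σ : Type} {p : MvPolynomial σ ℂ} {d : ℕ} (hp : p.IsHomogeneous d)
    (hd : 1 ≤ d) {a : σ → ℂ} (ha : ∀ i, a i = 0) : eval a p = 0 := by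
  have h0 : a = fun i => (0 : ℂ) * (0 : σ → ℂ) i := by
    funext i
    simp [ha i]
  rw [h0, eval_smul_hom hp, zero_pow (by omega), zero_mul]

private lemma rename_mem {n d : ℕ} {p : MvPolynomial (Fin n) ℂ} (hp : p.IsHomogeneous d)
    (hd : 1 ≤ d) : rename (some : Fin n → Option (Fin n)) p ∈
      Ideal.span (Set.range fun j : Fin n => (X (some j) : MvPolynomial (Option (Fin n)) ℂ)) := by
  have h1 : p ∈ Ideal.span ((X : Fin n → MvPolynomial (Fin n) ℂ) '' Set.univ) := by
    rw [mem_ideal_span_X_image]
    intro s hs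
    by_contra hcon
    push Not at hcon
    have hs0 : s = 0 := by
      ext i
      simpa using hcon i (Set.mem_univ i)
    have := hp (mem_support_iff.1 hs)
    rw [hs0] at this
    simp at this
    omega
  have h2 := Ideal.mem_map_of_mem (rename (some : Fin n → Option (Fin n))).toRingHom h1
  rw [Ideal.map_span] at h2
  refine Ideal.span_mono ?_ h2
  rintro _ ⟨_, ⟨i, -, rfl⟩, rfl⟩
  exact ⟨i, by simp⟩

theorem thm_FIA (h2 : St_HOM) (h3 : St_PRM) (h6 : St_SOP) (h7 : St_VAR) (h8 : St_CHN)
    (h9 : St_IDN) (h10 : St_SRD) : St_FIA := by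
  intro n m u κ hn hm hu hκ hP
  by_contra hcon
  push Not at hcon
  obtain ⟨γ, hγ0, hγ⟩ := h10 n m u (by omega) hu
  set t : MvPolynomial (Option (Fin n)) ℂ := X none with ht
  set x : Fin n → MvPolynomial (Option (Fin n)) ℂ := fun j => X (some j) with hx
  set F : Fin n → MvPolynomial (Option (Fin n)) ℂ := fun j =>
    rename some (pderiv j u) - t ^ (m - 2) * x j with hF
  set L : MvPolynomial (Option (Fin n)) ℂ :=
    t ^ (2 * (m - 2)) - C γ * (∑ j, x j ^ 2) ^ (m - 2) with hL
  have htH : t.IsHomogeneous 1 := isHomogeneous_X ℂ none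
  have hxH : ∀ j, (x j).IsHomogeneous 1 := fun j => isHomogeneous_X ℂ (some j)
  have huH : ∀ j, (pderiv j u).IsHomogeneous (m - 1) := fun j => hu.pderiv
  have hFH : ∀ j, (F j).IsHomogeneous (m - 1) := by
    intro j
    have h1 : (rename some (pderiv j u) : MvPolynomial (Option (Fin n)) ℂ).IsHomogeneous (m - 1) :=
      (huH j).rename_isHomogeneous
    have h2' : (t ^ (m - 2) * x j).IsHomogeneous (m - 1) := by
      have := (htH.pow (m - 2)).mul (hxH j)
      have he : 1 * (m - 2) + 1 = m - 1 := by omega
      rwa [he] at this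
    exact h1.sub h2'
  have hLH : L.IsHomogeneous (2 * (m - 2)) := by
    have h1 : (t ^ (2 * (m - 2))).IsHomogeneous (2 * (m - 2)) := by
      have := htH.pow (2 * (m - 2))
      rwa [one_mul] at this
    have h2' : (∑ j, x j ^ 2).IsHomogeneous 2 :=
      IsHomogeneous.sum _ _ _ fun j _ => (hxH j).pow 2
    have h3' : (C γ * (∑ j, x j ^ 2) ^ (m - 2)).IsHomogeneous (2 * (m - 2)) := by
      have := (isHomogeneous_C (Option (Fin n)) γ).mul (h2'.pow (m - 2))
      rwa [zero_add] at this
    exact h1.sub h3'
  -- the common zeros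
  have hzero : ∀ a : Option (Fin n) → ℂ, (∀ j, eval a (F j) = 0) → eval a L = 0 → a = 0 := by
    intro a haF haL
    have hF' : ∀ j, eval (fun i => a (some i)) (pderiv j u) = a none ^ (m - 2) * a (some j) := by
      intro j
      have := haF j
      simp only [hF, hx, ht, map_sub, map_mul, map_pow, eval_X, eval_rename] at this
      have h' := sub_eq_zero.1 this
      exact h'
    have hL' : a none ^ (2 * (m - 2)) = γ * (∑ j, a (some j) ^ 2) ^ (m - 2) := by
      simp only [hL, hx, ht, map_sub, map_mul, map_pow, map_sum, eval_X, eval_C] at haL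
      exact sub_eq_zero.1 haL
    by_cases hq : ∑ j, a (some j) ^ 2 = 0
    · rw [hq, zero_pow (by omega), mul_zero] at hL'
      have ha0 : a none = 0 := pow_eq_zero_iff (by omega) |>.1 hL'
      have hb : (fun i => a (some i)) = 0 := by
        by_contra hne
        obtain ⟨j, hj⟩ := hcon (fun i => a (some i)) hne hq
        apply hj
        rw [hF' j, ha0, zero_pow (by omega), zero_mul]
      funext i
      cases i with
      | none => exact ha0
      | some j => exact congrFun hb j
    · exfalso
      obtain ⟨r, hr⟩ := IsAlgClosed.exists_pow_nat_eq (∑ j, a (some j) ^ 2)⁻¹ (n := 2) (by norm_num)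
      refine hγ (fun i => r * a (some i)) ((r * a none) ^ (m - 2)) (fun i => ?_) ?_ ?_
      · rw [eval_smul_hom (huH i), hF' i]
        have he : m - 1 = (m - 2) + 1 := by omega
        rw [he, pow_succ, mul_pow]
        ring
      · simp only [mul_pow]
        rw [← Finset.mul_sum, hr, inv_mul_cancel₀ hq]
      · have : ((r * a none) ^ (m - 2)) ^ 2 = (r ^ 2) ^ (m - 2) * a none ^ (2 * (m - 2)) := by
          ring
        rw [this, hL', hr, inv_pow]
        field_simp
  -- regularity
  set lF : List (MvPolynomial (Option (Fin n)) ℂ) := List.ofFn F with hlF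
  have hlFlen : lF.length = n := by simp [hlF]
  have hPHF : ∀ f ∈ lF, PH f := by
    intro f hf
    rw [hlF, List.mem_ofFn] at hf
    obtain ⟨j, rfl⟩ := hf
    exact ⟨m - 1, by omega, hFH j⟩
  have hreg : RS (⊥ : Ideal (MvPolynomial (Option (Fin n)) ℂ)) lF := by
    set lv : List (Option (Fin n)) := none :: (List.ofFn (some : Fin n → Option (Fin n))) with hlv
    have hnd : lv.Nodup := by
      rw [hlv, List.nodup_cons]
      constructor
      · rw [List.mem_ofFn]
        rintro ⟨i, hi⟩
        cases hi
      · exact List.nodup_ofFn.2 (Option.some_injective _)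
    have hall : ∀ i, i ∈ lv := by
      intro i
      cases i with
      | none => simp [hlv]
      | some j =>
        rw [hlv]
        refine List.mem_cons_of_mem _ ?_
        rw [List.mem_ofFn]
        exact ⟨j, rfl⟩
    have hlen : (lv.map X : List (MvPolynomial (Option (Fin n)) ℂ)).length = (lF ++ [L]).length := by
      simp [hlv, hlF]
    have hPHX : ∀ f ∈ (lv.map X : List (MvPolynomial (Option (Fin n)) ℂ)), PH f := by
      intro f hf
      obtain ⟨i, -, rfl⟩ := List.mem_map.1 hf
      exact ⟨1, le_refl 1, isHomogeneous_X ℂ i⟩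
    have hPHy : ∀ f ∈ lF ++ [L], PH f := by
      intro f hf
      rcases List.mem_append.1 hf with hf | hf
      · exact hPHF f hf
      · rw [List.mem_singleton] at hf
        subst hf
        exact ⟨2 * (m - 2), by omega, hLH⟩
    have hVZX : VZ (⊥ : Ideal (MvPolynomial (Option (Fin n)) ℂ)) (lv.map X) := by
      intro a _ ha
      funext i
      have := ha (X i) (List.mem_map.2 ⟨i, hall i, rfl⟩)
      simpa using this
    have hVZy : VZ (⊥ : Ideal (MvPolynomial (Option (Fin n)) ℂ)) (lF ++ [L]) := by
      intro a _ ha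
      refine hzero a (fun j => ha (F j) ?_) (ha L ?_)
      · refine List.mem_append_left _ ?_
        rw [hlF, List.mem_ofFn]
        exact ⟨j, rfl⟩
      · exact List.mem_append_right _ (List.mem_singleton.2 rfl)
    have := h6 (Option (Fin n)) ⊥ (lv.map X) (lF ++ [L]) hlen (h2 _).1 hPHX hPHy
      (h7 _ lv hnd) hVZX hVZy
    exact RS_left lF [L] ⊥ this
  -- the element of degree `4 (m - 2)`
  set K : MvPolynomial (Option (Fin n)) ℂ := rename some κ with hK
  set τ : MvPolynomial (Option (Fin n)) ℂ := t ^ (m - 2) with hτ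
  set f : MvPolynomial (Option (Fin n)) ℂ := τ ^ 2 * (K - τ) *
    (C (2 * ((m : ℂ) - 1)) * K - C (3 * (m : ℂ) - 4) * τ) with hf
  have hτH : τ.IsHomogeneous (m - 2) := by
    have := htH.pow (m - 2)
    rwa [one_mul] at this
  have hKH : K.IsHomogeneous (m - 2) := hκ.rename_isHomogeneous
  have hfH : f.IsHomogeneous (4 * (m - 2)) := by
    have h1 : (C (2 * ((m : ℂ) - 1)) * K).IsHomogeneous (m - 2) := by
      have := (isHomogeneous_C (Option (Fin n)) (2 * ((m : ℂ) - 1))).mul hKH
      rwa [zero_add] at this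
    have h2' : (C (3 * (m : ℂ) - 4) * τ).IsHomogeneous (m - 2) := by
      have := (isHomogeneous_C (Option (Fin n)) (3 * (m : ℂ) - 4)).mul hτH
      rwa [zero_add] at this
    have := ((hτH.pow 2).mul (hKH.sub hτH)).mul (h1.sub h2')
    have he : (m - 2) * 2 + (m - 2) + (m - 2) = 4 * (m - 2) := by ring
    rwa [he] at this
  have hmem : f ∈ (⊥ : Ideal (MvPolynomial (Option (Fin n)) ℂ)) ⊔ Ideal.ofList lF := by
    refine h8 (Option (Fin n)) n (m - 1) x ⊥ lF f (4 * (m - 2)) (by omega) hxH ?_ (h2 _).1 hreg
      hfH ?_ ?_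
    · intro G hG
      rw [hlF, List.mem_ofFn] at hG
      obtain ⟨j, rfl⟩ := hG
      refine ⟨hFH j, ?_⟩
      refine Ideal.sub_mem _ (rename_mem (huH j) (by omega)) (Ideal.mul_mem_left _ _ ?_)
      exact Ideal.subset_span ⟨j, rfl⟩
    · rw [hlFlen]
      have he : m - 1 - 1 = m - 2 := by omega
      rw [he]
      have : 0 < m - 2 := by omega
      nlinarith
    · intro j
      rw [bot_sup_eq]
      set I : Ideal (MvPolynomial (Option (Fin n)) ℂ) := Ideal.ofList lF with hI
      have haev : ∀ p : MvPolynomial (Fin n) ℂ,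
          aeval (fun i => Ideal.Quotient.mk I (x i)) p = Ideal.Quotient.mk I (rename some p) := by
        intro p
        have : (aeval (fun i => Ideal.Quotient.mk I (x i)) :
            MvPolynomial (Fin n) ℂ →ₐ[ℂ] _) =
            (Ideal.Quotient.mkₐ ℂ I).comp (rename some) := by
          apply MvPolynomial.algHom_ext
          intro i
          simp [hx]
        rw [this]
        rfl
      have hFI : ∀ i, F i ∈ I := by
        intro i
        rw [hI]
        refine Ideal.subset_span ?_
        change F i ∈ lF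
        rw [hlF, List.mem_ofFn]
        exact ⟨i, rfl⟩
      have := h9 n m u κ hm hu hP (MvPolynomial (Option (Fin n)) ℂ ⧸ I)
        (fun i => Ideal.Quotient.mk I (x i)) (Ideal.Quotient.mk I τ) (fun i => by
          rw [haev, ← map_mul]
          rw [Ideal.Quotient.eq]
          exact hFI i) j
      rw [haev, ← hK] at this
      have halg : ∀ c : ℂ, algebraMap ℂ (MvPolynomial (Option (Fin n)) ℂ ⧸ I) c =
          Ideal.Quotient.mk I (C c) := fun c => rfl
      rw [halg, halg, ← map_pow, ← map_sub, ← map_mul, ← map_mul, ← map_mul, ← map_sub,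
        ← map_mul, ← map_mul, Ideal.Quotient.eq_zero_iff_mem] at this
      exact this
  -- the value at `x = 0`, `t = 1`
  rw [bot_sup_eq] at hmem
  set a0 : Option (Fin n) → ℂ := fun i => if i = none then 1 else 0 with ha0
  have hle : Ideal.ofList lF ≤ RingHom.ker (eval a0) := by
    rw [Ideal.ofList, Ideal.span_le]
    intro G hG
    change G ∈ lF at hG
    rw [hlF, List.mem_ofFn] at hG
    obtain ⟨j, rfl⟩ := hG
    change eval a0 (F j) = 0
    simp only [hF, hx, ht, map_sub, map_mul, map_pow, eval_X, eval_rename]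
    rw [eval_zero_hom (huH j) (by omega) (fun i => by simp [ha0])]
    simp [ha0]
  have hev : eval a0 f = 0 := hle hmem
  have hKe : eval a0 K = 0 := by
    rw [hK, eval_rename]
    exact eval_zero_hom hκ (by omega) (fun i => by simp [ha0])
  have hτe : eval a0 τ = 1 := by
    simp [hτ, ht, ha0]
  rw [hf] at hev
  simp only [map_sub, map_mul, map_pow, eval_C, hKe, hτe] at hev
  have h34 : (3 * (m : ℂ) - 4) = 0 := by
    linear_combination hev
  have h34' : (3 * (m : ℤ) - 4) = 0 := by exact_mod_cast h34
  omega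

end Pool.Agent.PLZ
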