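import Pool.Agent.PLZ.St

/-!
# PLZ, module FIB: Theorem B (MP_d74254_an)
-/

set_option autoImplicit false

namespace Pool.Agent.PLZ

open MvPolynomial

private theorem FIB_append {R : Type} [CommRing R] (l l' : List R) : ∀ J : Ideal R,
    RS J (l ++ l') → RS (J ⊔ Ideal.ofList l) l' := by
  induction l with
  | nil =>
    intro J h
    rw [Ideal.ofList_nil, sup_bot_eq]
    exact h
  | cons a l ih =>
    intro J h
    rw [Ideal.ofList_cons, ← sup_assoc]
    exact ih _ h.2

private theorem FIB_comm {n : ℕ} (i j : Fin n) (p : MvPolynomial (Fin n) ℂ) :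
    pderiv i (pderiv j p) = pderiv j (pderiv i p) := by
  have h : (⁅(pderiv i : Derivation ℂ (MvPolynomial (Fin n) ℂ) (MvPolynomial (Fin n) ℂ)),
      (pderiv j : Derivation ℂ (MvPolynomial (Fin n) ℂ) (MvPolynomial (Fin n) ℂ))⁆ :
      Derivation ℂ (MvPolynomial (Fin n) ℂ) (MvPolynomial (Fin n) ℂ)) = 0 := by
    apply MvPolynomial.derivation_ext
    intro k
    rw [Derivation.commutator_apply]
    simp only [pderiv_X, Derivation.coe_zero, Pi.zero_apply]
    by_cases h1 : j = k
    · by_cases h2 : i = k <;> simp [h1, h2]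
    · by_cases h2 : i = k <;> simp [h1, h2]
  have h2 := congrArg (fun D => D p) h
  simp only [Derivation.commutator_apply, Derivation.coe_zero, Pi.zero_apply] at h2
  exact sub_eq_zero.1 h2

/-- elements of an ideal generated by forms of degree `k` have no terms of degree `< k` -/
private theorem FIB_low {σ : Type} {k : ℕ} {l : List (MvPolynomial σ ℂ)}
    (hl : ∀ f ∈ l, f.IsHomogeneous k) {f : MvPolynomial σ ℂ} (hf : f ∈ Ideal.ofList l) :
    ∀ s : σ →₀ ℕ, s.degree < k → coeff s f = 0 := by
  classical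
  have h : f ∈ Ideal.span {r | r ∈ l} := hf
  refine Submodule.span_induction (p := fun f _ => ∀ s : σ →₀ ℕ, s.degree < k → coeff s f = 0)
    ?_ ?_ ?_ ?_ h
  · intro x hx s hs
    exact (hl x hx).coeff_eq_zero (by omega)
  · intro s _
    simp
  · intro x y _ _ hx hy s hs
    rw [coeff_add, hx s hs, hy s hs, add_zero]
  · intro a x _ hx s hs
    rw [smul_eq_mul, coeff_mul]
    refine Finset.sum_eq_zero fun p hp => ?_
    rw [Finset.HasAntidiagonal.mem_antidiagonal] at hp
    rw [hx p.2 ?_, mul_zero]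
    have h1 : p.1.degree + p.2.degree = s.degree := by
      rw [← hp, map_add]
    omega


/-- a polynomial of degree `k + 1` all whose derivatives are zero is zero -/
private theorem FIB_zero {n k : ℕ} {f : MvPolynomial (Fin n) ℂ} (hf : f.IsHomogeneous (k + 1))
    (h : ∀ i, pderiv i f = 0) : f = 0 := by
  have h1 := hf.sum_X_mul_pderiv
  simp only [h, mul_zero, Finset.sum_const_zero] at h1
  have h2 : ((k + 1 : ℕ) : ℂ) • f = 0 := by
    rw [Nat.cast_smul_eq_nsmul]
    exact h1.symm
  rcases smul_eq_zero.1 h2 with h3 | h3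
  · exfalso
    have : (k + 1 : ℕ) ≠ 0 := by omega
    exact this (by exact_mod_cast h3)
  · exact h3

/-- the main step: `u_ii - u_jj + 2 s u_ij = 0` for `s ^ 2 = - 1` -/
private theorem FIB_step (h6 : St_SOP) (h7 : St_VAR) {n k : ℕ}
    {u κ : MvPolynomial (Fin n) ℂ} (hu : u.IsHomogeneous (k + 3)) (hP : Pe (k + 3) u κ)
    (hV : ∀ z : Fin n → ℂ, (∀ i, eval z (pderiv i u) = 0) → z = 0)
    {i j : Fin n} (hij : i ≠ j) {s : ℂ} (hs : s ^ 2 = -1) :
    pderiv i (pderiv i u) + 2 * C s * pderiv i (pderiv j u) - pderiv j (pderiv j u) = 0 := by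
  classical
  set w : MvPolynomial (Fin n) ℂ :=
    pderiv i (pderiv i u) + 2 * C s * pderiv i (pderiv j u) - pderiv j (pderiv j u) with hw
  have hu1 : ∀ l, (pderiv l u).IsHomogeneous (k + 2) := fun l => by simpa using hu.pderiv (i := l)
  have hu2 : ∀ l l', (pderiv l (pderiv l' u)).IsHomogeneous (k + 1) := fun l l' => by
    simpa using (hu1 l').pderiv (i := l)
  have hwh : w.IsHomogeneous (k + 1) := by
    rw [hw]
    refine IsHomogeneous.sub (IsHomogeneous.add (hu2 i i) ?_) (hu2 j j)
    have h : (2 * C s : MvPolynomial (Fin n) ℂ) = C (2 * s) := by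
      rw [C_mul]; rfl
    rw [h]
    exact (hu2 i j).C_mul (2 * s)
  set L : List (Fin n) := (List.finRange n).filter (fun l => l ≠ i ∧ l ≠ j) with hL
  have hLm : ∀ l, l ∈ L ↔ (l ≠ i ∧ l ≠ j) := by
    intro l
    rw [hL, List.mem_filter]
    simp
  set ys : List (MvPolynomial (Fin n) ℂ) :=
    (pderiv i u + C s * pderiv j u) :: L.map (fun l => pderiv l u) with hys
  set zs : List (MvPolynomial (Fin n) ℂ) := (i :: (L ++ [j])).map X with hzs
  have hysh : ∀ f ∈ ys, f.IsHomogeneous (k + 2) := by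
    intro f hf
    rw [hys, List.mem_cons, List.mem_map] at hf
    rcases hf with rfl | ⟨l, -, rfl⟩
    · exact (hu1 i).add ((hu1 j).C_mul s)
    · exact hu1 l
  have hR : RS (⊥ : Ideal (MvPolynomial (Fin n) ℂ)) (ys ++ [pderiv j u]) := by
    refine h6 (Fin n) ⊥ zs (ys ++ [pderiv j u]) ?_ ?_ ?_ ?_ ?_ ?_ ?_
    · rw [hzs, hys]
      simp
    · intro h hh d
      rw [Ideal.mem_bot] at hh
      rw [hh, map_zero]
      exact Ideal.zero_mem _
    · intro f hf
      rw [hzs, List.mem_map] at hf
      obtain ⟨l, -, rfl⟩ := hf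
      exact ⟨1, le_rfl, isHomogeneous_X ℂ l⟩
    · intro f hf
      rw [List.mem_append, List.mem_singleton] at hf
      rcases hf with hf | rfl
      · exact ⟨k + 2, by omega, hysh f hf⟩
      · exact ⟨k + 2, by omega, hu1 j⟩
    · rw [hzs]
      refine h7 (Fin n) _ ?_
      rw [List.nodup_cons]
      refine ⟨?_, ?_⟩
      · rw [List.mem_append, List.mem_singleton, hLm]
        rintro (h | h)
        · exact h.1 rfl
        · exact hij h
      · refine List.Nodup.append ((List.nodup_finRange n).filter _) (List.nodup_singleton j) ?_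
        intro l hl hl'
        rw [List.mem_singleton] at hl'
        rw [hLm] at hl
        exact hl.2 hl'
    · intro a _ ha
      funext l
      have h := ha (X l) (by
        rw [hzs, List.mem_map]
        refine ⟨l, ?_, rfl⟩
        rw [List.mem_cons, List.mem_append, List.mem_singleton, hLm]
        by_cases h1 : l = i
        · exact Or.inl h1
        · by_cases h2 : l = j
          · exact Or.inr (Or.inr h2)
          · exact Or.inr (Or.inl ⟨h1, h2⟩))
      rw [eval_X] at h
      exact h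
    · intro a _ ha
      refine hV a fun l => ?_
      have hj : eval a (pderiv j u) = 0 := ha _ (by simp)
      by_cases h2 : l = j
      · rw [h2]; exact hj
      · by_cases h1 : l = i
        · have h := ha (pderiv i u + C s * pderiv j u) (by simp [hys])
          rw [map_add, map_mul, hj, mul_zero, add_zero] at h
          rw [h1]; exact h
        · refine ha _ ?_
          rw [List.mem_append]
          left
          rw [hys, List.mem_cons, List.mem_map]
          exact Or.inr ⟨l, (hLm l).2 ⟨h1, h2⟩, rfl⟩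
  have hN : NZ ((⊥ : Ideal (MvPolynomial (Fin n) ℂ)) ⊔ Ideal.ofList ys) (pderiv j u) :=
    (FIB_append ys [pderiv j u] ⊥ hR).1
  rw [bot_sup_eq] at hN
  -- modulo the ideal
  have hmem : ∀ f ∈ ys, f ∈ Ideal.ofList ys := fun f hf => Ideal.subset_span hf
  set J : Ideal (MvPolynomial (Fin n) ℂ) := Ideal.ofList ys with hJ
  set φ := Ideal.Quotient.mk J with hφ
  have hφl : ∀ l, l ≠ i → l ≠ j → φ (pderiv l u) = 0 := by
    intro l h1 h2
    rw [hφ, Ideal.Quotient.eq_zero_iff_mem]
    refine hmem _ ?_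
    rw [hys, List.mem_cons, List.mem_map]
    exact Or.inr ⟨l, (hLm l).2 ⟨h1, h2⟩, rfl⟩
  have hφi : φ (pderiv i u) = - (φ (C s) * φ (pderiv j u)) := by
    have h : φ (pderiv i u + C s * pderiv j u) = 0 := by
      rw [hφ, Ideal.Quotient.eq_zero_iff_mem]
      exact hmem _ (by simp [hys])
    rw [map_add, map_mul] at h
    exact eq_neg_of_add_eq_zero_left h
  have hss : φ (C s) ^ 2 = -1 := by
    rw [← map_pow, ← C_pow, hs, C_neg, C_1, map_neg, map_one]
  have hG : φ (Gr u) = 0 := by
    rw [Gr, map_sum, Fintype.sum_eq_add i j hij]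
    · rw [map_pow, map_pow, hφi]
      linear_combination (φ (pderiv j u)) ^ 2 * hss
    · rintro l ⟨h1, h2⟩
      rw [map_pow, hφl l h1 h2]
      ring
  have hGd : ∀ l, φ (pderiv l (Gr u)) = 2 * (φ (pderiv i u) * φ (pderiv l (pderiv i u)) +
      φ (pderiv j u) * φ (pderiv l (pderiv j u))) := by
    intro l
    rw [Gr, map_sum, map_sum, Fintype.sum_eq_add i j hij]
    · rw [pow_two, pow_two, pderiv_mul, pderiv_mul]
      simp only [map_add, map_mul]
      ring
    · rintro l' ⟨h1, h2⟩
      rw [pow_two, pderiv_mul, map_add, map_mul, map_mul, hφl l' h1 h2]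
      ring
  have hE : φ (pderiv i u) * φ (pderiv i (Gr u)) + φ (pderiv j u) * φ (pderiv j (Gr u)) = 0 := by
    have h := congrArg φ hP
    rw [map_mul, hG, mul_zero, map_sum, Fintype.sum_eq_add i j hij] at h
    · rw [map_mul, map_mul] at h
      exact h
    · rintro l ⟨h1, h2⟩
      rw [map_mul, hφl l h1 h2, zero_mul]
  rw [hGd, hGd, hφi, FIB_comm j i u] at hE
  have hF : φ (C (2 : ℂ) * (pderiv j u * (pderiv j u * w))) = 0 := by
    rw [hw]
    simp only [map_add, map_sub, map_mul, map_ofNat]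
    linear_combination (-1 : _) * hE + 2 * (φ (pderiv j u)) ^ 2 * φ (pderiv i (pderiv i u)) * hss
  rw [hφ, Ideal.Quotient.eq_zero_iff_mem] at hF
  have hF2 : pderiv j u * (pderiv j u * w) ∈ J := by
    have h := J.mul_mem_left (C ((2 : ℂ)⁻¹)) hF
    rw [← mul_assoc, ← C_mul, inv_mul_cancel₀ (two_ne_zero), C_1, one_mul] at h
    exact h
  have hF3 : w ∈ J := hN _ (hN _ hF2)
  have hlow := FIB_low hysh hF3
  ext t
  rw [coeff_zero]
  by_cases ht : t.degree = k + 1
  · exact hlow t (by omega)
  · exact hwh.coeff_eq_zero ht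

theorem thm_FIB (h3 : St_PRM) (h6 : St_SOP) (h7 : St_VAR) : St_FIB := by
  intro n m u κ hn hm hu hκ hP
  obtain ⟨k, rfl⟩ : ∃ k, m = k + 3 := ⟨m - 3, by omega⟩
  by_contra hcon
  have hV : ∀ z : Fin n → ℂ, (∀ i, eval z (pderiv i u) = 0) → z = 0 := by
    intro z hz
    by_contra h0
    exact hcon ⟨z, h0, hz⟩
  have hI : Complex.I ^ 2 = -1 := Complex.I_sq
  have hI' : (-Complex.I) ^ 2 = -1 := by rw [neg_sq, Complex.I_sq]
  have hu1 : ∀ l, (pderiv l u).IsHomogeneous (k + 2) := fun l => by simpa using hu.pderiv (i := l)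
  have hu2 : ∀ l l', (pderiv l (pderiv l' u)).IsHomogeneous (k + 1) := fun l l' => by
    simpa using (hu1 l').pderiv (i := l)
  have hd : ∀ i j, i ≠ j → pderiv i (pderiv i u) = pderiv j (pderiv j u) := by
    intro i j hij
    have h1 := FIB_step h6 h7 hu hP hV hij hI
    have h2 := FIB_step h6 h7 hu hP hV hij hI'
    rw [C_neg] at h2
    have h3 : (2 : MvPolynomial (Fin n) ℂ) * (pderiv i (pderiv i u) - pderiv j (pderiv j u)) = 0 := by
      linear_combination h1 + h2
    have h4 := (mul_eq_zero.1 h3).resolve_left two_ne_zero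
    exact sub_eq_zero.1 h4
  have hm : ∀ i j, i ≠ j → pderiv i (pderiv j u) = 0 := by
    intro i j hij
    have h1 := FIB_step h6 h7 hu hP hV hij hI
    have h2 := hd i j hij
    have h3 : (2 * C Complex.I) * pderiv i (pderiv j u) = 0 := by
      linear_combination h1 - h2
    refine (mul_eq_zero.1 h3).resolve_left ?_
    refine mul_ne_zero two_ne_zero ?_
    rw [Ne, C_eq_zero]
    exact Complex.I_ne_zero
  have hex : ∀ l : Fin n, ∃ l' : Fin n, l' ≠ l := by
    intro l
    have : Nontrivial (Fin n) := Fin.nontrivial_iff_two_le.2 hn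
    exact exists_ne l
  have hw : ∀ i, pderiv i (pderiv i u) = 0 := by
    intro i
    refine FIB_zero (hu2 i i) fun l => ?_
    by_cases h : l = i
    · obtain ⟨l', hl'⟩ := hex l
      rw [hd i l' (by rw [← h]; exact hl'.symm), FIB_comm l l', hm l l' hl'.symm, map_zero]
    · rw [FIB_comm l i, hm l i h, map_zero]
  have hz : ∀ i, pderiv i u = 0 := by
    intro i
    refine FIB_zero (k := k + 1) (hu1 i) fun l => ?_
    by_cases h : l = i
    · rw [h]; exact hw i
    · exact hm l i h
  have h0 : (fun _ : Fin n => (1 : ℂ)) = 0 := hV _ fun i => by rw [hz i, map_zero]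
  have h1 := congrFun h0 ⟨0, by omega⟩
  simp at h1

end Pool.Agent.PLZ
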