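import Pool.Agent.PLZ.StB

/-!
# PLZ, module FIR: Theorem A with linear conditions (helper28, after module FIA by helper55)
-/

set_option autoImplicit false

namespace Pool.Agent.PLZ

open MvPolynomial

private lemma FIR_RS_left {R : Type} [CommRing R] : ∀ (l l' : List R) (J : Ideal R),
    RS J (l ++ l') → RS J l
  | [], _, _, _ => trivial
  | a :: l, l', J, h => ⟨h.1, FIR_RS_left l l' (J ⊔ Ideal.span {a}) h.2⟩

private lemma FIR_eval_smul_hom {σ : Type} {p : MvPolynomial σ ℂ} {d : ℕ}
    (hp : p.IsHomogeneous d) (c : ℂ) (a : σ → ℂ) :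
    eval (fun i => c * a i) p = c ^ d * eval a p := by
  rw [eval_eq, eval_eq, Finset.mul_sum]
  refine Finset.sum_congr rfl fun s hs => ?_
  have hs' : s.degree = d := by
    have := hp (mem_support_iff.1 hs)
    rw [← this, Finsupp.degree_eq_weight_one]
    rfl
  simp only [mul_pow]
  rw [Finset.prod_mul_distrib, Finset.prod_pow_eq_pow_sum]
  have : ∑ i ∈ s.support, s i = d := by
    rw [← hs']
    rfl
  rw [this]
  ring

private lemma FIR_eval_zero_hom {σ : Type} {p : MvPolynomial σ ℂ} {d : ℕ}
    (hp : p.IsHomogeneous d) (hd : 1 ≤ d) {a : σ → ℂ} (ha : ∀ i, a i = 0) : eval a p = 0 := by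
  have h0 : a = fun i => (0 : ℂ) * (0 : σ → ℂ) i := by
    funext i
    simp [ha i]
  rw [h0, FIR_eval_smul_hom hp, zero_pow (by omega), zero_mul]

private lemma FIR_rename_mem {n d : ℕ} {p : MvPolynomial (Fin n) ℂ} (hp : p.IsHomogeneous d)
    (hd : 1 ≤ d) : rename (some : Fin n → Option (Fin n)) p ∈
      Ideal.span (Set.range fun j : Fin n => (X (some j) : MvPolynomial (Option (Fin n)) ℂ)) := by
  have h1 : p ∈ Ideal.span ((X : Fin n → MvPolynomial (Fin n) ℂ) '' Set.univ) := by
    rw [mem_ideal_span_X_image]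
    intro s hs
    by_contra hcon
    push Not at hcon
    have hs0 : s = 0 := by
      ext i
      simpa using hcon i (Set.mem_univ i)
    have := hp (mem_support_iff.1 hs)
    rw [hs0] at this
    simp at this
    omega
  have h2 := Ideal.mem_map_of_mem (rename (some : Fin n → Option (Fin n))).toRingHom h1
  rw [Ideal.map_span] at h2
  refine Ideal.span_mono ?_ h2
  rintro _ ⟨_, ⟨i, -, rfl⟩, rfl⟩
  exact ⟨i, by simp⟩

/-- the map `x = 0` to polynomials in `t` -/
private noncomputable def FIR_ev (n : ℕ) : MvPolynomial (Option (Fin n)) ℂ →+* Polynomial ℂ :=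
  (aeval (fun i : Option (Fin n) => if i = none then (Polynomial.X : Polynomial ℂ) else 0) :
    MvPolynomial (Option (Fin n)) ℂ →ₐ[ℂ] Polynomial ℂ).toRingHom

private lemma FIR_ev_none (n : ℕ) : FIR_ev n (X none) = Polynomial.X := by
  change aeval _ (X none) = _
  rw [aeval_X, if_pos rfl]

private lemma FIR_ev_some (n : ℕ) (j : Fin n) : FIR_ev n (X (some j)) = 0 := by
  change aeval _ (X (some j)) = _
  rw [aeval_X, if_neg (by simp)]

private lemma FIR_ev_C (n : ℕ) (c : ℂ) : FIR_ev n (C c) = Polynomial.C c := by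
  change aeval _ (C c) = _
  rw [aeval_C]
  rfl

private lemma FIR_ev_hom (n : ℕ) {p : MvPolynomial (Option (Fin n)) ℂ} {d : ℕ}
    (hp : p.IsHomogeneous d) : FIR_ev n p =
      Polynomial.C (eval (fun i : Option (Fin n) => if i = none then (1 : ℂ) else 0) p) *
        Polynomial.X ^ d := by
  change aeval _ p = _
  rw [aeval_def, eval₂_eq, eval_eq, map_sum, Finset.sum_mul]
  refine Finset.sum_congr rfl fun s hs => ?_
  have hs' : s.degree = d := by
    have := hp (mem_support_iff.1 hs)
    rw [← this, Finsupp.degree_eq_weight_one]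
    rfl
  have h1 : ∀ i : Option (Fin n), (if i = none then (Polynomial.X : Polynomial ℂ) else 0) =
      Polynomial.C (if i = none then (1 : ℂ) else 0) * Polynomial.X := by
    intro i
    split_ifs <;> simp
  have h2 : ∏ i ∈ s.support, (if i = none then (Polynomial.X : Polynomial ℂ) else 0) ^ s i =
      Polynomial.C (∏ i ∈ s.support, (if i = none then (1 : ℂ) else 0) ^ s i) *
        Polynomial.X ^ d := by
    simp only [h1, mul_pow]
    rw [Finset.prod_mul_distrib, Finset.prod_pow_eq_pow_sum]
    have : ∑ i ∈ s.support, s i = d := by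
      rw [← hs']
      rfl
    rw [this, map_prod]
    simp only [map_pow]
  rw [h2, map_mul, mul_assoc]
  rfl

private lemma FIR_coeff (n : ℕ) (p : MvPolynomial (Option (Fin n)) ℂ) (d : ℕ) :
    (FIR_ev n p).coeff d =
      eval (fun i : Option (Fin n) => if i = none then (1 : ℂ) else 0)
        (homogeneousComponent d p) := by
  have h1 : FIR_ev n p = ∑ e ∈ Finset.range (p.totalDegree + 1),
      Polynomial.C (eval (fun i : Option (Fin n) => if i = none then (1 : ℂ) else 0)
        (homogeneousComponent e p)) * Polynomial.X ^ e := by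
    conv_lhs => rw [← sum_homogeneousComponent p]
    rw [map_sum]
    exact Finset.sum_congr rfl fun e _ => FIR_ev_hom n (homogeneousComponent_isHomogeneous e p)
  rw [h1, Polynomial.finsetSum_coeff]
  simp only [Polynomial.coeff_C_mul_X_pow]
  rw [Finset.sum_ite_eq]
  split_ifs with h
  · rfl
  · rw [Finset.mem_range, not_lt] at h
    rw [homogeneousComponent_eq_zero _ _ (by omega), map_zero]

private lemma FIR_comp_mul {σ : Type} (p q : MvPolynomial σ ℂ) (hq : q.IsHomogeneous 1) (d : ℕ) :
    homogeneousComponent (d + 1) (p * q) = homogeneousComponent d p * q := by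
  conv_lhs => rw [← sum_homogeneousComponent p, Finset.sum_mul, map_sum]
  have h1 : ∀ e, homogeneousComponent (d + 1) (homogeneousComponent e p * q) =
      if e = d then homogeneousComponent e p * q else 0 := by
    intro e
    have h2 : homogeneousComponent e p * q ∈ homogeneousSubmodule σ ℂ (e + 1) :=
      (homogeneousComponent_isHomogeneous e p).mul hq
    rw [homogeneousComponent_of_mem h2]
    by_cases he : e = d
    · rw [if_pos he, if_pos (by omega)]
    · rw [if_neg he, if_neg (by omega)]
  simp only [h1]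
  rw [Finset.sum_ite_eq']
  split_ifs with h
  · rfl
  · rw [Finset.mem_range, not_lt] at h
    rw [homogeneousComponent_eq_zero _ _ (by omega), zero_mul]

private lemma FIR_mem_range {R : Type} [CommRing R] {n : ℕ} (F : Fin n → R) {w : R}
    (h : w ∈ Ideal.ofList (List.ofFn F)) : ∃ b : Fin n → R, w = ∑ i, b i * F i := by
  have h1 : Ideal.ofList (List.ofFn F) = Ideal.span (Set.range F) := by
    rw [Ideal.ofList]
    congr 1
    ext z
    simp [List.mem_ofFn, Set.mem_range]
  rw [h1, Ideal.mem_span_range_iff_exists_fun] at h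
  obtain ⟨c, hc⟩ := h
  exact ⟨c, hc.symm⟩

/-- A combination of the `F i` all of whose first derivatives vanish at `x = 0` has coefficients
vanishing at `x = 0`. -/
private lemma FIR_star (n m : ℕ) (hm : 3 ≤ m) (u : MvPolynomial (Fin n) ℂ)
    (hu : u.IsHomogeneous m) (b : Fin n → MvPolynomial (Option (Fin n)) ℂ)
    (w : MvPolynomial (Option (Fin n)) ℂ)
    (hw : w = ∑ i, b i * (rename some (pderiv i u) - X none ^ (m - 2) * X (some i)))
    (hd : ∀ j : Fin n, FIR_ev n (pderiv (some j) w) = 0) (j : Fin n) : FIR_ev n (b j) = 0 := by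
  have hren : ∀ (q : MvPolynomial (Fin n) ℂ) (d : ℕ), q.IsHomogeneous d → 1 ≤ d →
      FIR_ev n (rename some q) = 0 := by
    intro q d hq hd1
    rw [FIR_ev_hom n (hq.rename_isHomogeneous : (rename some q :
      MvPolynomial (Option (Fin n)) ℂ).IsHomogeneous d), eval_rename,
      FIR_eval_zero_hom hq hd1 (fun i => by simp), map_zero, zero_mul]
  have h0 : ∀ i, FIR_ev n (rename some (pderiv i u) - X none ^ (m - 2) * X (some i)) = 0 := by
    intro i
    rw [map_sub, map_mul, FIR_ev_some, mul_zero, sub_zero]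
    exact hren _ (m - 1) hu.pderiv (by omega)
  have h1 : ∀ i, FIR_ev n (pderiv (some j) (rename some (pderiv i u) -
      X none ^ (m - 2) * X (some i))) = if i = j then - Polynomial.X ^ (m - 2) else 0 := by
    intro i
    have e1 : pderiv (some j) (rename some (pderiv i u) : MvPolynomial (Option (Fin n)) ℂ) =
        rename some (pderiv j (pderiv i u)) := by
      rw [pderiv_rename (Option.some_injective _)]
    have e2 : pderiv (some j) ((X none : MvPolynomial (Option (Fin n)) ℂ) ^ (m - 2)) = 0 := by
      rw [Derivation.leibniz_pow, pderiv_X_of_ne (by simp)]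
      simp
    rw [map_sub, e1, Derivation.leibniz, e2, map_sub, map_add, smul_eq_mul, smul_eq_mul,
      map_mul, mul_zero, map_zero, add_zero, map_pow, FIR_ev_none,
      hren _ (m - 1 - 1) hu.pderiv.pderiv (by omega), zero_sub]
    by_cases hij : i = j
    · rw [if_pos hij, hij, pderiv_X_self, map_one, mul_one]
    · rw [if_neg hij, pderiv_X_of_ne (fun h => hij (Option.some_injective _ h)), map_zero,
        mul_zero, neg_zero]
  have h2 := hd j
  rw [hw, map_sum, map_sum] at h2
  have h3 : ∀ i, FIR_ev n (pderiv (some j) (b i * (rename some (pderiv i u) -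
      X none ^ (m - 2) * X (some i)))) =
      if i = j then - (FIR_ev n (b i) * Polynomial.X ^ (m - 2)) else 0 := by
    intro i
    rw [Derivation.leibniz, map_add, smul_eq_mul, smul_eq_mul, map_mul, map_mul, h0, h1,
      zero_mul, add_zero]
    split_ifs <;> simp
  simp only [h3] at h2
  rw [Finset.sum_ite_eq' Finset.univ j, if_pos (Finset.mem_univ j), neg_eq_zero] at h2
  rcases mul_eq_zero.1 h2 with h | h
  · exact h
  · exact absurd h (pow_ne_zero _ Polynomial.X_ne_zero)

set_option maxHeartbeats 8000000 in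
theorem thm_FIR (h2 : St_HOM) (h3 : St_PRM) (h6 : St_SOP) (h7 : St_VAR) (h8 : St_CHN)
    (h10 : St_SRD) (h11 : St_SEL) (h12 : St_DET) (h13 : St_IDT) : St_FIR := by
  intro n m r u κ g hn hm hu hκ hP
  by_contra hcon
  push Not at hcon
  obtain ⟨γ, hγ0, hγ⟩ := h10 n m u (by omega) hu
  set t : MvPolynomial (Option (Fin n)) ℂ := X none with ht
  set x : Fin n → MvPolynomial (Option (Fin n)) ℂ := fun j => X (some j) with hx
  set F : Fin n → MvPolynomial (Option (Fin n)) ℂ := fun j =>
    rename some (pderiv j u) - t ^ (m - 2) * x j with hF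
  set lin : Fin r → MvPolynomial (Option (Fin n)) ℂ := fun l => ∑ i, C (g l i) * x i with hlin
  set G : Fin r → MvPolynomial (Option (Fin n)) ℂ := fun l => lin l ^ (m - 1) with hG
  set L : MvPolynomial (Option (Fin n)) ℂ :=
    t ^ (2 * (m - 2)) - C γ * (∑ j, x j ^ 2) ^ (m - 2) with hL
  have htH : t.IsHomogeneous 1 := isHomogeneous_X ℂ none
  have hxH : ∀ j, (x j).IsHomogeneous 1 := fun j => isHomogeneous_X ℂ (some j)
  have huH : ∀ j, (pderiv j u).IsHomogeneous (m - 1) := fun j => hu.pderiv
  have hFH : ∀ j, (F j).IsHomogeneous (m - 1) := by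
    intro j
    have h1 : (rename some (pderiv j u) : MvPolynomial (Option (Fin n)) ℂ).IsHomogeneous (m - 1) :=
      (huH j).rename_isHomogeneous
    have h2' : (t ^ (m - 2) * x j).IsHomogeneous (m - 1) := by
      have := (htH.pow (m - 2)).mul (hxH j)
      have he : 1 * (m - 2) + 1 = m - 1 := by omega
      rwa [he] at this
    exact h1.sub h2'
  have hlinH : ∀ l, (lin l).IsHomogeneous 1 := by
    intro l
    refine IsHomogeneous.sum _ _ _ fun i _ => ?_
    have := (isHomogeneous_C (Option (Fin n)) (g l i)).mul (hxH i)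
    rwa [zero_add] at this
  have hGH : ∀ l, (G l).IsHomogeneous (m - 1) := by
    intro l
    have := (hlinH l).pow (m - 1)
    rwa [one_mul] at this
  have hLH : L.IsHomogeneous (2 * (m - 2)) := by
    have h1 : (t ^ (2 * (m - 2))).IsHomogeneous (2 * (m - 2)) := by
      have := htH.pow (2 * (m - 2))
      rwa [one_mul] at this
    have h2' : (∑ j, x j ^ 2).IsHomogeneous 2 :=
      IsHomogeneous.sum _ _ _ fun j _ => (hxH j).pow 2
    have h3' : (C γ * (∑ j, x j ^ 2) ^ (m - 2)).IsHomogeneous (2 * (m - 2)) := by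
      have := (isHomogeneous_C (Option (Fin n)) γ).mul (h2'.pow (m - 2))
      rwa [zero_add] at this
    exact h1.sub h3'
  -- the common zeros
  have hzeroL : ∀ a : Option (Fin n) → ℂ, eval a L = 0 →
      a none ^ (2 * (m - 2)) = γ * (∑ j, a (some j) ^ 2) ^ (m - 2) := by
    intro a haL
    simp only [hL, hx, ht, map_sub, map_mul, map_pow, map_sum, eval_X, eval_C] at haL
    exact sub_eq_zero.1 haL
  have hzero : ∀ a : Option (Fin n) → ℂ, (∀ j, eval a (F j) = 0) → (∀ l, eval a (G l) = 0) →
      eval a L = 0 → a = 0 := by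
    intro a haF haG haL
    have hF' : ∀ j, eval (fun i => a (some i)) (pderiv j u) = a none ^ (m - 2) * a (some j) := by
      intro j
      have := haF j
      simp only [hF, hx, ht, map_sub, map_mul, map_pow, eval_X, eval_rename] at this
      have h' := sub_eq_zero.1 this
      exact h'
    have hG' : ∀ l, ∑ i, g l i * a (some i) = 0 := by
      intro l
      have := haG l
      simp only [hG, hlin, hx, map_pow, map_sum, map_mul, eval_C, eval_X] at this
      exact pow_eq_zero_iff (by omega) |>.1 this
    have hL' := hzeroL a haL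
    by_cases hq : ∑ j, a (some j) ^ 2 = 0
    · rw [hq, zero_pow (by omega), mul_zero] at hL'
      have ha0 : a none = 0 := pow_eq_zero_iff (by omega) |>.1 hL'
      have hb : (fun i => a (some i)) = 0 := by
        by_contra hne
        obtain ⟨j, hj⟩ := hcon (fun i => a (some i)) hne hG' hq
        apply hj
        rw [hF' j, ha0, zero_pow (by omega), zero_mul]
      funext i
      cases i with
      | none => exact ha0
      | some j => exact congrFun hb j
    · exfalso
      obtain ⟨c, hc⟩ := IsAlgClosed.exists_pow_nat_eq (∑ j, a (some j) ^ 2)⁻¹ (n := 2) (by norm_num)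
      refine hγ (fun i => c * a (some i)) ((c * a none) ^ (m - 2)) (fun i => ?_) ?_ ?_
      · rw [FIR_eval_smul_hom (huH i), hF' i]
        have he : m - 1 = (m - 2) + 1 := by omega
        rw [he, pow_succ, mul_pow]
        ring
      · simp only [mul_pow]
        rw [← Finset.mul_sum, hc, inv_mul_cancel₀ hq]
      · have : ((c * a none) ^ (m - 2)) ^ 2 = (c ^ 2) ^ (m - 2) * a none ^ (2 * (m - 2)) := by
          ring
        rw [this, hL', hc, inv_pow]
        field_simp
  have hVZx : VZ (⊥ : Ideal (MvPolynomial (Option (Fin n)) ℂ)) (L :: List.ofFn x) := by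
    intro a _ ha
    have h1 : ∀ j, a (some j) = 0 := by
      intro j
      have := ha (x j) (List.mem_cons_of_mem _ (by rw [List.mem_ofFn]; exact ⟨j, rfl⟩))
      simpa [hx] using this
    have h2' := hzeroL a (ha L List.mem_cons_self)
    have h3' : ∑ j, a (some j) ^ 2 = 0 := by
      refine Finset.sum_eq_zero fun j _ => ?_
      rw [h1 j]
      norm_num
    rw [h3', zero_pow (by omega), mul_zero] at h2'
    funext i
    cases i with
    | none => exact pow_eq_zero_iff (by omega) |>.1 h2'
    | some j => exact h1 j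
  have hVZy : VZ (⊥ : Ideal (MvPolynomial (Option (Fin n)) ℂ))
      (L :: (List.ofFn F ++ List.ofFn G)) := by
    intro a _ ha
    refine hzero a (fun j => ha (F j) ?_) (fun l => ha (G l) ?_) (ha L List.mem_cons_self)
    · refine List.mem_cons_of_mem _ (List.mem_append_left _ ?_)
      rw [List.mem_ofFn]
      exact ⟨j, rfl⟩
    · refine List.mem_cons_of_mem _ (List.mem_append_right _ ?_)
      rw [List.mem_ofFn]
      exact ⟨l, rfl⟩
  have hPHL : PH L := ⟨2 * (m - 2), by omega, hLH⟩
  obtain ⟨a, haVZ⟩ := h11 (Option (Fin n)) n r (m - 1) F x G L (by omega) hFH hGH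
    (fun i => ⟨1, le_refl 1, hxH i⟩) hPHL hVZx hVZy
  set F' : Fin n → MvPolynomial (Option (Fin n)) ℂ := fun i => F i + ∑ l, C (a i l) * G l
    with hF'def
  have hF'H : ∀ j, (F' j).IsHomogeneous (m - 1) := by
    intro j
    refine (hFH j).add (IsHomogeneous.sum _ _ _ fun l _ => ?_)
    have := (isHomogeneous_C (Option (Fin n)) (a j l)).mul (hGH l)
    rwa [zero_add] at this
  -- regularity
  set lF : List (MvPolynomial (Option (Fin n)) ℂ) := List.ofFn F' with hlF
  have hlFlen : lF.length = n := by simp [hlF]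
  have hPHF : ∀ f ∈ lF, PH f := by
    intro f hf
    rw [hlF, List.mem_ofFn] at hf
    obtain ⟨j, rfl⟩ := hf
    exact ⟨m - 1, by omega, hF'H j⟩
  have hreg : RS (⊥ : Ideal (MvPolynomial (Option (Fin n)) ℂ)) lF := by
    set lv : List (Option (Fin n)) := none :: (List.ofFn (some : Fin n → Option (Fin n))) with hlv
    have hnd : lv.Nodup := by
      rw [hlv, List.nodup_cons]
      constructor
      · rw [List.mem_ofFn]
        rintro ⟨i, hi⟩
        cases hi
      · exact List.nodup_ofFn.2 (Option.some_injective _)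
    have hall : ∀ i, i ∈ lv := by
      intro i
      cases i with
      | none => simp [hlv]
      | some j =>
        rw [hlv]
        refine List.mem_cons_of_mem _ ?_
        rw [List.mem_ofFn]
        exact ⟨j, rfl⟩
    have hlen : (lv.map X : List (MvPolynomial (Option (Fin n)) ℂ)).length =
        (lF ++ [L]).length := by
      simp [hlv, hlF]
    have hPHX : ∀ f ∈ (lv.map X : List (MvPolynomial (Option (Fin n)) ℂ)), PH f := by
      intro f hf
      obtain ⟨i, -, rfl⟩ := List.mem_map.1 hf
      exact ⟨1, le_refl 1, isHomogeneous_X ℂ i⟩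
    have hPHy : ∀ f ∈ lF ++ [L], PH f := by
      intro f hf
      rcases List.mem_append.1 hf with hf | hf
      · exact hPHF f hf
      · rw [List.mem_singleton] at hf
        subst hf
        exact hPHL
    have hVZX : VZ (⊥ : Ideal (MvPolynomial (Option (Fin n)) ℂ)) (lv.map X) := by
      intro b _ hb
      funext i
      have := hb (X i) (List.mem_map.2 ⟨i, hall i, rfl⟩)
      simpa using this
    have hVZ' : VZ (⊥ : Ideal (MvPolynomial (Option (Fin n)) ℂ)) (lF ++ [L]) := by
      intro b hb0 hb
      refine haVZ b hb0 fun f hf => ?_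
      rcases List.mem_cons.1 hf with hf | hf
      · rw [hf]
        exact hb L (List.mem_append_right _ (List.mem_singleton.2 rfl))
      · exact hb f (List.mem_append_left _ hf)
    have := h6 (Option (Fin n)) ⊥ (lv.map X) (lF ++ [L]) hlen (h2 _).1 hPHX hPHy
      (h7 _ lv hnd) hVZX hVZ'
    exact FIR_RS_left lF [L] ⊥ this
  -- the identities
  set K : MvPolynomial (Option (Fin n)) ℂ := rename some κ with hK
  set Kd : Fin n → MvPolynomial (Option (Fin n)) ℂ := fun i => rename some (pderiv i κ) with hKd
  set τ : MvPolynomial (Option (Fin n)) ℂ := t ^ (m - 2) with hτ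
  set q : MvPolynomial (Option (Fin n)) ℂ := ∑ l, x l ^ 2 with hq
  set Y : MvPolynomial (Option (Fin n)) ℂ := τ ^ 2 * q with hY
  set α : MvPolynomial (Option (Fin n)) ℂ := τ ^ 2 * (C (3 * (m : ℂ) - 4) * τ -
    C (2 * ((m : ℂ) - 1)) * K) with hα
  set β : MvPolynomial (Option (Fin n)) ℂ := K - τ with hβ
  set I0 : Ideal (MvPolynomial (Option (Fin n)) ℂ) := Ideal.ofList (List.ofFn F) with hI0
  have hFI0 : ∀ i, F i ∈ I0 := by
    intro i
    rw [hI0]
    refine Ideal.subset_span ?_
    change F i ∈ List.ofFn F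
    rw [List.mem_ofFn]
    exact ⟨i, rfl⟩
  have haev : ∀ p : MvPolynomial (Fin n) ℂ,
      aeval (fun i => Ideal.Quotient.mk I0 (x i)) p = Ideal.Quotient.mk I0 (rename some p) := by
    intro p
    have : (aeval (fun i => Ideal.Quotient.mk I0 (x i)) :
        MvPolynomial (Fin n) ℂ →ₐ[ℂ] _) =
        (Ideal.Quotient.mkₐ ℂ I0).comp (rename some) := by
      apply MvPolynomial.algHom_ext
      intro i
      simp [hx]
    rw [this]
    rfl
  have halg : ∀ c : ℂ, algebraMap ℂ (MvPolynomial (Option (Fin n)) ℂ ⧸ I0) c =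
      Ideal.Quotient.mk I0 (C c) := fun c => rfl
  obtain ⟨id1, id2⟩ := h13 n m u κ hm hu hP (MvPolynomial (Option (Fin n)) ℂ ⧸ I0)
    (fun i => Ideal.Quotient.mk I0 (x i)) (Ideal.Quotient.mk I0 τ) (fun i => by
      rw [haev, ← map_mul]
      rw [Ideal.Quotient.eq]
      exact hFI0 i)
  have hβY : β * Y ∈ I0 := by
    have h1 : Ideal.Quotient.mk I0 (β * Y) = 0 := by
      rw [← id1, haev, hβ, hY, hq]
      simp only [map_mul, map_sub, map_pow, map_sum]
      rfl
    exact Ideal.Quotient.eq_zero_iff_mem.1 h1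
  have hαx : ∀ i, α * x i - Kd i * Y ∈ I0 := by
    intro i
    have h1 : Ideal.Quotient.mk I0 (α * x i - Kd i * Y) = 0 := by
      rw [← id2 i, haev, haev, hα, hY, hq, halg, halg]
      simp only [map_mul, map_sub, map_pow, map_sum]
      rfl
    exact Ideal.Quotient.eq_zero_iff_mem.1 h1
  choose c hc using fun i => FIR_mem_range F (hαx i)
  obtain ⟨b, hb⟩ := FIR_mem_range F hβY
  have evτ : FIR_ev n τ = Polynomial.X ^ (m - 2) := by
    rw [hτ, map_pow, ht, FIR_ev_none]
  have evx : ∀ i, FIR_ev n (x i) = 0 := fun i => FIR_ev_some n i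
  have evlin : ∀ l, FIR_ev n (lin l) = 0 := by
    intro l
    rw [hlin]
    simp only [map_sum, map_mul, evx, mul_zero, Finset.sum_const_zero]
  have evK : FIR_ev n K = 0 := by
    rw [hK, FIR_ev_hom n (hκ.rename_isHomogeneous : (rename some κ :
      MvPolynomial (Option (Fin n)) ℂ).IsHomogeneous (m - 2)), eval_rename,
      FIR_eval_zero_hom hκ (by omega) (fun i => by simp), map_zero, zero_mul]
  have evb : ∀ j, FIR_ev n (b j) = 0 := by
    refine FIR_star n m hm u hu b (β * Y) hb fun j => ?_
    have e1 : pderiv (some j) (β * Y) = β * τ ^ 2 * pderiv (some j) q +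
        q * pderiv (some j) (β * τ ^ 2) := by
      rw [hY, ← mul_assoc, Derivation.leibniz, smul_eq_mul, smul_eq_mul]
    have e2 : FIR_ev n q = 0 := by
      rw [hq, map_sum]
      refine Finset.sum_eq_zero fun l _ => ?_
      rw [map_pow, evx]
      norm_num
    have e3 : FIR_ev n (pderiv (some j) q) = 0 := by
      rw [hq, map_sum, map_sum]
      refine Finset.sum_eq_zero fun l _ => ?_
      rw [Derivation.leibniz_pow]
      simp only [nsmul_eq_mul, smul_eq_mul, map_mul, Nat.add_one_sub_one, pow_one, evx, zero_mul,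
        mul_zero]
    rw [e1, map_add, map_mul, map_mul (FIR_ev n) q, e2, e3, mul_zero, zero_mul, add_zero]
  -- the ideal of the `F' i`
  set I : Ideal (MvPolynomial (Option (Fin n)) ℂ) := Ideal.ofList lF with hI
  have hF'I : ∀ i, F' i ∈ I := by
    intro i
    rw [hI]
    refine Ideal.subset_span ?_
    change F' i ∈ lF
    rw [hlF, List.mem_ofFn]
    exact ⟨i, rfl⟩
  set G' : Fin r → Fin n → MvPolynomial (Option (Fin n)) ℂ := fun l i =>
    C (g l i) * lin l ^ (m - 2) with hG'
  have hGx : ∀ l, G l = ∑ i, G' l i * x i := by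
    intro l
    have he : m - 1 = (m - 2) + 1 := by omega
    have e1 : G l = lin l ^ (m - 2) * lin l := by
      rw [hG]
      simp only
      rw [he, pow_succ]
    rw [e1]
    conv_lhs => rw [hlin]
    simp only
    rw [Finset.mul_sum]
    refine Finset.sum_congr rfl fun i _ => ?_
    rw [hG']
    simp only
    ring
  obtain ⟨D, hD1, hD2⟩ := h12 (MvPolynomial (Option (Fin n)) ℂ) (Polynomial ℂ) (FIR_ev n) I n r
    F x Kd G (fun l => ∑ i, G' l i * Kd i) (fun i l => C (a i l)) Y α β
    (fun i => hF'I i)
    (fun l => by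
      refine ⟨fun j => ∑ i, G' l i * c i j, fun j => ?_, ?_⟩
      · rw [map_sum]
        refine Finset.sum_eq_zero fun i _ => ?_
        rw [map_mul, hG']
        simp only
        rw [map_mul, map_pow, evlin, zero_pow (by omega), mul_zero, zero_mul]
      · have e1 : α * G l - (∑ i, G' l i * Kd i) * Y = ∑ i, G' l i * (α * x i - Kd i * Y) := by
          rw [hGx l, Finset.mul_sum, Finset.sum_mul, ← Finset.sum_sub_distrib]
          refine Finset.sum_congr rfl fun i _ => ?_
          ring
        rw [e1]
        simp only [hc]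
        simp only [Finset.mul_sum, Finset.sum_mul]
        rw [Finset.sum_comm]
        refine Finset.sum_congr rfl fun j _ => Finset.sum_congr rfl fun i _ => ?_
        ring)
    ⟨b, evb, hb⟩
    (fun i => ⟨c i, hc i⟩)
  -- the component of degree `d`
  have evα : FIR_ev n α = Polynomial.C (3 * (m : ℂ) - 4) * Polynomial.X ^ (3 * (m - 2)) := by
    rw [hα]
    simp only [map_mul, map_sub, map_pow, FIR_ev_C, evτ, evK, mul_zero, sub_zero]
    ring
  have evβ : FIR_ev n β = - Polynomial.X ^ (m - 2) := by
    rw [hβ, map_sub, evK, evτ, zero_sub]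
  set d : ℕ := (3 * r + 4) * (m - 2) with hd
  have evh : FIR_ev n (D * α) =
      Polynomial.C (- (3 * (m : ℂ) - 4) ^ (r + 1)) * Polynomial.X ^ d := by
    rw [map_mul, hD1, evα, evβ, hd]
    simp only [mul_pow, map_neg, map_pow, ← pow_mul]
    ring
  set h' : MvPolynomial (Option (Fin n)) ℂ := homogeneousComponent d (D * α) with hh'
  have hh'H : h'.IsHomogeneous d := homogeneousComponent_isHomogeneous d (D * α)
  have hHI : HI I := (h2 (Option (Fin n))).2.2.2 lF hPHF
  have hh'x : ∀ j, x j * h' ∈ (⊥ : Ideal (MvPolynomial (Option (Fin n)) ℂ)) ⊔ Ideal.ofList lF := by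
    intro j
    rw [bot_sup_eq]
    have e1 := hHI _ (hD2 j) (d + 1)
    rw [← mul_assoc, FIR_comp_mul _ _ (hxH j)] at e1
    rw [mul_comm]
    exact e1
  have hmem : h' ∈ (⊥ : Ideal (MvPolynomial (Option (Fin n)) ℂ)) ⊔ Ideal.ofList lF := by
    refine h8 (Option (Fin n)) n (m - 1) x ⊥ lF h' d (by omega) hxH ?_ (h2 _).1 hreg
      hh'H ?_ hh'x
    · intro H hH
      rw [hlF, List.mem_ofFn] at hH
      obtain ⟨j, rfl⟩ := hH
      refine ⟨hF'H j, ?_⟩
      refine Ideal.add_mem _ (Ideal.sub_mem _ (FIR_rename_mem (huH j) (by omega))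
        (Ideal.mul_mem_left _ _ ?_)) (Ideal.sum_mem _ fun l _ => Ideal.mul_mem_left _ _ ?_)
      · exact Ideal.subset_span ⟨j, rfl⟩
      · rw [hGx l]
        exact Ideal.sum_mem _ fun i _ => Ideal.mul_mem_left _ _ (Ideal.subset_span ⟨i, rfl⟩)
    · rw [hlFlen, hd]
      have he : m - 1 - 1 = m - 2 := by omega
      rw [he]
      exact Nat.mul_lt_mul_of_pos_right (by omega) (by omega)
  -- the value at `x = 0`, `t = 1`
  rw [bot_sup_eq] at hmem
  have hle : Ideal.ofList lF ≤ RingHom.ker
      (eval (fun i : Option (Fin n) => if i = none then (1 : ℂ) else 0)) := by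
    rw [Ideal.ofList, Ideal.span_le]
    intro H hH
    change H ∈ lF at hH
    rw [hlF, List.mem_ofFn] at hH
    obtain ⟨j, rfl⟩ := hH
    change eval _ (F' j) = 0
    simp only [hF'def, hF, hG, hlin, hx, map_add, map_sub, map_mul, map_pow, map_sum, eval_X,
      eval_C, eval_rename]
    rw [FIR_eval_zero_hom (huH j) (by omega) (fun i => by simp)]
    simp [show m - 1 ≠ 0 by omega]
  have hev : eval (fun i : Option (Fin n) => if i = none then (1 : ℂ) else 0) h' = 0 := hle hmem
  rw [hh', ← FIR_coeff, evh, Polynomial.coeff_C_mul_X_pow, if_pos rfl, neg_eq_zero] at hev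
  have h34 : (3 * (m : ℂ) - 4) = 0 := pow_eq_zero_iff (by omega) |>.1 hev
  have h34' : (3 * (m : ℤ) - 4) = 0 := by exact_mod_cast h34
  omega

end Pool.Agent.PLZ
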