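import Pool.Agent.PLZ.St

/-!
# PLZ, module HOM: homogeneous ideals (helper40)
-/

set_option autoImplicit false

namespace Pool.Agent.PLZ

open MvPolynomial

attribute [local instance] MvPolynomial.gradedAlgebra

private theorem HOM_bot (σ : Type) : HI (⊥ : Ideal (MvPolynomial σ ℂ)) := by
  intro h hh d
  rw [Ideal.mem_bot] at hh
  subst hh
  rw [map_zero]
  exact Ideal.zero_mem _

private theorem HOM_sup {σ : Type} {J J' : Ideal (MvPolynomial σ ℂ)} (h1 : HI J) (h2 : HI J') :
    HI (J ⊔ J') := by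
  intro h hh d
  obtain ⟨a, ha, b, hb, rfl⟩ := Submodule.mem_sup.1 hh
  rw [map_add]
  exact Ideal.add_mem _ (Ideal.mem_sup_left (h1 a ha d)) (Ideal.mem_sup_right (h2 b hb d))

private theorem HOM_span {σ : Type} (s : Set (MvPolynomial σ ℂ))
    (hs : ∀ f ∈ s, ∃ d : ℕ, f.IsHomogeneous d) : HI (Ideal.span s) := by
  classical
  intro h hh d
  have h1 : (Ideal.span s).IsHomogeneous (homogeneousSubmodule σ ℂ) := by
    refine Ideal.homogeneous_span _ _ fun f hf => ?_
    obtain ⟨e, he⟩ := hs f hf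
    exact ⟨e, he⟩
  exact (mem_iff_homogeneousComponent_mem h1 h).1 hh d

theorem thm_HOM : St_HOM := by
  intro σ
  refine ⟨HOM_bot σ, fun J J' h1 h2 => HOM_sup h1 h2, fun f d hf => ?_, fun l hl => ?_⟩
  · apply HOM_span
    intro g hg
    rw [Set.mem_singleton_iff] at hg
    subst hg
    exact ⟨d, hf⟩
  · apply HOM_span
    intro g hg
    obtain ⟨d, -, hd⟩ := hl g hg
    exact ⟨d, hd⟩

end Pool.Agent.PLZ
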