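import Pool.Agent.PLZ.StB

set_option autoImplicit false

namespace Pool.Agent.PLZ

open MvPolynomial

private theorem HSN_comm {n : ℕ} (i j : Fin n) (p : MvPolynomial (Fin n) ℝ) :
    pderiv i (pderiv j p) = pderiv j (pderiv i p) := by
  rcases eq_or_ne i j with h | h
  · rw [h]
  · ext m
    rw [coeff_pderiv, coeff_pderiv, coeff_pderiv, coeff_pderiv]
    have e1 : m + Finsupp.single i 1 + Finsupp.single j 1
        = m + Finsupp.single j 1 + Finsupp.single i 1 := by
      rw [add_assoc, add_comm (Finsupp.single i 1), ← add_assoc]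
    have e2 : (m + Finsupp.single i 1 : Fin n →₀ ℕ) j = m j := by
      rw [Finsupp.add_apply, Finsupp.single_eq_of_ne h.symm, add_zero]
    have e3 : (m + Finsupp.single j 1 : Fin n →₀ ℕ) i = m i := by
      rw [Finsupp.add_apply, Finsupp.single_eq_of_ne h, add_zero]
    rw [e1, e2, e3]
    ring

/-- second derivative of a triple product at a point where two factors vanish -/
private theorem HSN_three {n : ℕ} (z : Fin n → ℂ) (k l : Fin n) (a b c : MvPolynomial (Fin n) ℝ)
    (ha : aeval z a = 0) (hb : aeval z b = 0) :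
    aeval z (pderiv k (pderiv l (a * b * c)))
      = (aeval z (pderiv k a) * aeval z (pderiv l b) + aeval z (pderiv l a) * aeval z (pderiv k b))
        * aeval z c := by
  simp only [pderiv_mul, map_add, map_mul, ha, hb]
  ring

private theorem HSN_alg {n : ℕ} (H : Matrix (Fin n) (Fin n) ℂ) (p : ℝ) (hp : 1 < p) (hp2 : p ≠ 2)
    (h : H.trace • H ^ 2 + ((p : ℂ) - 2) • H ^ 3 = 0) : H ^ 3 = 0 := by
  have hq : ((p : ℂ) - 2) ≠ 0 := by
    intro h0
    apply hp2
    have : (p : ℂ) = ((2 : ℝ) : ℂ) := by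
      push_cast
      linear_combination h0
    exact_mod_cast this
  set c : ℂ := - H.trace / ((p : ℂ) - 2) with hc
  have h3 : H ^ 3 = c • H ^ 2 := by
    have h1 : ((p : ℂ) - 2) • H ^ 3 = (- H.trace) • H ^ 2 := by
      rw [neg_smul]
      exact eq_neg_of_add_eq_zero_right h
    have h2 : H ^ 3 = (((p : ℂ) - 2))⁻¹ • (((p : ℂ) - 2) • H ^ 3) := by
      rw [smul_smul, inv_mul_cancel₀ hq, one_smul]
    rw [h2, h1, smul_smul, hc]
    congr 1
    field_simp
  by_cases hc0 : c = 0
  · rw [h3, hc0, zero_smul]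
  exfalso
  have h4 : H ^ 4 = c ^ 2 • H ^ 2 := by
    have : H ^ 4 = H * H ^ 3 := by
      rw [← pow_succ']
    rw [this, h3, Matrix.mul_smul, ← pow_succ', h3, smul_smul, pow_two c]
  have hEE : IsIdempotentElem ((c ^ 2)⁻¹ • H ^ 2) := by
    unfold IsIdempotentElem
    rw [Matrix.smul_mul, Matrix.mul_smul, ← pow_add, smul_smul]
    norm_num
    rw [h4, smul_smul]
    congr 1
    field_simp
  have hN : IsNilpotent (H - c⁻¹ • H ^ 2) := by
    refine ⟨2, ?_⟩
    have e : (H - c⁻¹ • H ^ 2) ^ 2 = H ^ 2 - (2 * c⁻¹) • H ^ 3 + (c⁻¹) ^ 2 • H ^ 4 := by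
      have a1 : H * H = H ^ 2 := (pow_two H).symm
      have a2 : H * H ^ 2 = H ^ 3 := (pow_succ' H 2).symm
      have a3 : H ^ 2 * H = H ^ 3 := (pow_succ H 2).symm
      have a4 : H ^ 2 * H ^ 2 = H ^ 4 := (pow_add H 2 2).symm
      rw [pow_two (H - c⁻¹ • H ^ 2), sub_mul, mul_sub, mul_sub, Matrix.smul_mul, Matrix.mul_smul,
        Matrix.smul_mul, Matrix.mul_smul, a1, a2, a3, a4, smul_smul, two_mul,
        add_smul, pow_two c⁻¹]
      abel
    rw [e, h4, h3, smul_smul, smul_smul]
    have e1 : 2 * c⁻¹ * c = 2 := by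
      rw [mul_assoc, inv_mul_cancel₀ hc0, mul_one]
    have e2 : c⁻¹ ^ 2 * c ^ 2 = 1 := by
      rw [← mul_pow, inv_mul_cancel₀ hc0, one_pow]
    rw [e1, e2, one_smul, two_smul]
    abel
  have htr : (H - c⁻¹ • H ^ 2).trace = 0 :=
    (Matrix.isNilpotent_trace_of_isNilpotent hN).eq_zero
  rw [Matrix.trace_sub, Matrix.trace_smul, smul_eq_mul] at htr
  obtain ⟨k, hk⟩ : ∃ k : ℕ, ((c ^ 2)⁻¹ • H ^ 2).trace = (k : ℂ) := by
    have hid : IsIdempotentElem (Matrix.toLin' ((c ^ 2)⁻¹ • H ^ 2)) := by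
      unfold IsIdempotentElem at hEE ⊢
      rw [Module.End.mul_eq_comp, ← Matrix.toLin'_mul, hEE]
    refine ⟨Module.finrank ℂ (LinearMap.range (Matrix.toLin' ((c ^ 2)⁻¹ • H ^ 2))), ?_⟩
    rw [← Matrix.trace_toLin'_eq]
    exact (LinearMap.IsIdempotentElem.isProj_range _ hid).trace
  rw [Matrix.trace_smul, smul_eq_mul] at hk
  have h5 : H.trace = c * k := by
    rw [← hk]
    have : c⁻¹ * (H ^ 2).trace = c * ((c ^ 2)⁻¹ * (H ^ 2).trace) := by
      field_simp
    rw [← this]
    linear_combination htr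
  have h6 : c * ((p : ℂ) - 2) = - H.trace := by
    rw [hc]
    field_simp
  have h7 : (p : ℂ) - 2 = - (k : ℂ) := by
    have : c * ((p : ℂ) - 2) = c * (- (k : ℂ)) := by
      rw [h6, h5]; ring
    exact mul_left_cancel₀ hc0 this
  have h8 : p = 2 - (k : ℝ) := by
    have : (p : ℂ) = ((2 - (k : ℝ) : ℝ) : ℂ) := by
      push_cast
      linear_combination h7
    exact_mod_cast this
  rcases Nat.eq_zero_or_pos k with h0 | h0
  · apply hp2
    rw [h8, h0]
    simp
  · have : (1 : ℝ) ≤ (k : ℝ) := by exact_mod_cast h0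
    linarith

theorem thm_HSN : St_HSN := by
  intro n p u hp hp2 hid z hz
  set H : Matrix (Fin n) (Fin n) ℂ := Matrix.of fun i j => aeval z (pderiv i (pderiv j u)) with hH
  have hHe : ∀ i j, H i j = aeval z (pderiv i (pderiv j u)) := fun i j => rfl
  have hsym : ∀ i j, H i j = H j i := fun i j => by rw [hHe, hHe, HSN_comm]
  -- the polynomial identity
  have hpoly : (∑ i, pderiv i u * pderiv i u * (∑ j, pderiv j (pderiv j u))) +
      C (p - 2) * ∑ i, ∑ j, pderiv i u * pderiv j u * pderiv i (pderiv j u) = 0 := by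
    apply MvPolynomial.funext
    intro x
    have := hid x
    simp only [map_add, map_mul, map_sum, eval_C, map_zero]
    rw [← Finset.sum_mul]
    rw [← this]
    simp only [pow_two]
  apply HSN_alg H p hp hp2
  ext k l
  have hd := congrArg (fun q => aeval z (pderiv k (pderiv l q))) hpoly
  simp only [map_add, map_sum, pderiv_C_mul, map_mul (aeval z), aeval_C, map_zero] at hd
  have t1 : ∀ i, aeval z (pderiv k (pderiv l (pderiv i u * pderiv i u *
      (∑ j, pderiv j (pderiv j u))))) = (H k i * H i l + H k i * H i l) * H.trace := by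
    intro i
    rw [HSN_three z k l _ _ _ (hz i) (hz i), map_sum, ← hHe, ← hHe, hsym l i]
    unfold Matrix.trace
    simp only [Matrix.diag_apply]
    rw [mul_comm (H i l) (H k i)]
    rfl
  have t2 : ∀ i j, aeval z (pderiv k (pderiv l (pderiv i u * pderiv j u *
      pderiv i (pderiv j u)))) = (H k i * H j l + H i l * H k j) * H i j := by
    intro i j
    rw [HSN_three z k l _ _ _ (hz i) (hz j), ← hHe, ← hHe, ← hHe, ← hHe, ← hHe, hsym l j,
      hsym l i]
  simp only [t1, t2] at hd
  have s1 : ∑ i, (H k i * H i l + H k i * H i l) * H.trace = 2 * (H.trace * (H ^ 2) k l) := by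
    rw [pow_two, Matrix.mul_apply, Finset.mul_sum, Finset.mul_sum]
    refine Finset.sum_congr rfl fun i _ => ?_
    ring
  have s2 : ∑ i, ∑ j, (H k i * H j l + H i l * H k j) * H i j = 2 * (H ^ 3) k l := by
    have e3 : (H ^ 3) k l = ∑ i, ∑ j, H k i * H i j * H j l := by
      rw [pow_succ', pow_two, Matrix.mul_apply]
      refine Finset.sum_congr rfl fun i _ => ?_
      rw [Matrix.mul_apply, Finset.mul_sum]
      refine Finset.sum_congr rfl fun j _ => ?_
      ring
    have e4 : (H ^ 3) k l = ∑ i, ∑ j, H k j * H i j * H i l := by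
      rw [e3, Finset.sum_comm]
      refine Finset.sum_congr rfl fun i _ => Finset.sum_congr rfl fun j _ => ?_
      rw [hsym i j]
    rw [two_mul]
    nth_rewrite 1 [e3]
    rw [e4, ← Finset.sum_add_distrib]
    refine Finset.sum_congr rfl fun i _ => ?_
    rw [← Finset.sum_add_distrib]
    refine Finset.sum_congr rfl fun j _ => ?_
    ring
  rw [s1, s2] at hd
  rw [Matrix.add_apply, Matrix.smul_apply, Matrix.smul_apply, smul_eq_mul, smul_eq_mul,
    Matrix.zero_apply]
  have hc : (algebraMap ℝ ℂ) (p - 2) = (p : ℂ) - 2 := by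
    simp
  rw [hc] at hd
  linear_combination hd / 2

end Pool.Agent.PLZ
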