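import Pool.Agent.PLZ.St

/-!
# PLZ (MP_d74254_an): Krull, `V(J, w) = 0` (helper89)
-/

set_option autoImplicit false

namespace Pool.Agent.PLZ

open MvPolynomial

private lemma KRL_ev {σ : Type} (a : σ → ℂ) (f : MvPolynomial σ ℂ) :
    aeval a f = eval a f := rfl

/-- restriction to the line through `a` -/
private noncomputable def KRL_phi {σ : Type} (a : σ → ℂ) : MvPolynomial σ ℂ →ₐ[ℂ] Polynomial ℂ :=
  aeval fun s => Polynomial.C (a s) * Polynomial.X

private lemma KRL_phi_hom {σ : Type} (a : σ → ℂ) (f : MvPolynomial σ ℂ) (d : ℕ)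
    (hf : f.IsHomogeneous d) : KRL_phi a f = Polynomial.C (eval a f) * Polynomial.X ^ d := by
  unfold KRL_phi
  rw [aeval_def, eval₂_eq, eval_eq, map_sum, Finset.sum_mul]
  refine Finset.sum_congr rfl fun m hm => ?_
  have hd : m.degree = d := by
    rw [← hf (mem_support_iff.1 hm), Finsupp.degree_eq_weight_one]
    rfl
  have h1 : ∏ i ∈ m.support, (Polynomial.C (a i) * Polynomial.X) ^ m i =
      Polynomial.C (∏ i ∈ m.support, a i ^ m i) * Polynomial.X ^ d := by
    have h2 : ∀ i ∈ m.support, (Polynomial.C (a i) * Polynomial.X) ^ m i =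
        Polynomial.C (a i ^ m i) * (Polynomial.X : Polynomial ℂ) ^ m i := by
      intro i _
      rw [mul_pow, map_pow]
    rw [Finset.prod_congr rfl h2, Finset.prod_mul_distrib, map_prod, Finset.prod_pow_eq_pow_sum,
      ← hd]
    rfl
  rw [h1, map_mul, ← mul_assoc]
  rfl

private lemma KRL_height {R : Type} [CommRing R] [IsNoetherianRing R] {p q m : Ideal R}
    [hp : p.IsPrime] [hq : q.IsPrime] [hm : m.IsPrime] (h1 : p < q) (h2 : q < m) (x : R)
    (hx : m ∈ (p ⊔ Ideal.span {x}).minimalPrimes) : False := by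
  have h3 := Ideal.map_height_le_one_of_mem_minimalPrimes hx
  have hs : Function.Surjective (Ideal.Quotient.mk p) := Ideal.Quotient.mk_surjective
  have hkq : RingHom.ker (Ideal.Quotient.mk p) ≤ q := (Ideal.mk_ker).trans_le h1.le
  have hkm : RingHom.ker (Ideal.Quotient.mk p) ≤ m := hkq.trans h2.le
  have hqp : (q.map (Ideal.Quotient.mk p)).IsPrime := Ideal.map_isPrime_of_surjective hs hkq
  have hmp : (m.map (Ideal.Quotient.mk p)).IsPrime := Ideal.map_isPrime_of_surjective hs hkm
  have hbp : (⊥ : Ideal (R ⧸ p)).IsPrime := Ideal.isPrime_bot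
  have hcq : (q.map (Ideal.Quotient.mk p)).comap (Ideal.Quotient.mk p) = q := by
    rw [Ideal.comap_map_of_surjective _ hs]
    exact sup_eq_left.2 hkq
  have hcm : (m.map (Ideal.Quotient.mk p)).comap (Ideal.Quotient.mk p) = m := by
    rw [Ideal.comap_map_of_surjective _ hs]
    exact sup_eq_left.2 hkm
  have hcb : (⊥ : Ideal (R ⧸ p)).comap (Ideal.Quotient.mk p) = p := Ideal.mk_ker
  have l1 : (⊥ : Ideal (R ⧸ p)) < q.map (Ideal.Quotient.mk p) := by
    refine lt_of_le_of_ne bot_le fun h => h1.ne ?_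
    rw [← hcq, ← h, hcb]
  have l2 : q.map (Ideal.Quotient.mk p) < m.map (Ideal.Quotient.mk p) := by
    refine lt_of_le_of_ne (Ideal.map_mono h2.le) fun h => h2.ne ?_
    rw [← hcq, h, hcm]
  have e1 := Ideal.height_add_one_le_of_lt_of_isPrime l1
  have e2 := Ideal.height_add_one_le_of_lt_of_isPrime l2
  have e3 : (1 : ℕ∞) + 1 ≤ 1 := by
    calc (1 : ℕ∞) + 1 ≤ (⊥ : Ideal (R ⧸ p)).height + 1 + 1 := by
          gcongr
          exact le_add_self
      _ ≤ (q.map (Ideal.Quotient.mk p)).height + 1 := by gcongr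
      _ ≤ _ := e2
      _ ≤ 1 := h3
  exact absurd e3 (by norm_num)

theorem thm_KRL : St_KRL := by
  intro σ _ J z w hJ hz hw hV hmin a haJ haw
  have haw' : eval a w = 0 := haw w (by simp)
  by_contra hne
  obtain ⟨s, hs⟩ : ∃ s, a s ≠ 0 := by
    by_contra hcon
    push Not at hcon
    exact hne (funext hcon)
  -- the prime ideal of the line
  set q : Ideal (MvPolynomial σ ℂ) := RingHom.ker (KRL_phi a).toRingHom with hqdef
  have hq : q.IsPrime := RingHom.ker_isPrime _
  have hmq : ∀ f, f ∈ q ↔ KRL_phi a f = 0 := fun f => Iff.rfl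
  set m : Ideal (MvPolynomial σ ℂ) := RingHom.ker (eval (0 : σ → ℂ)) with hmdef
  have hm : m.IsPrime := RingHom.ker_isPrime _
  have hmm : ∀ f, f ∈ m ↔ eval (0 : σ → ℂ) f = 0 := fun f => Iff.rfl
  have hJq : J ≤ q := by
    intro f hf
    rw [hmq, ← sum_homogeneousComponent f, map_sum]
    refine Finset.sum_eq_zero fun d _ => ?_
    rw [KRL_phi_hom a _ d (homogeneousComponent_isHomogeneous d f), haJ _ (hJ f hf d)]
    simp
  have hwq : w ∈ q := by
    obtain ⟨d, _, hd⟩ := hw
    rw [hmq, KRL_phi_hom a w d hd, haw']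
    simp
  have hXq : (X s : MvPolynomial σ ℂ) ∉ q := by
    rw [hmq]
    unfold KRL_phi
    rw [aeval_X]
    intro h
    rcases mul_eq_zero.1 h with h | h
    · exact hs (Polynomial.C_eq_zero.1 h)
    · exact Polynomial.X_ne_zero h
  have hXm : (X s : MvPolynomial σ ℂ) ∈ m := by
    rw [hmm]
    simp
  have hqm : q ≤ m := by
    intro f hf
    rw [hmq] at hf
    rw [hmm]
    have h1 : Polynomial.eval 0 (KRL_phi a f) = eval (0 : σ → ℂ) f := by
      have h2 : (Polynomial.evalRingHom (0 : ℂ)).comp (KRL_phi a).toRingHom =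
          eval (0 : σ → ℂ) := by
        refine MvPolynomial.ringHom_ext (fun c => ?_) fun i => ?_
        · show Polynomial.eval 0 (KRL_phi a (C c)) = eval (0 : σ → ℂ) (C c)
          unfold KRL_phi
          rw [eval_C, aeval_C]
          simp
        · show Polynomial.eval 0 (KRL_phi a (X i)) = eval (0 : σ → ℂ) (X i)
          unfold KRL_phi
          rw [eval_X, aeval_X]
          simp
      exact RingHom.congr_fun h2 f
    rw [← h1, hf, Polynomial.eval_zero]
  obtain ⟨p, hpm, hpq⟩ := Ideal.exists_minimalPrimes_le hJq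
  have hp : p.IsPrime := hpm.1.1
  have hwp : w ∉ p := hmin p hpm ⟨s, fun h => hXq (hpq h)⟩
  have hJp : J ≤ p := hpm.1.2
  have h1 : p < q := lt_of_le_of_ne hpq fun h => hwp (h ▸ hwq)
  have h2 : q < m := lt_of_le_of_ne hqm fun h => hXq (h ▸ hXm)
  refine KRL_height h1 h2 z ?_
  have hzm : z ∈ m := by
    obtain ⟨d, hd1, hd⟩ := hz
    rw [hmm]
    have h3 : eval (0 : σ → ℂ) z = constantCoeff z := by
      have h4 : (eval (0 : σ → ℂ) : MvPolynomial σ ℂ →+* ℂ) = constantCoeff := by
        refine MvPolynomial.ringHom_ext (fun c => ?_) fun i => ?_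
        · simp
        · simp
      exact RingHom.congr_fun h4 z
    rw [h3, constantCoeff_eq]
    by_contra hcon
    have h5 := hd hcon
    rw [map_zero] at h5
    omega
  refine ⟨⟨hm, sup_le (hpq.trans hqm) ((Ideal.span_singleton_le_iff_mem _).2 hzm)⟩, ?_⟩
  rintro r ⟨hr, hle⟩ -
  have := hr
  intro f hf
  rw [hmm] at hf
  rw [← MvPolynomial.IsPrime.vanishingIdeal_zeroLocus (K := ℂ) r, mem_vanishingIdeal_iff]
  intro b hb
  rw [mem_zeroLocus_iff] at hb
  have hb0 : b = 0 := by
    refine hV b (fun g hg => ?_) (fun g hg => ?_)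
    · rw [← KRL_ev]
      exact hb g (hle (Ideal.mem_sup_left (hJp hg)))
    · have hg' : g = z := by simpa using hg
      subst hg'
      rw [← KRL_ev]
      exact hb g (hle (Ideal.mem_sup_right (Ideal.mem_span_singleton_self g)))
  subst hb0
  rw [KRL_ev]
  exact hf

end Pool.Agent.PLZ
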