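import Pool.Agent.PLZ.St

/-!
# PLZ [PRM]: permutations of regular sequences of forms
-/

set_option autoImplicit false

namespace Pool.Agent.PLZ

open MvPolynomial

/-- homogeneous components of a product with a form -/
private theorem PRM_comp {σ : Type} {a : MvPolynomial σ ℂ} {e : ℕ} (ha : a.IsHomogeneous e)
    (g : MvPolynomial σ ℂ) (d : ℕ) :
    homogeneousComponent d (a * g) =
      if e ≤ d then a * homogeneousComponent (d - e) g else 0 := by
  have h1 : a * g = ∑ i ∈ Finset.range (g.totalDegree + 1), a * homogeneousComponent i g := by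
    rw [← Finset.mul_sum, sum_homogeneousComponent]
  have h2 : ∀ i, homogeneousComponent d (a * homogeneousComponent i g) =
      if d = e + i then a * homogeneousComponent i g else 0 := fun i =>
    homogeneousComponent_of_mem (ha.mul (homogeneousComponent_isHomogeneous i g))
  rw [h1, map_sum, Finset.sum_congr rfl (fun i _ => h2 i)]
  by_cases hd : e ≤ d
  · rw [if_pos hd]
    by_cases h3 : d - e ∈ Finset.range (g.totalDegree + 1)
    · rw [Finset.sum_eq_single_of_mem (d - e) h3]
      · rw [if_pos (by omega)]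
      · intro i _ hi
        rw [if_neg (by omega)]
    · rw [Finset.sum_eq_zero]
      · rw [homogeneousComponent_eq_zero _ _ (by rw [Finset.mem_range] at h3; omega), mul_zero]
      · intro i hi
        rw [Finset.mem_range] at hi h3
        rw [if_neg (by omega)]
  · rw [if_neg hd, Finset.sum_eq_zero]
    intro i _
    rw [if_neg (by omega)]

private theorem PRM_all {σ : Type} {J : Ideal (MvPolynomial σ ℂ)} {h : MvPolynomial σ ℂ}
    (hc : ∀ d, homogeneousComponent d h ∈ J) : h ∈ J := by
  rw [← sum_homogeneousComponent h]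
  exact Ideal.sum_mem _ fun i _ => hc i

private theorem PRM_sup {R : Type} [CommRing R] {J : Ideal R} {a h : R} :
    h ∈ J ⊔ Ideal.span {a} ↔ ∃ j ∈ J, ∃ g, h = j + a * g := by
  constructor
  · intro hh
    obtain ⟨j, hj, b, hb, e⟩ := Submodule.mem_sup.1 hh
    obtain ⟨g, hg⟩ := Ideal.mem_span_singleton'.1 hb
    exact ⟨j, hj, g, by rw [← e, ← hg]; ring⟩
  · rintro ⟨j, hj, g, rfl⟩
    exact Ideal.add_mem _ (Ideal.mem_sup_left hj)
      (Ideal.mem_sup_right (Ideal.mem_span_singleton'.2 ⟨g, mul_comm _ _⟩))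

private theorem PRM_HI {σ : Type} {J : Ideal (MvPolynomial σ ℂ)} (hJ : HI J)
    {a : MvPolynomial σ ℂ} {e : ℕ} (ha : a.IsHomogeneous e) : HI (J ⊔ Ideal.span {a}) := by
  intro h hh d
  obtain ⟨j, hj, g, rfl⟩ := PRM_sup.1 hh
  rw [map_add, PRM_comp ha]
  split_ifs with hd
  · exact PRM_sup.2 ⟨_, hJ j hj d, _, rfl⟩
  · rw [add_zero]
    exact Ideal.mem_sup_left (hJ j hj d)

private theorem PRM_L2 {R : Type} [CommRing R] {J : Ideal R} {a b : R} (ha : NZ J a)
    (hb : NZ (J ⊔ Ideal.span {a}) b) : NZ (J ⊔ Ideal.span {b}) a := by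
  intro h hh
  obtain ⟨j, hj, h', e⟩ := PRM_sup.1 hh
  have h1 : b * h' ∈ J ⊔ Ideal.span {a} :=
    PRM_sup.2 ⟨-j, J.neg_mem hj, h, by rw [e]; ring⟩
  obtain ⟨j', hj', h'', e'⟩ := PRM_sup.1 (hb _ h1)
  have h2 : a * (h - b * h'') ∈ J := by
    have : a * (h - b * h'') = j + b * j' := by
      rw [mul_sub, e, e']
      ring
    rw [this]
    exact J.add_mem hj (J.mul_mem_left _ hj')
  exact PRM_sup.2 ⟨_, ha _ h2, h'', by ring⟩

private theorem PRM_L1 {σ : Type} {J : Ideal (MvPolynomial σ ℂ)} (hJ : HI J)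
    {a b : MvPolynomial σ ℂ} (hpa : PH a) (hpb : PH b) (ha : NZ J a)
    (hb : NZ (J ⊔ Ideal.span {a}) b) : NZ J b := by
  obtain ⟨e, he, hea⟩ := hpa
  obtain ⟨m, _, hmb⟩ := hpb
  have key : ∀ (d : ℕ) (h : MvPolynomial σ ℂ), h.IsHomogeneous d → b * h ∈ J → h ∈ J := by
    intro d
    induction d using Nat.strong_induction_on with
    | _ d ih =>
      intro h hh hbh
      obtain ⟨j, hj, g, eq⟩ := PRM_sup.1 (hb h (Ideal.mem_sup_left hbh))
      have h1 : h = homogeneousComponent d j +
          (if e ≤ d then a * homogeneousComponent (d - e) g else 0) := by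
        have h2 : homogeneousComponent d h = h := by
          rw [homogeneousComponent_of_mem (n := d) hh, if_pos rfl]
        rw [← PRM_comp hea, ← map_add, ← eq, h2]
      have hjd := hJ j hj d
      by_cases hd : e ≤ d
      · rw [if_pos hd] at h1
        have h3 : a * (b * homogeneousComponent (d - e) g) ∈ J := by
          have h4 : a * (b * homogeneousComponent (d - e) g) =
              b * h - b * homogeneousComponent d j := by
            rw [h1]
            ring_nf
          rw [h4]
          exact J.sub_mem hbh (J.mul_mem_left _ hjd)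
        have h5 := ih (d - e) (by omega) _ (homogeneousComponent_isHomogeneous _ _) (ha _ h3)
        rw [h1]
        exact J.add_mem hjd (J.mul_mem_left _ h5)
      · rw [if_neg hd, add_zero] at h1
        rw [h1]
        exact hjd
  intro h hbh
  refine PRM_all fun d => key d _ (homogeneousComponent_isHomogeneous _ _) ?_
  have h1 := hJ _ hbh (m + d)
  rw [PRM_comp hmb, if_pos (by omega), Nat.add_sub_cancel_left] at h1
  exact h1

theorem thm_PRM : St_PRM := by
  intro σ J l l' hJ hl hR hp
  induction hp generalizing J with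
  | nil => exact trivial
  | cons x _ ih =>
    obtain ⟨e, _, he⟩ := hl x List.mem_cons_self
    exact ⟨hR.1, ih _ (PRM_HI hJ he) (fun f hf => hl f (List.mem_cons_of_mem _ hf)) hR.2⟩
  | swap x y l =>
    have hx : PH x := hl x (by simp)
    have hy : PH y := hl y (by simp)
    obtain ⟨h1, h2, h3⟩ := hR
    refine ⟨PRM_L1 hJ hy hx h1 h2, PRM_L2 h1 h2, ?_⟩
    rw [sup_right_comm]
    exact h3
  | trans h12 _ ih1 ih2 =>
    exact ih2 _ hJ (fun f hf => hl f (h12.mem_iff.2 hf)) (ih1 _ hJ hl hR)

end Pool.Agent.PLZ
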