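import Pool.Agent.PLZ.St

/-!
# PLZ, module REA: from the real equation to `Pe` (helper57)
-/

set_option autoImplicit false

namespace Pool.Agent.PLZ

open MvPolynomial

theorem thm_REA : St_REA := by
  intro n m p u hm hp hu h
  have hp2 : p - 2 ≠ 0 := sub_ne_zero.2 hp
  have hm1 : ((m : ℝ) - 1) ≠ 0 := by
    have : (3 : ℝ) ≤ m := by exact_mod_cast hm
    intro h0
    linarith
  set Lp : MvPolynomial (Fin n) ℝ := ∑ i, pderiv i (pderiv i u) with hLp
  have key : (∑ i, pderiv i u ^ 2) * Lp +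
      C (p - 2) * ∑ i, ∑ j, pderiv i u * pderiv j u * pderiv i (pderiv j u) = 0 := by
    apply MvPolynomial.funext
    intro x
    have := h x
    simp only [hLp, map_add, map_mul, map_sum, map_pow, eval_C, map_zero]
    exact this
  have hom : Lp.IsHomogeneous (m - 2) := by
    refine IsHomogeneous.sum _ _ _ fun i _ => ?_
    have h1 : (pderiv i u).IsHomogeneous (m - 1) := hu.pderiv
    have h2 : (pderiv i (pderiv i u)).IsHomogeneous (m - 1 - 1) := h1.pderiv
    exact h2
  set c : ℝ := -((p - 2) * ((m : ℝ) - 1))⁻¹ with hc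
  refine ⟨C (c : ℂ) * map Complex.ofRealHom Lp, ?_, ?_⟩
  · have h1 := (isHomogeneous_C (Fin n) (c : ℂ)).mul (hom.map Complex.ofRealHom)
    rwa [zero_add] at h1
  · unfold Pe Gr
    have e1 : ∀ i, pderiv i (map Complex.ofRealHom u) = map Complex.ofRealHom (pderiv i u) :=
      fun i => pderiv_map
    have e2 : (∑ j, pderiv j (map Complex.ofRealHom u) ^ 2) =
        map Complex.ofRealHom (∑ j, pderiv j u ^ 2) := by
      simp only [e1, map_sum, map_pow]
    rw [e2]
    have e3 : ∀ i, pderiv i (map Complex.ofRealHom (∑ j, pderiv j u ^ 2)) =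
        map Complex.ofRealHom (pderiv i (∑ j, pderiv j u ^ 2)) := fun i => pderiv_map
    have e4 : (∑ i, pderiv i (map Complex.ofRealHom u) *
        pderiv i (map Complex.ofRealHom (∑ j, pderiv j u ^ 2))) =
        map Complex.ofRealHom (∑ i, pderiv i u * pderiv i (∑ j, pderiv j u ^ 2)) := by
      refine (Finset.sum_congr rfl fun i _ => ?_).trans (map_sum _ _ _).symm
      rw [e1, e3, map_mul]
    rw [e4]
    have e5 : (∑ i, pderiv i u * pderiv i (∑ j, pderiv j u ^ 2)) =
        C 2 * ∑ i, ∑ j, pderiv i u * pderiv j u * pderiv i (pderiv j u) := by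
      rw [Finset.mul_sum]
      refine Finset.sum_congr rfl fun i _ => ?_
      rw [map_sum, Finset.mul_sum, Finset.mul_sum]
      refine Finset.sum_congr rfl fun j _ => ?_
      rw [pderiv_pow]
      have : (C 2 : MvPolynomial (Fin n) ℝ) = 2 := map_ofNat C 2
      rw [this]
      push_cast
      ring
    have e6 : (∑ i, ∑ j, pderiv i u * pderiv j u * pderiv i (pderiv j u)) =
        C (-(p - 2)⁻¹) * ((∑ i, pderiv i u ^ 2) * Lp) := by
      have h1 : C (p - 2) * ∑ i, ∑ j, pderiv i u * pderiv j u * pderiv i (pderiv j u) =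
          -((∑ i, pderiv i u ^ 2) * Lp) := by
        linear_combination key
      have h2 : (C ((p - 2)⁻¹) : MvPolynomial (Fin n) ℝ) * C (p - 2) = 1 := by
        rw [← C_mul, inv_mul_cancel₀ hp2, C_1]
      calc (∑ i, ∑ j, pderiv i u * pderiv j u * pderiv i (pderiv j u))
          = (C ((p - 2)⁻¹) * C (p - 2)) *
            ∑ i, ∑ j, pderiv i u * pderiv j u * pderiv i (pderiv j u) := by rw [h2, one_mul]
        _ = C ((p - 2)⁻¹) * (-((∑ i, pderiv i u ^ 2) * Lp)) := by rw [mul_assoc, h1]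
        _ = _ := by rw [C_neg]; ring
    have e7 : (∑ i, pderiv i u * pderiv i (∑ j, pderiv j u ^ 2)) =
        C (2 * ((m : ℝ) - 1)) * (C c * Lp) * (∑ i, pderiv i u ^ 2) := by
      rw [e5, e6]
      have h3 : (2 : ℝ) * -(p - 2)⁻¹ = 2 * ((m : ℝ) - 1) * c := by
        rw [hc]
        field_simp
      have h4 : (C 2 : MvPolynomial (Fin n) ℝ) * C (-(p - 2)⁻¹) = C (2 * ((m : ℝ) - 1)) * C c := by
        rw [← C_mul, ← C_mul, h3]
      linear_combination ((∑ i, pderiv i u ^ 2) * Lp) * h4
    rw [e7]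
    simp only [map_mul, map_C]
    congr 3
    simp

end Pool.Agent.PLZ
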