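import Pool.Agent.PLZ.StB

/-!
# PLZ, module SEL: selection of linear combinations of forms (MP_d74254_an)
-/

set_option autoImplicit false

namespace Pool.Agent.PLZ

open MvPolynomial

/-- the linear combination of the two families -/
private noncomputable def SEL_h {σ : Type} {n r : ℕ} (F : Fin n → MvPolynomial σ ℂ)
    (G : Fin r → MvPolynomial σ ℂ) (c : Fin n → ℂ) (a : Fin r → ℂ) : MvPolynomial σ ℂ :=
  ∑ j, C (c j) * F j + ∑ l, C (a l) * G l

private theorem SEL_hom {σ : Type} {n r k : ℕ} {F : Fin n → MvPolynomial σ ℂ}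
    {G : Fin r → MvPolynomial σ ℂ} (hF : ∀ i, (F i).IsHomogeneous k)
    (hG : ∀ l, (G l).IsHomogeneous k) (c : Fin n → ℂ) (a : Fin r → ℂ) :
    (SEL_h F G c a).IsHomogeneous k := by
  have h1 : ∀ (t : ℂ) (f : MvPolynomial σ ℂ), f.IsHomogeneous k → (C t * f).IsHomogeneous k := by
    intro t f hf
    have h2 := (isHomogeneous_C σ t).mul hf
    rwa [zero_add] at h2
  exact IsHomogeneous.add (IsHomogeneous.sum _ _ _ fun j _ => h1 _ _ (hF j))
    (IsHomogeneous.sum _ _ _ fun l _ => h1 _ _ (hG l))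

private theorem SEL_eval {σ : Type} {n r : ℕ} (F : Fin n → MvPolynomial σ ℂ)
    (G : Fin r → MvPolynomial σ ℂ) (c : Fin n → ℂ) (a : Fin r → ℂ) (b : σ → ℂ) :
    eval b (SEL_h F G c a) = ∑ j, c j * eval b (F j) + ∑ l, a l * eval b (G l) := by
  unfold SEL_h
  rw [map_add, map_sum, map_sum]
  simp only [map_mul, eval_C]

/-- Nullstellensatz: a prime ideal with at most the zero `0` contains the variables -/
private theorem SEL_null {σ : Type} [Finite σ] {P : Ideal (MvPolynomial σ ℂ)} (hP : P.IsPrime)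
    (h : ∀ a : σ → ℂ, (∀ f ∈ P, eval a f = 0) → a = 0) (s : σ) : X s ∈ P := by
  have h1 : (X s : MvPolynomial σ ℂ) ∈ P.radical := by
    rw [← MvPolynomial.vanishingIdeal_zeroLocus_eq_radical (K := ℂ), mem_vanishingIdeal_iff]
    intro a ha
    rw [mem_zeroLocus_iff] at ha
    have ha0 : a = 0 := h a fun f hf => ha f hf
    subst ha0
    rw [aeval_X]
    rfl
  rwa [hP.radical] at h1

/-- a functional which vanishes on fewer than `n` vectors -/
private theorem SEL_fun {i n : ℕ} (hi : i < n) (c : Fin i → Fin n → ℂ) :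
    ∃ φ : Fin n → ℂ, φ ≠ 0 ∧ ∀ s, ∑ j, φ j * c s j = 0 := by
  have h1 : LinearMap.ker (Matrix.mulVecLin (Matrix.of c)) ≠ ⊥ := by
    refine LinearMap.ker_ne_bot_of_finrank_lt ?_
    rw [Module.finrank_fin_fun, Module.finrank_fin_fun]
    exact hi
  obtain ⟨φ, h2, h3⟩ := Submodule.exists_mem_ne_zero_of_ne_bot h1
  refine ⟨φ, h3, fun s => ?_⟩
  rw [LinearMap.mem_ker, Matrix.mulVecLin_apply] at h2
  have h4 := congrFun h2 s
  rw [Matrix.mulVec, dotProduct] at h4
  rw [Finset.sum_congr rfl fun j _ => mul_comm (φ j) (c s j)]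
  exact h4

/-- the induction -/
private theorem SEL_ind (h1 : St_AVF) (h2 : St_HOM) (h5 : St_KRL) {σ : Type} [Finite σ]
    {n r k : ℕ} (F z : Fin n → MvPolynomial σ ℂ) (G : Fin r → MvPolynomial σ ℂ)
    (L : MvPolynomial σ ℂ) (hk : 1 ≤ k) (hF : ∀ i, (F i).IsHomogeneous k)
    (hG : ∀ l, (G l).IsHomogeneous k) (hz : ∀ i, PH (z i)) (hL : PH L)
    (hvz : VZ ⊥ (L :: List.ofFn z)) (hvf : VZ ⊥ (L :: (List.ofFn F ++ List.ofFn G))) :
    ∀ i ≤ n, ∃ (c : Fin i → Fin n → ℂ) (a : Fin i → Fin r → ℂ), LinearIndependent ℂ c ∧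
      ∀ b : σ → ℂ, eval b L = 0 → (∀ s, eval b (SEL_h F G (c s) (a s)) = 0) →
        (∀ s : Fin n, i ≤ s.val → eval b (z s) = 0) → b = 0 := by
  intro i
  induction i with
  | zero =>
    intro _
    refine ⟨fun s => s.elim0, fun s => s.elim0, linearIndependent_empty_type, ?_⟩
    intro b hb1 _ hb3
    refine hvz b (fun f hf => ?_) fun f hf => ?_
    · rw [Ideal.mem_bot] at hf
      rw [hf, map_zero]
    · rcases List.mem_cons.1 hf with h3 | h3
      · rw [h3]
        exact hb1
      · rw [List.mem_ofFn] at h3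
        obtain ⟨s, rfl⟩ := h3
        exact hb3 s (Nat.zero_le _)
  | succ i ih =>
    intro hi
    obtain ⟨c, a, hci, hca⟩ := ih (by omega)
    obtain ⟨hb, hs, hp, hl⟩ := h2 σ
    -- the list of the other forms
    obtain ⟨l, hldef⟩ : ∃ l : List (MvPolynomial σ ℂ), l =
      L :: (List.ofFn (fun s => SEL_h F G (c s) (a s)) ++
        ((List.finRange n).filter (fun s => decide (i < s.val))).map z) := ⟨_, rfl⟩
    have hmem : ∀ f, f ∈ l ↔ f = L ∨ (∃ s, SEL_h F G (c s) (a s) = f) ∨
        ∃ s : Fin n, i < s.val ∧ z s = f := by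
      intro f
      rw [hldef, List.mem_cons, List.mem_append, List.mem_ofFn, List.mem_map]
      constructor
      · rintro (h3 | h3 | ⟨s, h3, h4⟩)
        · exact Or.inl h3
        · exact Or.inr (Or.inl h3)
        · rw [List.mem_filter] at h3
          exact Or.inr (Or.inr ⟨s, of_decide_eq_true h3.2, h4⟩)
      · rintro (h3 | h3 | ⟨s, h3, h4⟩)
        · exact Or.inl h3
        · exact Or.inr (Or.inl h3)
        · exact Or.inr (Or.inr ⟨s, List.mem_filter.2 ⟨List.mem_finRange s,
            decide_eq_true h3⟩, h4⟩)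
    have hlPH : ∀ f ∈ l, PH f := by
      intro f hf
      rcases (hmem f).1 hf with h3 | ⟨s, rfl⟩ | ⟨s, -, rfl⟩
      · rw [h3]
        exact hL
      · exact ⟨k, hk, SEL_hom hF hG _ _⟩
      · exact hz s
    obtain ⟨J, hJdef⟩ : ∃ J : Ideal (MvPolynomial σ ℂ), J = Ideal.ofList l := ⟨_, rfl⟩
    have hJ : HI J := by
      rw [hJdef]
      exact hl l hlPH
    have hsub : ∀ f ∈ l, f ∈ J := by
      intro f hf
      rw [hJdef]
      exact Ideal.subset_span hf
    have hJz : VZ J [z ⟨i, by omega⟩] := by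
      intro b hb1 hb2
      refine hca b (hb1 _ (hsub _ ((hmem _).2 (Or.inl rfl)))) (fun s => ?_) fun s hs2 => ?_
      · exact hb1 _ (hsub _ ((hmem _).2 (Or.inr (Or.inl ⟨s, rfl⟩))))
      · rcases Nat.lt_or_ge i s.val with h3 | h3
        · exact hb1 _ (hsub _ ((hmem _).2 (Or.inr (Or.inr ⟨s, h3, rfl⟩))))
        · have h4 : s = ⟨i, by omega⟩ := Fin.ext (by show s.val = i; omega)
          rw [h4]
          exact hb2 _ (List.mem_singleton_self _)
    obtain ⟨φ, hφ0, hφ⟩ := SEL_fun (by omega : i < n) c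
    obtain ⟨c', hc1, hc2⟩ := h1 σ (n + r) (Fin.append F G)
      {P | P ∈ J.minimalPrimes ∧ ∃ s, X s ∉ P} (Fin.append φ 0)
      (Set.Finite.subset (Ideal.finite_minimalPrimes_of_isNoetherianRing _ J) fun P hP => hP.1)
      (by
        rintro P ⟨hP, s, hsP⟩
        by_contra hcon
        push Not at hcon
        apply hsP
        refine SEL_null hP.1.1 (fun b hb1 => ?_) s
        refine hvf b (fun f hf => ?_) fun f hf => ?_
        · rw [Ideal.mem_bot] at hf
          rw [hf, map_zero]
        · rcases List.mem_cons.1 hf with h3 | h3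
          · rw [h3]
            exact hb1 _ (hP.1.2 (hsub _ ((hmem _).2 (Or.inl rfl))))
          · rcases List.mem_append.1 h3 with h3 | h3
            · rw [List.mem_ofFn] at h3
              obtain ⟨j, rfl⟩ := h3
              have h4 := hcon (Fin.castAdd r j)
              rw [Fin.append_left] at h4
              exact hb1 _ h4
            · rw [List.mem_ofFn] at h3
              obtain ⟨j, rfl⟩ := h3
              have h4 := hcon (Fin.natAdd n j)
              rw [Fin.append_right] at h4
              exact hb1 _ h4)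
      (by
        intro h3
        apply hφ0
        funext j
        have h4 := congrFun h3 (Fin.castAdd r j)
        rw [Fin.append_left] at h4
        exact h4)
    obtain ⟨c0, hc0⟩ : ∃ c0 : Fin n → ℂ, c0 = fun j => c' (Fin.castAdd r j) := ⟨_, rfl⟩
    obtain ⟨a0, ha0⟩ : ∃ a0 : Fin r → ℂ, a0 = fun j => c' (Fin.natAdd n j) := ⟨_, rfl⟩
    have hc1' : ∑ j, φ j * c0 j ≠ 0 := by
      intro h3
      apply hc1
      rw [Fin.sum_univ_add]
      simp only [Fin.append_left, Fin.append_right, Pi.zero_apply, zero_mul,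
        Finset.sum_const_zero, add_zero]
      rw [hc0] at h3
      exact h3
    have hw : ∀ P ∈ J.minimalPrimes, (∃ s, X s ∉ P) → SEL_h F G c0 a0 ∉ P := by
      intro P hP hP2 h3
      refine hc2 P ⟨hP, hP2⟩ ?_
      rw [Fin.sum_univ_add]
      simp only [Fin.append_left, Fin.append_right]
      rw [hc0, ha0] at h3
      exact h3
    have hVw : VZ J [SEL_h F G c0 a0] :=
      h5 σ J (z ⟨i, by omega⟩) _ hJ (hz _) ⟨k, hk, SEL_hom hF hG _ _⟩ hJz hw
    refine ⟨Fin.snoc (α := fun _ => Fin n → ℂ) c c0, Fin.snoc (α := fun _ => Fin r → ℂ) a a0,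
      ?_, ?_⟩
    · rw [linearIndependent_finSnoc]
      refine ⟨hci, fun h3 => hc1' ?_⟩
      refine Submodule.span_induction (p := fun v _ => ∑ j, φ j * v j = 0) ?_ ?_ ?_ ?_ h3
      · rintro v ⟨s, rfl⟩
        exact hφ s
      · exact Finset.sum_eq_zero fun j _ => mul_zero _
      · intro v w _ _ hv hw'
        have h4 : ∑ j, φ j * (v + w) j = ∑ j, φ j * v j + ∑ j, φ j * w j := by
          rw [← Finset.sum_add_distrib]
          exact Finset.sum_congr rfl fun j _ => by rw [Pi.add_apply, mul_add]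
        rw [h4, hv, hw', add_zero]
      · intro t v _ hv
        have h4 : ∑ j, φ j * (t • v) j = t * ∑ j, φ j * v j := by
          rw [Finset.mul_sum]
          exact Finset.sum_congr rfl fun j _ => by rw [Pi.smul_apply, smul_eq_mul]; ring
        rw [h4, hv, mul_zero]
    · intro b hb1 hb2 hb3
      refine hVw b ?_ ?_
      · have h3 : J ≤ RingHom.ker (eval b) := by
          rw [hJdef]
          refine Ideal.span_le.2 fun f hf => ?_
          rw [SetLike.mem_coe, RingHom.mem_ker]
          rcases (hmem f).1 hf with h4 | ⟨s, rfl⟩ | ⟨s, h4, rfl⟩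
          · rw [h4]
            exact hb1
          · have h5' := hb2 s.castSucc
            rw [Fin.snoc_castSucc, Fin.snoc_castSucc] at h5'
            exact h5'
          · exact hb3 s (by omega)
        intro f hf
        exact (RingHom.mem_ker).1 (h3 hf)
      · intro f hf
        rw [List.mem_singleton] at hf
        rw [hf]
        have h5' := hb2 (Fin.last i)
        rw [Fin.snoc_last, Fin.snoc_last] at h5'
        exact h5'

theorem thm_SEL (h1 : St_AVF) (h2 : St_HOM) (h5 : St_KRL) : St_SEL := by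
  intro σ _ n r k F z G L hk hF hG hz hL hvz hvf
  obtain ⟨c, a, hc, hca⟩ := SEL_ind h1 h2 h5 F z G L hk hF hG hz hL hvz hvf n le_rfl
  have hu : IsUnit (Matrix.of c) := Matrix.linearIndependent_rows_iff_isUnit.1 hc
  obtain ⟨A, hA⟩ : ∃ A : Matrix (Fin n) (Fin r) ℂ, A = (Matrix.of c)⁻¹ * Matrix.of a := ⟨_, rfl⟩
  have hMA : Matrix.of c * A = Matrix.of a := by
    rw [hA, ← Matrix.mul_assoc, Matrix.mul_nonsing_inv _ ((Matrix.isUnit_iff_isUnit_det _).1 hu),
      Matrix.one_mul]
  refine ⟨fun i l => A i l, fun b _ hb2 => ?_⟩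
  have hbF : ∀ i, eval b (F i) = - ∑ l, A i l * eval b (G l) := by
    intro i
    have h3 := hb2 (F i + ∑ l, C (A i l) * G l)
      (List.mem_cons_of_mem _ (List.mem_ofFn.2 ⟨i, rfl⟩))
    rw [map_add, map_sum] at h3
    simp only [map_mul, eval_C] at h3
    exact eq_neg_of_add_eq_zero_left h3
  refine hca b (hb2 L (List.mem_cons_self ..)) (fun s => ?_) fun s hs => ?_
  · rw [SEL_eval]
    have h3 : ∑ j, c s j * eval b (F j) = - ∑ l, a s l * eval b (G l) := by
      have h4 : ∀ l, a s l = ∑ j, c s j * A j l := by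
        intro l
        have h5' := congrFun (congrFun hMA s) l
        rw [Matrix.mul_apply] at h5'
        exact h5'.symm
      calc ∑ j, c s j * eval b (F j)
          = ∑ j, c s j * (- ∑ l, A j l * eval b (G l)) :=
            Finset.sum_congr rfl fun j _ => by rw [hbF j]
        _ = - ∑ j, ∑ l, c s j * A j l * eval b (G l) := by
            rw [← Finset.sum_neg_distrib]
            refine Finset.sum_congr rfl fun j _ => ?_
            rw [mul_neg, Finset.mul_sum]
            refine congrArg _ (Finset.sum_congr rfl fun l _ => ?_)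
            ring
        _ = - ∑ l, ∑ j, c s j * A j l * eval b (G l) := by rw [Finset.sum_comm]
        _ = - ∑ l, a s l * eval b (G l) := by
            refine congrArg _ (Finset.sum_congr rfl fun l _ => ?_)
            rw [h4 l, Finset.sum_mul]
    rw [h3, neg_add_cancel]
  · exact absurd s.isLt (by omega)

end Pool.Agent.PLZ
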