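import Pool.Agent.PLZ.St

/-!
# PLZ, module SOP: systems of parameters are regular (MP_d74254_an)
-/

set_option autoImplicit false

namespace Pool.Agent.PLZ

open MvPolynomial

private theorem SOP_append {R : Type} [CommRing R] (l l' : List R) : ∀ J : Ideal R,
    RS J (l ++ l') ↔ RS J l ∧ RS (J ⊔ Ideal.ofList l) l' := by
  induction l with
  | nil =>
    intro J
    rw [List.nil_append, Ideal.ofList_nil, sup_bot_eq]
    exact ⟨fun h => ⟨trivial, h⟩, fun h => h.2⟩
  | cons a l ih =>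
    intro J
    rw [List.cons_append, Ideal.ofList_cons, ← sup_assoc]
    constructor
    · rintro ⟨h1, h2⟩
      obtain ⟨h3, h4⟩ := (ih _).1 h2
      exact ⟨⟨h1, h3⟩, h4⟩
    · rintro ⟨⟨h1, h2⟩, h3⟩
      exact ⟨h1, (ih _).2 ⟨h2, h3⟩⟩

private theorem SOP_zero {σ : Type} {z : MvPolynomial σ ℂ} (hz : PH z) : eval 0 z = 0 := by
  obtain ⟨d, hd, hh⟩ := hz
  have h1 : eval (0 : σ → ℂ) z = coeff 0 z := by
    rw [MvPolynomial.eval_zero, constantCoeff_eq]
  rw [h1]
  refine hh.coeff_eq_zero ?_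
  rw [map_zero]
  omega

private theorem SOP_vz1 {σ : Type} {J : Ideal (MvPolynomial σ ℂ)} {z : MvPolynomial σ ℂ}
    {l : List (MvPolynomial σ ℂ)} (h : VZ J (z :: l)) : VZ (J ⊔ Ideal.ofList l) [z] := by
  intro a h1 h2
  refine h a (fun f hf => h1 f (Ideal.mem_sup_left hf)) fun f hf => ?_
  rcases List.mem_cons.1 hf with h3 | h3
  · exact h2 f (by rw [h3]; exact List.mem_singleton_self z)
  · exact h1 f (Ideal.mem_sup_right (Ideal.subset_span h3))

private theorem SOP_vz2 {σ : Type} {J : Ideal (MvPolynomial σ ℂ)} {w : MvPolynomial σ ℂ}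
    {l : List (MvPolynomial σ ℂ)} (h : VZ (J ⊔ Ideal.ofList l) [w]) :
    VZ (J ⊔ Ideal.span {w}) l := by
  intro a h1 h2
  refine h a ?_ ?_
  · have h3 : J ⊔ Ideal.ofList l ≤ RingHom.ker (eval a) := by
      refine sup_le (fun f hf => ?_) (Ideal.span_le.2 fun f hf => ?_)
      · exact (RingHom.mem_ker).2 (h1 f (Ideal.mem_sup_left hf))
      · exact (RingHom.mem_ker).2 (h2 f hf)
    intro f hf
    exact (RingHom.mem_ker).1 (h3 hf)
  · intro f hf
    rw [List.mem_singleton] at hf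
    rw [hf]
    exact h1 w (Ideal.mem_sup_right (Ideal.mem_span_singleton_self w))

theorem thm_SOP (h1 : St_AVO) (h2 : St_HOM) (h3 : St_PRM) (h4 : St_EXG) (h5 : St_KRL) :
    St_SOP := by
  intro σ _ J zs
  obtain ⟨hb, hs, hp, hl⟩ := h2 σ
  induction zs generalizing J with
  | nil =>
    intro ys hlen _ _ _ _ _ _
    have h6 : ys = [] := List.length_eq_zero_iff.1 hlen.symm
    rw [h6]
    exact trivial
  | cons z zs ih =>
    intro ys hlen hJ hzs hys hrs hvz hvy
    obtain ⟨y, ys, rfl⟩ : ∃ y ys', ys = y :: ys' := by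
      cases ys with
      | nil => simp at hlen
      | cons y ys' => exact ⟨y, ys', rfl⟩
    have hlen' : zs.length = ys.length := by simpa using hlen
    have hz : PH z := hzs z (List.mem_cons_self ..)
    have hy : PH y := hys y (List.mem_cons_self ..)
    have hzs' : ∀ f ∈ zs, PH f := fun f hf => hzs f (List.mem_cons_of_mem _ hf)
    have hys' : ∀ f ∈ ys, PH f := fun f hf => hys f (List.mem_cons_of_mem _ hf)
    -- the linear form
    obtain ⟨n, ⟨e⟩⟩ := Finite.exists_equiv_fin σ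
    obtain ⟨c, hc⟩ := h1 σ n (fun j => X (e.symm j))
      {P | (P ∈ (J ⊔ Ideal.ofList zs).minimalPrimes ∨ P ∈ (J ⊔ Ideal.ofList ys).minimalPrimes) ∧
        ∃ s, X s ∉ P}
      (Set.Finite.subset ((Ideal.finite_minimalPrimes_of_isNoetherianRing _
        (J ⊔ Ideal.ofList zs)).union (Ideal.finite_minimalPrimes_of_isNoetherianRing _
        (J ⊔ Ideal.ofList ys))) fun P hP => hP.1)
      (by
        rintro P ⟨-, s, hs'⟩
        refine ⟨e s, ?_⟩
        rw [Equiv.symm_apply_apply]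
        exact hs')
    obtain ⟨w, hw⟩ : ∃ w : MvPolynomial σ ℂ, w = ∑ j, C (c j) * X (e.symm j) := ⟨_, rfl⟩
    have hwP : PH w := by
      refine ⟨1, le_rfl, ?_⟩
      rw [hw]
      refine IsHomogeneous.sum _ _ _ fun j _ => ?_
      have h6 := (isHomogeneous_C σ (c j)).mul (isHomogeneous_X ℂ (e.symm j))
      rwa [zero_add] at h6
    have hvw1 : VZ (J ⊔ Ideal.ofList zs) [w] := by
      refine h5 σ _ z w (hs _ _ hJ (hl _ hzs')) hz hwP (SOP_vz1 hvz) fun P hP hP2 => ?_
      rw [hw]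
      exact hc P ⟨Or.inl hP, hP2⟩
    have hvw2 : VZ (J ⊔ Ideal.ofList ys) [w] := by
      refine h5 σ _ y w (hs _ _ hJ (hl _ hys')) hy hwP (SOP_vz1 hvy) fun P hP hP2 => ?_
      rw [hw]
      exact hc P ⟨Or.inr hP, hP2⟩
    -- exchange `z` for `w`
    have ha : RS J (zs ++ [z]) := h3 σ J (z :: zs) (zs ++ [z]) hJ hzs hrs
      (List.perm_append_singleton z zs).symm
    obtain ⟨ha1, ha2⟩ := (SOP_append _ _ _).1 ha
    have ha3 : NZ (J ⊔ Ideal.ofList zs) w := h4 σ _ z w (SOP_zero hz) ha2.1 hvw1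
    have ha4 : RS J (zs ++ [w]) := (SOP_append _ _ _).2 ⟨ha1, ha3, trivial⟩
    have ha5 : RS J (w :: zs) := by
      refine h3 σ J (zs ++ [w]) (w :: zs) hJ (fun f hf => ?_) ha4
        (List.perm_append_singleton w zs)
      rcases List.mem_append.1 hf with h6 | h6
      · exact hzs' f h6
      · rw [List.mem_singleton.1 h6]
        exact hwP
    -- induction
    have hJw : HI (J ⊔ Ideal.span {w}) := by
      obtain ⟨d, -, hd⟩ := hwP
      exact hs _ _ hJ (hp w d hd)
    have hb1 : RS (J ⊔ Ideal.span {w}) ys :=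
      ih (J ⊔ Ideal.span {w}) ys hlen' hJw hzs' hys' ha5.2 (SOP_vz2 hvw1) (SOP_vz2 hvw2)
    have hb2 : RS J (w :: ys) := ⟨ha5.1, hb1⟩
    have hb3 : RS J (ys ++ [w]) := by
      refine h3 σ J (w :: ys) (ys ++ [w]) hJ (fun f hf => ?_) hb2
        (List.perm_append_singleton w ys).symm
      rcases List.mem_cons.1 hf with h6 | h6
      · rw [h6]
        exact hwP
      · exact hys' f h6
    obtain ⟨hb4, hb5⟩ := (SOP_append _ _ _).1 hb3
    have hb6 : NZ (J ⊔ Ideal.ofList ys) y := h4 σ _ w y (SOP_zero hwP) hb5.1 (SOP_vz1 hvy)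
    have hb7 : RS J (ys ++ [y]) := (SOP_append _ _ _).2 ⟨hb4, hb6, trivial⟩
    refine h3 σ J (ys ++ [y]) (y :: ys) hJ (fun f hf => ?_) hb7
      (List.perm_append_singleton y ys)
    rcases List.mem_append.1 hf with h6 | h6
    · exact hys' f h6
    · rw [List.mem_singleton.1 h6]
      exact hy

end Pool.Agent.PLZ
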