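import Pool.Agent.PLZ.St

/-!
# PLZ SRD: algebraic Sard

A transcendental element `v` of a finitely generated field extension `K` of `ℂ` has a derivation
`D` of `K` over `ℂ` with `D v = 1` (formal smoothness of `K` over `ℂ[X]`).
-/

set_option autoImplicit false

namespace Pool.Agent.PLZ

open MvPolynomial

/-- a derivation with `D v = 1` for a transcendental element `v` -/
theorem SRD_deriv {K : Type} [Field K] [Algebra ℂ K] [Algebra.EssFiniteType ℂ K] (v : K)
    (hv : Function.Injective (Polynomial.aeval (R := ℂ) v)) :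
    ∃ D : Derivation ℂ K K, D v = 1 := by
  classical
  let a1 : Algebra (Polynomial ℂ) K := (Polynomial.aeval (R := ℂ) v).toRingHom.toAlgebra
  have ham : ∀ h : Polynomial ℂ, algebraMap (Polynomial ℂ) K h = Polynomial.aeval v h :=
    fun h => rfl
  have t1 : IsScalarTower ℂ (Polynomial ℂ) K := by
    refine IsScalarTower.of_algebraMap_eq fun c => ?_
    rw [ham, Polynomial.algebraMap_apply, Polynomial.aeval_C]
    simp
  have f1 : FaithfulSMul (Polynomial ℂ) K := by
    rw [faithfulSMul_iff_algebraMap_injective]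
    exact hv
  let a2 : Algebra (FractionRing (Polynomial ℂ)) K := FractionRing.liftAlgebra (Polynomial ℂ) K
  have t2 : IsScalarTower (Polynomial ℂ) (FractionRing (Polynomial ℂ)) K :=
    FractionRing.isScalarTower_liftAlgebra (Polynomial ℂ) K
  have t3 : IsScalarTower ℂ (FractionRing (Polynomial ℂ)) K :=
    IsScalarTower.to₁₃₄ ℂ (Polynomial ℂ) (FractionRing (Polynomial ℂ)) K
  have e1 : Algebra.EssFiniteType (FractionRing (Polynomial ℂ)) K :=
    Algebra.EssFiniteType.of_comp ℂ (FractionRing (Polynomial ℂ)) K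
  have s1 : Algebra.FormallySmooth (FractionRing (Polynomial ℂ)) K :=
    Algebra.FormallySmooth.of_perfectField
  have s2 : Algebra.FormallySmooth (Polynomial ℂ) (FractionRing (Polynomial ℂ)) :=
    Algebra.FormallySmooth.of_isLocalization (nonZeroDivisors (Polynomial ℂ))
  have s3 : Algebra.FormallySmooth (Polynomial ℂ) K :=
    Algebra.FormallySmooth.comp (Polynomial ℂ) (FractionRing (Polynomial ℂ)) K
  let t : TrivSqZeroExt K K := TrivSqZeroExt.inl v + TrivSqZeroExt.inr 1
  let a3 : Algebra (Polynomial ℂ) (TrivSqZeroExt K K) :=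
    (Polynomial.aeval (R := ℂ) t).toRingHom.toAlgebra
  have ham3 : ∀ h : Polynomial ℂ,
      algebraMap (Polynomial ℂ) (TrivSqZeroExt K K) h = Polynomial.aeval t h := fun h => rfl
  let g : (TrivSqZeroExt K K) →ₐ[Polynomial ℂ] K :=
    { (TrivSqZeroExt.fstHom ℂ K K).toRingHom with
      commutes' := fun h => by
        change (TrivSqZeroExt.fstHom ℂ K K) (Polynomial.aeval t h) = Polynomial.aeval v h
        rw [← Polynomial.aeval_algHom_apply]
        simp [t] }
  have hg : ∀ x, g x = x.fst := fun x => rfl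
  have gsurj : Function.Surjective g := fun x => ⟨TrivSqZeroExt.inl x, by rw [hg]; simp⟩
  have gker : IsNilpotent (RingHom.ker (g : (TrivSqZeroExt K K) →+* K)) := by
    refine ⟨2, ?_⟩
    have h2 : RingHom.ker (g : (TrivSqZeroExt K K) →+* K) ^ 2 =
        RingHom.ker (g : (TrivSqZeroExt K K) →+* K) *
          RingHom.ker (g : (TrivSqZeroExt K K) →+* K) := by
      exact sq _
    refine h2.trans ?_
    rw [Submodule.zero_eq_bot, eq_bot_iff]
    refine Ideal.mul_le.2 fun r hr s hs => ?_
    have hr' : r.fst = 0 := hr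
    have hs' : s.fst = 0 := hs
    rw [Ideal.mem_bot]
    ext <;> simp [hr', hs']
  let psi : K →ₐ[Polynomial ℂ] (TrivSqZeroExt K K) :=
    Algebra.FormallySmooth.liftOfSurjective (AlgHom.id (Polynomial ℂ) K) g gsurj gker
  have hpsi : ∀ x, (psi x).fst = x := fun x =>
    Algebra.FormallySmooth.liftOfSurjective_apply (AlgHom.id (Polynomial ℂ) K) g gsurj gker x
  have hc : ∀ c : ℂ, psi (algebraMap ℂ K c) = TrivSqZeroExt.inl (algebraMap ℂ K c) := by
    intro c
    have h1 : algebraMap ℂ K c = algebraMap (Polynomial ℂ) K (Polynomial.C c) := by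
      rw [ham, Polynomial.aeval_C]
    have h2 : psi (algebraMap (Polynomial ℂ) K (Polynomial.C c)) =
        algebraMap (Polynomial ℂ) (TrivSqZeroExt K K) (Polynomial.C c) := psi.commutes _
    rw [h1, h2, ham3, Polynomial.aeval_C, ← h1]
    rfl
  let L : K →ₗ[ℂ] K :=
    { toFun := fun x => (psi x).snd
      map_add' := fun x y => by rw [map_add]; rfl
      map_smul' := fun c x => by
        rw [Algebra.smul_def, map_mul, hc]
        simp [Algebra.smul_def] }
  refine ⟨Derivation.mk' L fun a b => ?_, ?_⟩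
  · change (psi (a * b)).snd = a • (psi b).snd + b • (psi a).snd
    rw [map_mul, TrivSqZeroExt.snd_mul, hpsi, hpsi]
    simp [mul_comm]
  · change (psi v).snd = 1
    have h1 : v = algebraMap (Polynomial ℂ) K Polynomial.X := by
      rw [ham, Polynomial.aeval_X]
    have h2 : psi (algebraMap (Polynomial ℂ) K Polynomial.X) =
        algebraMap (Polynomial ℂ) (TrivSqZeroExt K K) Polynomial.X := psi.commutes _
    conv_lhs => rw [h1]
    rw [h2, ham3, Polynomial.aeval_X]
    simp [t]

/-- chain rule for a derivation of an algebra over the polynomial ring -/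
theorem SRD_chain {n : ℕ} {K : Type} [Field K] [Algebra ℂ K] (φ : MvPolynomial (Fin n) ℂ →ₐ[ℂ] K)
    (D : Derivation ℂ K K) (f : MvPolynomial (Fin n) ℂ) :
    D (φ f) = ∑ i, φ (pderiv i f) * D (φ (X i)) := by
  induction f using MvPolynomial.induction_on with
  | C c =>
    have h1 : φ (C c) = algebraMap ℂ K c := by
      rw [← MvPolynomial.algebraMap_eq]
      exact φ.commutes c
    rw [h1, Derivation.map_algebraMap]
    symm
    refine Finset.sum_eq_zero fun i _ => ?_
    rw [pderiv_C, map_zero, zero_mul]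
  | add p q hp hq =>
    rw [map_add, map_add, hp, hq, ← Finset.sum_add_distrib]
    refine Finset.sum_congr rfl fun i _ => ?_
    rw [map_add, map_add, add_mul]
  | mul_X p j hp =>
    rw [map_mul, Derivation.leibniz, hp, smul_eq_mul, smul_eq_mul]
    have h1 : ∀ i, φ (pderiv i (p * X j)) * D (φ (X i)) =
        φ (X j) * (φ (pderiv i p) * D (φ (X i))) +
          (if j = i then φ p * D (φ (X j)) else 0) := by
      intro i
      rw [pderiv_mul, pderiv_X]
      by_cases hij : j = i
      · subst hij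
        simp
        ring
      · rw [if_neg hij]
        simp [Pi.single_apply, hij]
        ring
    rw [Finset.sum_congr rfl fun i _ => h1 i, Finset.sum_add_distrib, ← Finset.mul_sum]
    simp
    ring

theorem thm_SRD : St_SRD := by
  classical
  intro n m u hm hu
  by_contra hcon
  have hcon' : ∀ γ : ℂ, γ ≠ 0 → ∃ (a : Fin n → ℂ) (lam : ℂ),
      (∀ i, eval a (pderiv i u) = lam * a i) ∧ ∑ i, a i ^ 2 = 1 ∧ lam ^ 2 = γ := by
    intro γ hγ
    by_contra h
    refine hcon ⟨γ, hγ, fun a lam h1 h2 h3 => h ⟨a, lam, h1, h2, h3⟩⟩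
  let S : Set (MvPolynomial (Fin n) ℂ) := {∑ i, X i ^ 2 - 1} ∪
    Set.range (fun i => pderiv i u - C (m : ℂ) * u * X i)
  let I : Ideal (MvPolynomial (Fin n) ℂ) := Ideal.span S
  let w : MvPolynomial (Fin n) ℂ := C ((m : ℂ) ^ 2) * u ^ 2
  have hpt : ∀ γ : ℂ, γ ≠ 0 → ∃ a : Fin n → ℂ, (∀ f ∈ I, eval a f = 0) ∧ eval a w = γ := by
    intro γ hγ
    obtain ⟨a, lam, h1, h2, h3⟩ := hcon' γ hγ
    have hE := congrArg (eval a) hu.sum_X_mul_pderiv
    have hlam : lam = m * eval a u := by
      have e1 : eval a (∑ i, X i * pderiv i u) = lam := by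
        rw [map_sum]
        have : ∀ i, eval a (X i * pderiv i u) = lam * a i ^ 2 := by
          intro i
          rw [map_mul, eval_X, h1 i]
          ring
        rw [Finset.sum_congr rfl fun i _ => this i, ← Finset.mul_sum, h2, mul_one]
      rw [e1] at hE
      rw [hE]
      simp
    refine ⟨a, ?_, ?_⟩
    · intro f hf
      have hle : I ≤ RingHom.ker (eval a) := by
        refine Ideal.span_le.2 ?_
        rintro g (hg | ⟨i, rfl⟩)
        · rw [Set.mem_singleton_iff] at hg
          subst hg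
          simp [RingHom.mem_ker, h2]
        · simp only [SetLike.mem_coe, RingHom.mem_ker, map_sub, map_mul, eval_C, eval_X, h1 i]
          rw [hlam]
          ring
      exact hle hf
    · simp only [w, map_mul, eval_C, map_pow]
      rw [← h3, hlam]
      ring
  have hinj : ∀ h : Polynomial ℂ, Polynomial.aeval w h ∈ I → h = 0 := by
    intro h hh
    by_contra hne
    have hfin : (h.roots.toFinset : Set ℂ).Finite := Finset.finite_toSet _
    have hinf : (({0} : Set ℂ) ∪ (h.roots.toFinset : Set ℂ)).Finite :=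
      (Set.finite_singleton _).union hfin
    obtain ⟨γ, hγ⟩ := hinf.infinite_compl.nonempty
    have hγ0 : γ ≠ 0 := fun e => hγ (Or.inl e)
    obtain ⟨a, ha, haw⟩ := hpt γ hγ0
    have h1 := ha _ hh
    have h2 : eval a (Polynomial.aeval w h) = h.eval γ := by
      have := Polynomial.aeval_algHom_apply (MvPolynomial.aeval (R := ℂ) a) w h
      have e3 : (MvPolynomial.aeval (R := ℂ) a) w = γ := by
        rw [← haw]
        rfl
      rw [e3] at this
      have e4 : (MvPolynomial.aeval (R := ℂ) a) (Polynomial.aeval w h) =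
        eval a (Polynomial.aeval w h) := rfl
      rw [← e4, ← this, Polynomial.coe_aeval_eq_eval]
    rw [h2] at h1
    refine hγ (Or.inr ?_)
    simp only [Finset.mem_coe, Multiset.mem_toFinset, Polynomial.mem_roots hne,
      Polynomial.IsRoot.def]
    exact h1
  let M : Submonoid (MvPolynomial (Fin n) ℂ) :=
    (nonZeroDivisors (Polynomial ℂ)).map (Polynomial.aeval (R := ℂ) w)
  have hdis : Disjoint (I : Set (MvPolynomial (Fin n) ℂ)) (M : Set (MvPolynomial (Fin n) ℂ)) := by
    rw [Set.disjoint_left]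
    rintro f hf ⟨h, hh, rfl⟩
    exact nonZeroDivisors.ne_zero hh (hinj h hf)
  obtain ⟨P, hP, hIP, hPM⟩ := Ideal.exists_le_prime_disjoint I M hdis
  let K : Type := FractionRing (MvPolynomial (Fin n) ℂ ⧸ P)
  let φ : MvPolynomial (Fin n) ℂ →ₐ[ℂ] K :=
    (IsScalarTower.toAlgHom ℂ (MvPolynomial (Fin n) ℂ ⧸ P) K).comp (Ideal.Quotient.mkₐ ℂ P)
  have hφ : ∀ f, φ f = 0 ↔ f ∈ P := by
    intro f
    change algebraMap (MvPolynomial (Fin n) ℂ ⧸ P) K (Ideal.Quotient.mk P f) = 0 ↔ _
    rw [IsFractionRing.to_map_eq_zero_iff, Ideal.Quotient.eq_zero_iff_mem]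
  have hv : Function.Injective (Polynomial.aeval (R := ℂ) (φ w)) := by
    rw [injective_iff_map_eq_zero]
    intro h hh
    by_contra hne
    rw [Polynomial.aeval_algHom_apply, hφ] at hh
    exact Set.disjoint_left.1 hPM hh ⟨h, mem_nonZeroDivisors_of_ne_zero hne, rfl⟩
  obtain ⟨D, hD⟩ := SRD_deriv (K := K) (φ w) hv
  have hI0 : ∀ f ∈ I, φ f = 0 := fun f hf => (hφ f).2 (hIP hf)
  have hq : φ (∑ i, X i ^ 2 - 1) = 0 := hI0 _ (Ideal.subset_span (Or.inl rfl))
  have hgr : ∀ i, φ (pderiv i u) = (m : K) * φ u * φ (X i) := by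
    intro i
    have h := hI0 _ (Ideal.subset_span (Or.inr ⟨i, rfl⟩))
    rw [map_sub, sub_eq_zero] at h
    rw [h, map_mul, map_mul]
    congr 2
    rw [← MvPolynomial.algebraMap_eq, φ.commutes]
    simp
  have hsum : ∑ i, φ (X i) * D (φ (X i)) = 0 := by
    have h1 : D (φ (∑ i, X i ^ 2 - 1)) = 0 := by rw [hq, map_zero]
    have h2 : φ (∑ i, X i ^ 2 - 1) = ∑ i, φ (X i) ^ 2 - 1 := by
      simp [map_sub, map_sum]
    rw [h2, map_sub, map_sum] at h1
    have h3 : ∀ i, D (φ (X i) ^ 2) = 2 * (φ (X i) * D (φ (X i))) := by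
      intro i
      rw [pow_two, Derivation.leibniz, smul_eq_mul]
      ring
    rw [Finset.sum_congr rfl fun i _ => h3 i, ← Finset.mul_sum, Derivation.map_one_eq_zero,
      sub_zero] at h1
    have : CharZero K := charZero_of_injective_algebraMap (algebraMap ℂ K).injective
    rcases mul_eq_zero.1 h1 with h | h
    · exact absurd h two_ne_zero
    · exact h
  have hDu : D (φ u) = 0 := by
    rw [SRD_chain φ D u]
    have : ∀ i, φ (pderiv i u) * D (φ (X i)) = (m : K) * φ u * (φ (X i) * D (φ (X i))) := by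
      intro i
      rw [hgr i]
      ring
    rw [Finset.sum_congr rfl fun i _ => this i, ← Finset.mul_sum, hsum, mul_zero]
  have hDw : D (φ w) = 0 := by
    have h1 : φ w = algebraMap ℂ K ((m : ℂ) ^ 2) * (φ u) ^ 2 := by
      simp only [w, map_mul, map_pow]
      congr 1
    rw [h1, pow_two (φ u), Derivation.leibniz, Derivation.leibniz, hDu,
      Derivation.map_algebraMap]
    simp
  rw [hDw] at hD
  exact zero_ne_one hD

end Pool.Agent.PLZ
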