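import Pool.Agent.PLZ.St

/-!
# PLZ VAR: the variables form a regular sequence
-/

set_option autoImplicit false

namespace Pool.Agent.PLZ

open MvPolynomial

private theorem VAR_nz {σ : Type} (s : Set σ) (a : σ) (ha : a ∉ s) :
    NZ (Ideal.span (X '' s) : Ideal (MvPolynomial σ ℂ)) (X a) := by
  intro h hh
  rw [mem_ideal_span_X_image] at hh ⊢
  intro m hm
  have hm' : Finsupp.single a 1 + m ∈ (X a * h).support := by
    rw [mem_support_iff] at hm ⊢
    rw [coeff_X_mul]
    exact hm
  obtain ⟨i, hi, hne⟩ := hh _ hm'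
  refine ⟨i, hi, ?_⟩
  have hia : a ≠ i := fun e => ha (e ▸ hi)
  intro h0
  apply hne
  rw [Finsupp.add_apply, Finsupp.single_eq_of_ne (Ne.symm hia), h0]

private theorem VAR_rs {σ : Type} (l : List σ) : ∀ s : Set σ, l.Nodup → (∀ a ∈ l, a ∉ s) →
    RS (Ideal.span (X '' s) : Ideal (MvPolynomial σ ℂ)) (l.map X) := by
  induction l with
  | nil => intro s _ _; exact trivial
  | cons a l ih =>
    intro s hnd hs
    rw [List.nodup_cons] at hnd
    refine ⟨VAR_nz s a (hs a (by simp)), ?_⟩
    have e : (Ideal.span (X '' s) ⊔ Ideal.span {X a} : Ideal (MvPolynomial σ ℂ)) =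
        Ideal.span (X '' (insert a s)) := by
      rw [Set.image_insert_eq, Ideal.span_insert, sup_comm]
    rw [e]
    apply ih _ hnd.2
    intro b hb
    rw [Set.mem_insert_iff, not_or]
    exact ⟨fun e => hnd.1 (e ▸ hb), hs b (by simp [hb])⟩

theorem thm_VAR : St_VAR := by
  intro σ l hl
  have h := VAR_rs l (∅ : Set σ) hl (by simp)
  rw [Set.image_empty, Ideal.span_empty] at h
  exact h

end Pool.Agent.PLZ
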