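import Pool.Agent.PLZ.AVO
import Pool.Agent.PLZ.HOM
import Pool.Agent.PLZ.PRM
import Pool.Agent.PLZ.EXG
import Pool.Agent.PLZ.KRL
import Pool.Agent.PLZ.SOP
import Pool.Agent.PLZ.VAR
import Pool.Agent.PLZ.CHN
import Pool.Agent.PLZ.SRD
import Pool.Agent.PLZ.REA
import Pool.Agent.PLZ.AVF
import Pool.Agent.PLZ.SEL
import Pool.Agent.PLZ.DET
import Pool.Agent.PLZ.IDT
import Pool.Agent.PLZ.FIR
import Pool.Agent.PLZ.HSN

/-! PLZ: assembly. -/

set_option autoImplicit false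

namespace Pool.Agent.PLZ

open MvPolynomial

theorem all_SOP : St_SOP := thm_SOP thm_AVO thm_HOM thm_PRM thm_EXG thm_KRL

theorem all_CHN : St_CHN := thm_CHN thm_AVO thm_HOM thm_PRM

theorem all_SEL : St_SEL := thm_SEL thm_AVF thm_HOM thm_KRL

theorem all_FIR : St_FIR :=
  thm_FIR thm_HOM thm_PRM all_SOP thm_VAR all_CHN thm_SRD all_SEL thm_DET thm_IDT

theorem fin_main (n m r : ℕ) (hm : 3 ≤ m) (hr : 3 * r + 5 ≤ n) (p : ℝ) (hp : p ≠ 2)
    (u : MvPolynomial (Fin n) ℝ) (hu : u.IsHomogeneous m)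
    (h : ∀ x : Fin n → ℝ,
      (∑ i, (eval x (pderiv i u)) ^ 2) * (∑ i, eval x (pderiv i (pderiv i u))) +
        (p - 2) * ∑ i, ∑ j, eval x (pderiv i u) * eval x (pderiv j u) *
          eval x (pderiv i (pderiv j u)) = 0)
    (g : Fin r → Fin n → ℂ) :
    ∃ z : Fin n → ℂ, z ≠ 0 ∧ (∀ l, ∑ i, g l i * z i = 0) ∧ ∑ i, z i ^ 2 = 0 ∧
      (∀ i, aeval z (pderiv i u) = 0) ∧
      (1 < p → (Matrix.of fun i j => aeval z (pderiv i (pderiv j u)) :
        Matrix (Fin n) (Fin n) ℂ) ^ 3 = 0) := by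
  obtain ⟨κ, hκ, hP⟩ := thm_REA n m p u hm hp hu h
  have hU : (map Complex.ofRealHom u).IsHomogeneous m := hu.map _
  have hev : ∀ (z : Fin n → ℂ) (i : Fin n),
      eval z (pderiv i (map Complex.ofRealHom u)) = aeval z (pderiv i u) := by
    intro z i
    rw [pderiv_map, eval_map]
    rfl
  obtain ⟨z, hz, hl, hq, hg⟩ := all_FIR n m r _ κ g hr hm hU hκ hP
  have hg' : ∀ i, aeval z (pderiv i u) = 0 := fun i => by rw [← hev]; exact hg i
  exact ⟨z, hz, hl, hq, hg', fun h1 => thm_HSN n p u h1 hp h z hg'⟩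

end Pool.Agent.PLZ
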