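import Pool.Agent.PLZ.Fin
import Pool.Agent.PLZ.FIB

/-! PLZ: existence of a complex singular point for `n ≥ 3` (not a hand-in). -/

set_option autoImplicit false

namespace Pool.Agent.PLZ

open MvPolynomial

theorem all_FIB : St_FIB := thm_FIB thm_PRM all_SOP thm_VAR

theorem exists_singular (n m : ℕ) (hn : 2 ≤ n) (hm : 3 ≤ m) (p : ℝ) (hp : p ≠ 2)
    (u : MvPolynomial (Fin n) ℝ) (hu : u.IsHomogeneous m)
    (h : ∀ x : Fin n → ℝ,
      (∑ i, (eval x (pderiv i u)) ^ 2) * (∑ i, eval x (pderiv i (pderiv i u))) +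
        (p - 2) * ∑ i, ∑ j, eval x (pderiv i u) * eval x (pderiv j u) *
          eval x (pderiv i (pderiv j u)) = 0) :
    ∃ z : Fin n → ℂ, z ≠ 0 ∧ ∀ i, aeval z (pderiv i u) = 0 := by
  obtain ⟨κ, hκ, hP⟩ := thm_REA n m p u hm hp hu h
  have hU : (map Complex.ofRealHom u).IsHomogeneous m := hu.map _
  obtain ⟨z, hz, hg⟩ := all_FIB n m _ κ hn hm hU hκ hP
  refine ⟨z, hz, fun i => ?_⟩
  have := hg i
  rw [pderiv_map, eval_map] at this
  exact this

end Pool.Agent.PLZ
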