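import Pool.Agent.PLZ.St

/-!
# PLZ, module IDN: the identity of Step 1 at a point of an algebra
-/

set_option autoImplicit false

namespace Pool.Agent.PLZ

open MvPolynomial

private theorem IDN_comm {n : ℕ} (i j : Fin n) (p : MvPolynomial (Fin n) ℂ) :
    pderiv i (pderiv j p) = pderiv j (pderiv i p) := by
  have h : (⁅(pderiv i : Derivation ℂ (MvPolynomial (Fin n) ℂ) (MvPolynomial (Fin n) ℂ)),
      (pderiv j : Derivation ℂ (MvPolynomial (Fin n) ℂ) (MvPolynomial (Fin n) ℂ))⁆ :
      Derivation ℂ (MvPolynomial (Fin n) ℂ) (MvPolynomial (Fin n) ℂ)) = 0 := by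
    apply MvPolynomial.derivation_ext
    intro k
    rw [Derivation.commutator_apply]
    simp only [pderiv_X, Derivation.coe_zero, Pi.zero_apply]
    by_cases h1 : j = k
    · by_cases h2 : i = k <;> simp [h1, h2]
    · by_cases h2 : i = k <;> simp [h1, h2]
  have h2 := congrArg (fun D => D p) h
  simp only [Derivation.commutator_apply, Derivation.coe_zero, Pi.zero_apply] at h2
  exact sub_eq_zero.1 h2

theorem thm_IDN : St_IDN := by
  intro n m u κ hm hu hP S _ _ x τ hx i
  set A : MvPolynomial (Fin n) ℂ →ₐ[ℂ] S := aeval x with hA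
  have hAX : ∀ j, A (X j) = x j := fun j => by rw [hA, aeval_X]
  have hAC : ∀ c : ℂ, A (C c) = algebraMap ℂ S c := fun c => by rw [hA, aeval_C]
  obtain ⟨k, rfl⟩ : ∃ k, m = k + 1 := ⟨m - 1, by omega⟩
  have hu1 : ∀ j, (pderiv j u).IsHomogeneous k := fun j => by simpa using hu.pderiv (i := j)
  -- Euler for the gradient
  have e1 : ∀ j, ∑ l, x l * A (pderiv l (pderiv j u)) = (k : S) * (τ * x j) := by
    intro j
    have h := congrArg A (hu1 j).sum_X_mul_pderiv
    simp only [map_sum, map_mul, hAX, nsmul_eq_mul, map_natCast] at h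
    rw [h, hx]
  -- the gradient of `Gr`
  have e2 : ∀ j, A (pderiv j (Gr u)) = 2 * (k : S) * τ ^ 2 * x j := by
    intro j
    have h : pderiv j (Gr u) = 2 * ∑ l, pderiv l u * pderiv l (pderiv j u) := by
      rw [Gr, map_sum, Finset.mul_sum]
      refine Finset.sum_congr rfl fun l _ => ?_
      rw [pow_two, pderiv_mul, IDN_comm j l]
      ring
    rw [h, map_mul, map_sum]
    have h2 : ∑ l, A (pderiv l u * pderiv l (pderiv j u)) =
        τ * ∑ l, x l * A (pderiv l (pderiv j u)) := by
      rw [Finset.mul_sum]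
      refine Finset.sum_congr rfl fun l _ => ?_
      rw [map_mul, hx]
      ring
    rw [h2, e1, map_ofNat]
    ring
  -- the value of `Gr`
  set q : S := ∑ l, x l ^ 2 with hq
  have e3 : A (Gr u) = τ ^ 2 * q := by
    rw [Gr, map_sum, hq, Finset.mul_sum]
    refine Finset.sum_congr rfl fun l _ => ?_
    rw [map_pow, hx]
    ring
  -- Euler for the gradient of `Gr`
  have hG : (Gr u).IsHomogeneous (k * 2) := by
    rw [Gr]
    exact IsHomogeneous.sum _ _ _ fun l _ => (hu1 l).pow 2
  have e4 : ∀ j, ∑ l, x l * A (pderiv l (pderiv j (Gr u))) =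
      (2 * (k : S) - 1) * (2 * (k : S) * τ ^ 2 * x j) := by
    intro j
    have h := congrArg A (hG.pderiv (i := j)).sum_X_mul_pderiv
    simp only [map_sum, map_mul, hAX, nsmul_eq_mul, map_natCast] at h
    rw [h, e2]
    have h1 : ((k * 2 - 1 : ℕ) : S) = 2 * (k : S) - 1 := by
      have : 1 ≤ k * 2 := by omega
      rw [Nat.cast_sub this]
      push_cast
      ring
    rw [h1]
  have hck : algebraMap ℂ S (2 * (((k + 1 : ℕ) : ℂ) - 1)) = 2 * (k : S) := by
    simp only [map_sub, map_mul, map_natCast, map_ofNat, map_one]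
    push_cast
    ring
  have hc3 : algebraMap ℂ S (3 * ((k + 1 : ℕ) : ℂ) - 4) = 3 * (k : S) - 1 := by
    simp only [map_sub, map_mul, map_natCast, map_ofNat]
    push_cast
    ring
  -- cancel `2 k`
  have hcan : ∀ z : S, 2 * (k : S) * z = 0 → z = 0 := by
    intro z hz
    have hk : (2 * (((k + 1 : ℕ) : ℂ) - 1)) ≠ 0 := by
      push_cast
      have : (k : ℂ) ≠ 0 := by
        exact_mod_cast (by omega : k ≠ 0)
      simpa using this
    rw [← hck] at hz
    generalize (2 * (((k + 1 : ℕ) : ℂ) - 1)) = c0 at hk hz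
    have h : algebraMap ℂ S c0⁻¹ * (algebraMap ℂ S c0 * z) = 0 := by rw [hz, mul_zero]
    rwa [← mul_assoc, ← map_mul, inv_mul_cancel₀ hk, map_one, one_mul] at h
  have hP' : ∑ i, pderiv i u * pderiv i (Gr u) =
      C (2 * (((k + 1 : ℕ) : ℂ) - 1)) * κ * Gr u := hP
  have hCc : A (C (2 * (((k + 1 : ℕ) : ℂ) - 1))) = 2 * (k : S) := by rw [hAC, hck]
  have hCd : ∀ j, pderiv j (C (2 * (((k + 1 : ℕ) : ℂ) - 1)) : MvPolynomial (Fin n) ℂ) = 0 :=
    fun j => pderiv_C
  generalize (C (2 * (((k + 1 : ℕ) : ℂ) - 1)) : MvPolynomial (Fin n) ℂ) = cc at hP' hCc hCd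
  -- (P) at the point
  have f1 : (A κ - τ) * (τ ^ 2 * q) = 0 := by
    apply hcan
    have h := congrArg A hP'
    rw [map_sum, map_mul, map_mul, hCc, e3] at h
    have h2 : ∑ l, A (pderiv l u * pderiv l (Gr u)) = 2 * (k : S) * τ ^ 3 * q := by
      rw [hq, Finset.mul_sum]
      refine Finset.sum_congr rfl fun l _ => ?_
      rw [map_mul, hx, e2]
      ring
    rw [h2] at h
    linear_combination (-1 : S) * h
  -- the derivative of (P) at the point
  have f2 : (3 * (k : S) - 1) * τ ^ 3 * x i =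
      A (pderiv i κ) * (τ ^ 2 * q) + 2 * (k : S) * A κ * τ ^ 2 * x i := by
    have h := congrArg (fun p => A (pderiv i p)) hP'
    simp only [map_sum] at h
    have h2 : ∑ l, A (pderiv i (pderiv l u * pderiv l (Gr u))) =
        2 * (k : S) * ((3 * (k : S) - 1) * τ ^ 3 * x i) := by
      have h3 : ∀ l, A (pderiv i (pderiv l u * pderiv l (Gr u))) =
          (2 * (k : S) * τ ^ 2) * (x l * A (pderiv l (pderiv i u))) +
            τ * (x l * A (pderiv l (pderiv i (Gr u)))) := by
        intro l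
        rw [pderiv_mul, map_add, map_mul, map_mul, hx, e2, IDN_comm i l u, IDN_comm i l (Gr u)]
        ring
      simp only [h3]
      rw [Finset.sum_add_distrib, ← Finset.mul_sum, ← Finset.mul_sum, e1, e4]
      ring
    rw [h2] at h
    rw [pderiv_mul, pderiv_mul, hCd] at h
    simp only [map_add, map_mul, map_zero, hCc, e2, e3] at h
    have h4 : (3 * (k : S) - 1) * τ ^ 3 * x i -
        (A (pderiv i κ) * (τ ^ 2 * q) + 2 * (k : S) * A κ * τ ^ 2 * x i) = 0 := by
      apply hcan
      linear_combination h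
    exact sub_eq_zero.1 h4
  rw [hck, hc3]
  linear_combination (-(A κ - τ)) * f2 - (A (pderiv i κ)) * f1

end Pool.Agent.PLZ
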