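import Mathlib

/-!
# PLZ (MP_d74254_an): singular points of polynomial solutions of the p-Laplace equation

Statements of the modules. Paper proof: team-store `d74254_helper43.txt` (helper43).
Do not change this file (ask helper43).

`R = MvPolynomial σ ℂ`. Regular sequences modulo an ideal are given by `RS`, homogeneous ideals by
`HI`, forms of positive degree by `PH`; `VZ J l`: the ideal `J` and the list `l` have no common
zero except `0`.
-/

set_option autoImplicit false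

namespace Pool.Agent.PLZ

open MvPolynomial

/-- `b` is a nonzerodivisor modulo `J` -/
def NZ {R : Type} [CommRing R] (J : Ideal R) (b : R) : Prop := ∀ h : R, b * h ∈ J → h ∈ J

/-- regular sequence modulo `J` -/
def RS {R : Type} [CommRing R] : Ideal R → List R → Prop
  | _, [] => True
  | J, a :: l => NZ J a ∧ RS (J ⊔ Ideal.span {a}) l

/-- homogeneous ideal -/
def HI {σ : Type} (J : Ideal (MvPolynomial σ ℂ)) : Prop :=
  ∀ h ∈ J, ∀ d : ℕ, homogeneousComponent d h ∈ J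

/-- form of positive degree -/
def PH {σ : Type} (f : MvPolynomial σ ℂ) : Prop := ∃ d : ℕ, 1 ≤ d ∧ f.IsHomogeneous d

/-- no common zero except `0` -/
def VZ {σ : Type} (J : Ideal (MvPolynomial σ ℂ)) (l : List (MvPolynomial σ ℂ)) : Prop :=
  ∀ a : σ → ℂ, (∀ f ∈ J, eval a f = 0) → (∀ f ∈ l, eval a f = 0) → a = 0

/-- `|∇u|²` -/
noncomputable def Gr {n : ℕ} (u : MvPolynomial (Fin n) ℂ) : MvPolynomial (Fin n) ℂ :=
  ∑ i, pderiv i u ^ 2

/-- the equation (P): `∇u · ∇|∇u|² = 2 (m - 1) κ |∇u|²` -/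
def Pe {n : ℕ} (m : ℕ) (u κ : MvPolynomial (Fin n) ℂ) : Prop :=
  ∑ i, pderiv i u * pderiv i (Gr u) = C (2 * ((m : ℂ) - 1)) * κ * Gr u

/-- [AVO] Avoidance. For `P ∈ S` the set of the `c` with `∑ c j x j ∈ P` is a proper subspace of
`Fin n → ℂ`; a finite union of proper subspaces over an infinite field is not everything
(`Subspace.biUnion_ne_univ_of_top_notMem` or similar in Mathlib). -/
def St_AVO : Prop := ∀ (σ : Type) (n : ℕ) (x : Fin n → MvPolynomial σ ℂ)
  (S : Set (Ideal (MvPolynomial σ ℂ))), S.Finite → (∀ P ∈ S, ∃ j, x j ∉ P) →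
  ∃ c : Fin n → ℂ, ∀ P ∈ S, ∑ j, C (c j) * x j ∉ P

/-- [HOM] Small facts on homogeneous ideals: sums, and ideals generated by lists of forms. -/
def St_HOM : Prop := ∀ (σ : Type),
  HI (⊥ : Ideal (MvPolynomial σ ℂ)) ∧
  (∀ J J' : Ideal (MvPolynomial σ ℂ), HI J → HI J' → HI (J ⊔ J')) ∧
  (∀ (f : MvPolynomial σ ℂ) (d : ℕ), f.IsHomogeneous d → HI (Ideal.span {f})) ∧
  (∀ l : List (MvPolynomial σ ℂ), (∀ f ∈ l, PH f) → HI (Ideal.ofList l))

/-- [PRM] Permutations of regular sequences of forms. Two facts: (L2, any ring) `a` regular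
modulo `J`, `b` regular modulo `J + (a)` imply `a` regular modulo `J + (b)` (`a h = j + b h'`, so
`b h' ∈ J + (a)`, `h' = j' + a h''`, `a (h - b h'') ∈ J`); (L1, forms) then also `b` is regular
modulo `J`: if `b h ∈ J` take `h` homogeneous (components), `h = j + a h'`, `a (b h') ∈ J`,
`b h' ∈ J`, and the degree of `h'` is smaller (induction on the degree; if `deg h < deg a` then
`h ∈ J`). So adjacent elements can be exchanged; `List.Perm` induction. -/
def St_PRM : Prop := ∀ (σ : Type) (J : Ideal (MvPolynomial σ ℂ)) (l l' : List (MvPolynomial σ ℂ)),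
  HI J → (∀ f ∈ l, PH f) → RS J l → l.Perm l' → RS J l'

/-- [EXG] Exchange: by the Nullstellensatz `z ^ s ∈ J + (w)` (`z` vanishes at `0`), so
`z ^ s = j + w g`; if `w h ∈ J` then `z ^ s h = j h + g w h ∈ J`, so `h ∈ J`.
(`MvPolynomial.vanishingIdeal_zeroLocus_eq_radical`.) -/
def St_EXG : Prop := ∀ (σ : Type) [Finite σ] (J : Ideal (MvPolynomial σ ℂ))
  (z w : MvPolynomial σ ℂ), eval 0 z = 0 → NZ J z → VZ J [w] → NZ J w

/-- [KRL] Krull. Let `a ≠ 0` be a zero of `J` and `w`. The line through `a` lies in the zero set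
of `J` and of `w` (homogeneity), so `J ≤ 𝔮`, `w ∈ 𝔮`, where `𝔮` is the prime ideal of the
polynomials vanishing on the line; `𝔮 < 𝔪` (`𝔪` the polynomials vanishing at `0`). Let `𝔭 ≤ 𝔮` be
a minimal prime of `J`, `w ∉ 𝔭` by assumption (`𝔭 ≠ 𝔪`). `𝔪` is minimal over `𝔭 + (z)`: if `𝔯`
is a prime with `𝔭 + (z) ≤ 𝔯` then all `b ∈ V(𝔯)` are zeros of `J` and `z`, so `V(𝔯) ⊆ {0}` and
`𝔪 ≤ 𝔯` by the Nullstellensatz. In `R / 𝔭` the chain `0 < 𝔮 < 𝔪` contradicts Krull's principal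
ideal theorem (`Ideal.height_le_one_of_isPrincipal_of_mem_minimalPrimes` or similar). -/
def St_KRL : Prop := ∀ (σ : Type) [Finite σ] (J : Ideal (MvPolynomial σ ℂ))
  (z w : MvPolynomial σ ℂ), HI J → PH z → PH w → VZ J [z] →
  (∀ P ∈ J.minimalPrimes, (∃ s, X s ∉ P) → w ∉ P) → VZ J [w]

/-- [SOP] Exchange of systems of parameters. Induction on the length; `z :: zs`, `y :: ys`. By
`St_AVO` (with `x` the variables, `S` the minimal primes of `J + (zs)` and of `J + (ys)` which do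
not contain all variables) and `St_KRL` there is a linear form `w` with `VZ (J + (zs)) [w]` and
`VZ (J + (ys)) [w]`. By `St_PRM` `z` is regular modulo `J + (zs)`, by `St_EXG` so is `w`;
`RS J (zs ++ [w])`, `RS J (w :: zs)`; by induction for `J + (w)`: `RS (J + (w)) ys`, so
`RS J (w :: ys)`, `RS J (ys ++ [w])`; by `St_EXG` `y` is regular modulo `J + (ys)`;
`RS J (ys ++ [y])`, `RS J (y :: ys)`. -/
def St_SOP : Prop := ∀ (σ : Type) [Finite σ] (J : Ideal (MvPolynomial σ ℂ))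
  (zs ys : List (MvPolynomial σ ℂ)), zs.length = ys.length → HI J → (∀ f ∈ zs, PH f) →
  (∀ f ∈ ys, PH f) → RS J zs → VZ J zs → VZ J ys → RS J ys

/-- [VAR] The variables form a regular sequence, in every order. -/
def St_VAR : Prop := ∀ (σ : Type) (l : List σ), l.Nodup →
  RS (⊥ : Ideal (MvPolynomial σ ℂ)) (l.map X)

/-- [CHN] The chain lemma. Induction on the list `F :: l`: by `St_PRM` `F` is regular modulo
`J' = J + (l)`; no associated prime `P` of `J'` contains all `x j` (it would contain `F`), so by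
`St_AVO` some `w = ∑ c j x j` is regular modulo `J'`. `w f = F g` modulo `J'`, and `g` can be
taken homogeneous of degree `d - (k - 1)` (or `w f ∈ J'`, so `f ∈ J'`, if `d < k - 1`).
`RS (J + (w)) l` by `St_PRM`, and `x j g ∈ J + (w) + (l)` (`x j f = F h`, `F (x j g - w h) ∈ J'`).
By induction `g ∈ J + (w) + (l)`, `g = w h'` modulo `J'`, `w (f - F h') ∈ J'`. -/
def St_CHN : Prop := ∀ (σ : Type) [Finite σ] (n k : ℕ) (x : Fin n → MvPolynomial σ ℂ)
  (J : Ideal (MvPolynomial σ ℂ)) (l : List (MvPolynomial σ ℂ)) (f : MvPolynomial σ ℂ) (d : ℕ),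
  2 ≤ k → (∀ j, (x j).IsHomogeneous 1) →
  (∀ F ∈ l, F.IsHomogeneous k ∧ F ∈ Ideal.span (Set.range x)) → HI J → RS J l →
  f.IsHomogeneous d → d < l.length * (k - 1) → (∀ j, x j * f ∈ J ⊔ Ideal.ofList l) →
  f ∈ J ⊔ Ideal.ofList l

/-- [IDN] Step 1, at a point of any commutative algebra `S`. `H x = (m - 1) X` (Euler for the
`pderiv i u`), `X = τ x`; `G = τ² q`; `G_i = 2 (H X)_i = 2 (m - 1) τ² x_i`; Euler for `G` and for
`G_i`; (P) at the point gives `(κ - τ) τ² q = 0`; the derivative of (P) at the point gives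
`(3 m - 4) τ³ x_i = τ² q κ_i + 2 (m - 1) κ τ² x_i`; multiply by `κ - τ`. -/
def St_IDN : Prop := ∀ (n m : ℕ) (u κ : MvPolynomial (Fin n) ℂ), 3 ≤ m → u.IsHomogeneous m →
  Pe m u κ → ∀ (S : Type) [CommRing S] [Algebra ℂ S] (x : Fin n → S) (τ : S),
  (∀ i, aeval x (pderiv i u) = τ * x i) → ∀ i,
  x i * (τ ^ 2 * (aeval x κ - τ) *
    (algebraMap ℂ S (2 * ((m : ℂ) - 1)) * aeval x κ - algebraMap ℂ S (3 * (m : ℂ) - 4) * τ)) = 0

/-- [SRD] Algebraic Sard: not every `γ ≠ 0` is the square of an eigenvalue. Otherwise let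
`A = ℂ[x] / (q - 1, X_i - m u x_i)` and `v = m² u²`; `ℂ[v] → A` is injective (a relation `h(v) = 0`
would give `h(γ) = 0` for all `γ ≠ 0`, as `λ = λ q = x · X = m u` at the points); so `A ⊗ ℂ(v)` is
not zero, and has a residue field `L` which is a finite extension of `F = ℂ(v)`. `d/dv` extends
to `L` (`differentialFiniteDimensional`; `F` the fraction field of `ℂ[X]`, derivation by dual
numbers as in `Pool/Agent/Per/Field.lean`). With `x i ∈ L`: `∑ x i ^ 2 = 1` gives `∑ x i x i' = 0`,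
`u' = ∑ X i x i' = m u ∑ x i x i' = 0`, `1 = v' = 2 m² u u' = 0`. -/
def St_SRD : Prop := ∀ (n m : ℕ) (u : MvPolynomial (Fin n) ℂ), 2 ≤ m → u.IsHomogeneous m →
  ∃ γ : ℂ, γ ≠ 0 ∧ ∀ (a : Fin n → ℂ) (lam : ℂ), (∀ i, eval a (pderiv i u) = lam * a i) →
    ∑ i, a i ^ 2 = 1 → lam ^ 2 ≠ γ

/-- [FIB] Theorem B (proof by helper72). Suppose the `u_i` have only the zero `0`. Let `i ≠ j`,
`b = e_i + I e_j` (null), `a = (e_i - I e_j) / 2` (null, `a · b = 1`), and `J` the ideal of the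
`n - 1` polynomials `u_c`, `c` in the basis `b`, `e_l` (`l ≠ i, j`) of the orthogonal complement of
`b`. Modulo `J` the gradient is `u_a b`, so (P) (in the form `∇u · H ∇u = (m - 1) κ |∇u|²`) gives
`u_a ^ 2 u_bb ∈ J`. The list of the `u_c` and `u_a` is a regular sequence (`St_SOP` with the
variables, `St_VAR`), so by `St_PRM` `u_a` is regular modulo `J`, `u_bb ∈ J`, but `u_bb` has degree
`m - 2` and `J` is generated by forms of degree `m - 1`: `u_bb = 0`, i.e.
`u_ii - u_jj + 2 I u_ij = 0`; with `-I` as well: `u_ij = 0` and `u_ii = u_jj` for all `i ≠ j`; so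
every `u_i` depends on `x_i` only and `u_ii = u_jj` depends on no variable (`n ≥ 2`), hence is a
constant of degree `m - 2 ≥ 1`, so it is `0`; by Euler `u_i = 0`: contradiction (`z = e_1`). -/
def St_FIB : Prop := ∀ (n m : ℕ) (u κ : MvPolynomial (Fin n) ℂ), 2 ≤ n → 3 ≤ m →
  u.IsHomogeneous m → κ.IsHomogeneous (m - 2) → Pe m u κ →
  ∃ z : Fin n → ℂ, z ≠ 0 ∧ ∀ i, eval z (pderiv i u) = 0

/-- [FIA] Theorem A. `σ = Option (Fin n)`, `t = X none`, `x j = X (some j)`,
`F j = rename some (pderiv j u) - t ^ (m - 2) x j` (forms of degree `k = m - 1` in the ideal of the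
`x j`), `τ = t ^ (m - 2)`. Suppose there is no such `z`. `γ` from `St_SRD`,
`L = t ^ (2 (m - 2)) - γ q ^ (m - 2)`: the `F j` and `L` have only the zero `0` (if `q ≠ 0` scale
by `s`, `s ^ 2 = 1 / q`; if `q = 0` then `t = 0` and the gradient is `0`). By `St_SOP` (from the
variables, `St_VAR`) and `St_PRM` the list of the `F j` is regular. By `St_IDN` for
`S = R / (F)`: `x j f ∈ (F)` with `f = τ² (κ - τ) (2 (m - 1) κ - (3 m - 4) τ)`, a form of degree
`4 (m - 2) < n (m - 2)`; by `St_CHN` (`J = ⊥`) `f ∈ (F)`; at `x = 0`, `t = 1` the `F j` are `0` and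
`f = 3 m - 4`: contradiction. -/
def St_FIA : Prop := ∀ (n m : ℕ) (u κ : MvPolynomial (Fin n) ℂ), 5 ≤ n → 3 ≤ m →
  u.IsHomogeneous m → κ.IsHomogeneous (m - 2) → Pe m u κ →
  ∃ z : Fin n → ℂ, z ≠ 0 ∧ ∑ i, z i ^ 2 = 0 ∧ ∀ i, eval z (pderiv i u) = 0

/-- [REA] From the real equation to `Pe`: `κ = - Δu / ((p - 2)(m - 1))`, mapped to `ℂ`. -/
def St_REA : Prop := ∀ (n m : ℕ) (p : ℝ) (u : MvPolynomial (Fin n) ℝ), 3 ≤ m → p ≠ 2 →
  u.IsHomogeneous m →
  (∀ x : Fin n → ℝ,
    (∑ i, (eval x (pderiv i u)) ^ 2) * (∑ i, eval x (pderiv i (pderiv i u))) +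
      (p - 2) * ∑ i, ∑ j, eval x (pderiv i u) * eval x (pderiv j u) *
        eval x (pderiv i (pderiv j u)) = 0) →
  ∃ κ : MvPolynomial (Fin n) ℂ, κ.IsHomogeneous (m - 2) ∧
    Pe m (map Complex.ofRealHom u) κ

end Pool.Agent.PLZ
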