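import Pool.Agent.PLZ.St

/-!
# PLZ (MP_d74254_an), second part: dimension of the isotropic singular locus, Hessian

Statements of the additional modules. Paper proof: team-store `d74254_helper43_v2.txt`.
Do not change this file (ask helper43).
-/

set_option autoImplicit false

namespace Pool.Agent.PLZ

open MvPolynomial

/-- [AVF] Avoidance with a functional: as `St_AVO` (module AVO), with the proper subspace
`{c | ∑ φ j c j = 0}` added to the finite union. -/
def St_AVF : Prop := ∀ (σ : Type) (n : ℕ) (x : Fin n → MvPolynomial σ ℂ)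
  (S : Set (Ideal (MvPolynomial σ ℂ))) (φ : Fin n → ℂ), S.Finite → (∀ P ∈ S, ∃ j, x j ∉ P) →
  φ ≠ 0 → ∃ c : Fin n → ℂ, ∑ j, φ j * c j ≠ 0 ∧ ∀ P ∈ S, ∑ j, C (c j) * x j ∉ P

/-- [SEL] Selection of combinations. Induction on `i ≤ n`: there are `h_0, ..., h_(i-1)`,
`h_s = ∑ j, C (c s j) * F j + ∑ l, C (a s l) * G l`, with linearly independent rows
`c s : Fin n → ℂ`, such that `L`, the `h_s` (`s < i`) and the `z_s` (`i ≤ s`) have only the zero
`0`. Step: `J` the ideal generated by all these except `z_i`, so `VZ J [z_i]`; take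
`h_i ∉ P` for the `P ∈ J.minimalPrimes` with some `X s ∉ P` (`St_AVF` with `x` the family of the
`F j` and `G l` and `φ` a functional on the `c`-part which vanishes on the previous rows; not all
`F j`, `G l` are in `P`, because a zero `≠ 0` of `P` would be a common zero of `L`, the `F j` and
the `G l`), and `St_KRL` gives `VZ J [h_i]`. At the end the matrix `c` is invertible: multiply by
its inverse. -/
def St_SEL : Prop := ∀ (σ : Type) [Finite σ] (n r k : ℕ) (F z : Fin n → MvPolynomial σ ℂ)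
  (G : Fin r → MvPolynomial σ ℂ) (L : MvPolynomial σ ℂ), 1 ≤ k →
  (∀ i, (F i).IsHomogeneous k) → (∀ l, (G l).IsHomogeneous k) → (∀ i, PH (z i)) → PH L →
  VZ ⊥ (L :: List.ofFn z) → VZ ⊥ (L :: (List.ofFn F ++ List.ofFn G)) →
  ∃ a : Fin n → Fin r → ℂ, VZ ⊥ (L :: List.ofFn fun i => F i + ∑ l, C (a i l) * G l)

/-- [DET] Modulo `I`: `F i = - ∑ l, a i l * G l`, so the matrix (index set `Fin r ⊕ Unit`)
`fromBlocks (α • 1 + B * a) (- π) (b * a) β` (`B`, `b` the coefficients, `ev B = 0`, `ev b = 0`)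
kills the vector `(G, Y)` modulo `I`. Its determinant `D` (adjugate) satisfies `D * G l ∈ I`,
`D * Y ∈ I`, and `ev D = ev α ^ r * ev β` (`det_fromBlocks_zero₂₁`). -/
def St_DET : Prop := ∀ (A B : Type) [CommRing A] [CommRing B] (ev : A →+* B) (I : Ideal A)
  (n r : ℕ) (F x κ : Fin n → A) (G π : Fin r → A) (a : Fin n → Fin r → A) (Y α β : A),
  (∀ i, F i + ∑ l, a i l * G l ∈ I) →
  (∀ l, ∃ b : Fin n → A, (∀ i, ev (b i) = 0) ∧ α * G l - π l * Y = ∑ i, b i * F i) →
  (∃ b : Fin n → A, (∀ i, ev (b i) = 0) ∧ β * Y = ∑ i, b i * F i) →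
  (∀ i, ∃ b : Fin n → A, α * x i - κ i * Y = ∑ j, b j * F j) →
  ∃ D : A, ev D = ev α ^ r * ev β ∧ ∀ i, D * (α * x i) ∈ I

/-- [IDT] The two identities inside the proof of module IDN (`f1`, `f2` there). -/
def St_IDT : Prop := ∀ (n m : ℕ) (u κ : MvPolynomial (Fin n) ℂ), 3 ≤ m → u.IsHomogeneous m →
  Pe m u κ → ∀ (S : Type) [CommRing S] [Algebra ℂ S] (x : Fin n → S) (τ : S),
  (∀ i, aeval x (pderiv i u) = τ * x i) →
  (aeval x κ - τ) * (τ ^ 2 * ∑ l, x l ^ 2) = 0 ∧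
  ∀ i, τ ^ 2 * (algebraMap ℂ S (3 * (m : ℂ) - 4) * τ -
      algebraMap ℂ S (2 * ((m : ℂ) - 1)) * aeval x κ) * x i -
    aeval x (pderiv i κ) * (τ ^ 2 * ∑ l, x l ^ 2) = 0

/-- [FIR] Theorem A with `r` linear conditions (the case `r = 0` is `St_FIA`, module FIA, whose
proof is the model). `σ = Option (Fin n)`, `t = X none`, `x j = X (some j)`, `k = m - 1`,
`τ = t ^ (m - 2)`, `F j = rename some (pderiv j u) - τ x j`, `G l = (∑ i, g l i x i) ^ k`.
Suppose there is no such `z`; `γ` and `L = t ^ (2 (m - 2)) - γ q ^ (m - 2)` as in FIA; then `L`,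
the `F j` and the `G l` have only the zero `0`; so do `L` and the `x j`. `St_SEL` gives `a`, and
`L`, `F' i = F i + ∑ l, a i l G l` have only the zero `0`, so (as in FIA) `RS ⊥ (List.ofFn F')`.
Put `Y = τ ^ 2 q`, `α = τ ^ 2 ((3 m - 4) τ - 2 (m - 1) κ)`, `β = κ - τ`. By `St_IDT` (for
`S = R ⧸ (F)`): `β Y ∈ (F)`, `α x i - κ_i Y ∈ (F)`; hence, with `G l = ∑ i, G' l i x i`,
`G' l i = g l i (..) ^ (k - 1)`: `α G l - π l Y ∈ (F)`, `π l = ∑ i, G' l i κ_i`. Let `ev` be the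
map `R → ℂ[t]`, `x = 0`. If `∑ i, b i F i` lies in the square of the ideal `(x)` then `ev (b i) = 0`
for all `i` (look at the part linear in `x i`: `F i = - τ x i` modulo `(x) ^ 2`, because
`k ≥ 2`; for instance apply `pderiv (some i)` and then `ev`); this applies to `β Y` and to
`α G l - π l Y`. So `St_DET` (`I = (F')`) gives `D` with
`ev D = ((3 m - 4) t ^ (3 (m - 2))) ^ r * (- t ^ (m - 2))` and `h x i ∈ (F')`, `h = D α`. Let `h'` be
the homogeneous component of `h` of degree `d = (3 r + 4) (m - 2)`: `h' x i ∈ (F')` (`(F')` is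
homogeneous, `St_HOM`), and the value of `h'` at `x = 0`, `t = 1` is the coefficient of `t ^ d` in
`ev h`, which is `- (3 m - 4) ^ (r + 1) ≠ 0`. As `d < n (m - 2)`, `St_CHN` (`J = ⊥`, the list of the
`F'`) gives `h' ∈ (F')`, but all `F' i` vanish at `x = 0`: contradiction. -/
def St_FIR : Prop := ∀ (n m r : ℕ) (u κ : MvPolynomial (Fin n) ℂ) (g : Fin r → Fin n → ℂ),
  3 * r + 5 ≤ n → 3 ≤ m → u.IsHomogeneous m → κ.IsHomogeneous (m - 2) → Pe m u κ →
  ∃ z : Fin n → ℂ, z ≠ 0 ∧ (∀ l, ∑ i, g l i * z i = 0) ∧ ∑ i, z i ^ 2 = 0 ∧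
    ∀ i, eval z (pderiv i u) = 0

/-- [HSN] The Hessian at a singular point. Let `H` be the matrix. The identity holds for the
polynomial itself, so at the point `z`; apply `∂_k ∂_l` to it and take the value at `z`, where all
`u_i` vanish: `2 (H ^ 2)_kl tr H + (p - 2) 2 (H ^ 3)_kl = 0`. So `H ^ 3 = c H ^ 2`,
`c = - tr H / (p - 2)`. If `c ≠ 0`: `E = c⁻² H ^ 2` is idempotent, `(H - c⁻¹ H ^ 2) ^ 2 = 0`, so
`tr H = c⁻¹ tr H ^ 2 = c tr E = c k` with `k = rank E` a natural number, and `c (p - 2) = - c k`,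
`p = 2 - k`, against `1 < p ≠ 2`. -/
def St_HSN : Prop := ∀ (n : ℕ) (p : ℝ) (u : MvPolynomial (Fin n) ℝ), 1 < p → p ≠ 2 →
  (∀ x : Fin n → ℝ,
    (∑ i, (eval x (pderiv i u)) ^ 2) * (∑ i, eval x (pderiv i (pderiv i u))) +
      (p - 2) * ∑ i, ∑ j, eval x (pderiv i u) * eval x (pderiv j u) *
        eval x (pderiv i (pderiv j u)) = 0) →
  ∀ z : Fin n → ℂ, (∀ i, aeval z (pderiv i u) = 0) →
    (Matrix.of fun i j => aeval z (pderiv i (pderiv j u)) : Matrix (Fin n) (Fin n) ℂ) ^ 3 = 0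

end Pool.Agent.PLZ
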